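import Mathlib

set_option autoImplicit false

open scoped commutatorElement

namespace Pool.Agent.Helper95

/-- Symmetric double sums in characteristic two collapse to the diagonal. -/
theorem sum_sum_symm_two {ι : Type*} [DecidableEq ι] (s : Finset ι) (F : ι → ι → ZMod 2)
    (hF : ∀ x y, F x y = F y x) : ∑ x ∈ s, ∑ y ∈ s, F x y = ∑ x ∈ s, F x x := by
  induction s using Finset.induction_on with
  | empty => simp
  | insert a s ha ih =>
    rw [Finset.sum_insert ha, Finset.sum_insert ha, Finset.sum_insert ha]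
    have h1 : ∑ x ∈ s, ∑ y ∈ insert a s, F x y
        = ∑ x ∈ s, F x a + ∑ x ∈ s, ∑ y ∈ s, F x y := by
      rw [← Finset.sum_add_distrib]
      exact Finset.sum_congr rfl fun x _ => Finset.sum_insert ha
    rw [h1, ih]
    have h2 : ∑ y ∈ s, F a y = ∑ x ∈ s, F x a := Finset.sum_congr rfl fun x _ => hF a x
    rw [h2]
    have h3 : (∑ x ∈ s, F x a) + (∑ x ∈ s, F x a) = 0 := CharTwo.add_self_eq_zero _
    linear_combination h3

section Beta

variable {Γ : Type*} [Group Γ] (ν : Γ → ZMod 2)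

/-- The right-invariant bilinear form on `F_2[Γ]` attached to `ν`. -/
noncomputable def beta (m m' : Γ →₀ ZMod 2) : ZMod 2 :=
  m.sum fun x a => m'.sum fun y b => a * b * ν (x * y⁻¹)

theorem beta_add_left (m₁ m₂ m' : Γ →₀ ZMod 2) :
    beta ν (m₁ + m₂) m' = beta ν m₁ m' + beta ν m₂ m' := by
  unfold beta
  rw [Finsupp.sum_add_index']
  · intro a; simp
  · intro a b₁ b₂
    rw [← Finsupp.sum_add]
    refine Finsupp.sum_congr fun y _ => ?_
    ring

theorem beta_add_right (m m₁ m₂ : Γ →₀ ZMod 2) :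
    beta ν m (m₁ + m₂) = beta ν m m₁ + beta ν m m₂ := by
  unfold beta
  rw [← Finsupp.sum_add]
  refine Finsupp.sum_congr fun x _ => ?_
  rw [Finsupp.sum_add_index']
  · intro a; simp
  · intro a b₁ b₂; ring

@[simp] theorem beta_zero_left (m : Γ →₀ ZMod 2) : beta ν 0 m = 0 := by
  simp [beta]

@[simp] theorem beta_zero_right (m : Γ →₀ ZMod 2) : beta ν m 0 = 0 := by
  simp [beta]

theorem beta_neg_left (m m' : Γ →₀ ZMod 2) : beta ν (-m) m' = - beta ν m m' := by
  have h := beta_add_left ν m (-m) m'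
  rw [add_neg_cancel, beta_zero_left] at h
  linear_combination -h

theorem beta_neg_right (m m' : Γ →₀ ZMod 2) : beta ν m (-m') = - beta ν m m' := by
  have h := beta_add_right ν m m' (-m')
  rw [add_neg_cancel, beta_zero_right] at h
  linear_combination -h

/-- The left action of `Γ` on `F_2[Γ]` by `g • x = x g⁻¹`. -/
noncomputable def act (g : Γ) (m : Γ →₀ ZMod 2) : Γ →₀ ZMod 2 :=
  m.mapDomain fun x => x * g⁻¹

theorem act_one (m : Γ →₀ ZMod 2) : act 1 m = m := by
  unfold act
  simp only [inv_one, mul_one]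
  exact Finsupp.mapDomain_id

theorem act_mul (g h : Γ) (m : Γ →₀ ZMod 2) : act (g * h) m = act g (act h m) := by
  unfold act
  rw [← Finsupp.mapDomain_comp]
  congr 1
  funext x
  simp [mul_assoc]

theorem act_add (g : Γ) (m m' : Γ →₀ ZMod 2) : act g (m + m') = act g m + act g m' :=
  Finsupp.mapDomain_add

theorem act_single (g x : Γ) (a : ZMod 2) :
    act g (Finsupp.single x a) = Finsupp.single (x * g⁻¹) a :=
  Finsupp.mapDomain_single

theorem beta_act (g : Γ) (m m' : Γ →₀ ZMod 2) : beta ν (act g m) (act g m') = beta ν m m' := by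
  unfold beta act
  rw [Finsupp.sum_mapDomain_index]
  · refine Finsupp.sum_congr fun x _ => ?_
    rw [Finsupp.sum_mapDomain_index]
    · refine Finsupp.sum_congr fun y _ => ?_
      congr 2
      group
    · intro y; simp
    · intro y b₁ b₂; ring
  · intro x; simp
  · intro x b₁ b₂
    rw [← Finsupp.sum_add]
    refine Finsupp.sum_congr fun y _ => ?_
    ring

/-- The symmetrisation of `ν`. -/
def nuS (x : Γ) : ZMod 2 := ν x + ν x⁻¹

theorem nuS_inv (x : Γ) : nuS ν x⁻¹ = nuS ν x := by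
  unfold nuS; rw [inv_inv, add_comm]

/-- Key computation: for `g` satisfying the invariance condition, the commutator form
`B(g • m, m)` only sees the diagonal. -/
theorem beta_comm_act (g : Γ) (m : Γ →₀ ZMod 2)
    (hg : ∀ x y : Γ, nuS ν (x * g⁻¹ * y⁻¹) = nuS ν (x * g * y⁻¹)) :
    beta ν (act g m) m - beta ν m (act g m) = ∑ x ∈ m.support, m x * nuS ν (x * g⁻¹ * x⁻¹) := by
  classical
  have h1 : beta ν (act g m) m = ∑ x ∈ m.support, ∑ y ∈ m.support,
      m x * m y * ν (x * g⁻¹ * y⁻¹) := by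
    unfold beta act
    rw [Finsupp.sum_mapDomain_index]
    · rfl
    · intro x; simp
    · intro x b₁ b₂
      rw [← Finsupp.sum_add]
      refine Finsupp.sum_congr fun y _ => ?_
      ring
  have h2 : beta ν m (act g m) = ∑ x ∈ m.support, ∑ y ∈ m.support,
      m x * m y * ν ((x * g⁻¹ * y⁻¹)⁻¹) := by
    rw [Finset.sum_comm]
    unfold beta act
    rw [Finsupp.sum]
    refine Finset.sum_congr rfl fun x _ => ?_
    rw [Finsupp.sum_mapDomain_index]
    · rw [Finsupp.sum]
      refine Finset.sum_congr rfl fun y _ => ?_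
      rw [mul_comm (m x) (m y)]
      congr 2
      group
    · intro y; simp
    · intro y b₁ b₂; ring
  rw [h1, h2, CharTwo.sub_eq_add, ← Finset.sum_add_distrib]
  have h3 : ∀ x ∈ m.support, (∑ y ∈ m.support, m x * m y * ν (x * g⁻¹ * y⁻¹)) +
      (∑ y ∈ m.support, m x * m y * ν ((x * g⁻¹ * y⁻¹)⁻¹)) =
      ∑ y ∈ m.support, m x * m y * nuS ν (x * g⁻¹ * y⁻¹) := by
    intro x _
    rw [← Finset.sum_add_distrib]
    refine Finset.sum_congr rfl fun y _ => ?_
    unfold nuS
    ring
  rw [Finset.sum_congr rfl h3, sum_sum_symm_two]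
  · refine Finset.sum_congr rfl fun x hx => ?_
    have hmx : m x * m x = m x := by
      have : ∀ a : ZMod 2, a * a = a := by decide
      exact this _
    rw [hmx]
  · intro x y
    have : nuS ν (y * g⁻¹ * x⁻¹) = nuS ν (x * g⁻¹ * y⁻¹) := by
      rw [← nuS_inv, show (y * g⁻¹ * x⁻¹)⁻¹ = x * g * y⁻¹ by group, hg]
    rw [this]; ring

end Beta

/-- The group `H_ν`, a central extension of `F_2[Γ]` by `F_2`. -/
@[ext] structure Heis {Γ : Type*} (ν : Γ → ZMod 2) where
  m : Γ →₀ ZMod 2
  c : ZMod 2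

namespace Heis

variable {Γ : Type*} [Group Γ] {ν : Γ → ZMod 2}

noncomputable instance : Mul (Heis ν) := ⟨fun x y => ⟨x.m + y.m, x.c + y.c + beta ν x.m y.m⟩⟩
noncomputable instance : One (Heis ν) := ⟨⟨0, 0⟩⟩
noncomputable instance : Inv (Heis ν) := ⟨fun x => ⟨-x.m, -x.c + beta ν x.m x.m⟩⟩

@[simp] theorem mul_m (x y : Heis ν) : (x * y).m = x.m + y.m := rfl
@[simp] theorem mul_c (x y : Heis ν) : (x * y).c = x.c + y.c + beta ν x.m y.m := rfl
omit [Group Γ] in
@[simp] theorem one_m : (1 : Heis ν).m = 0 := rfl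
omit [Group Γ] in
@[simp] theorem one_c : (1 : Heis ν).c = 0 := rfl
@[simp] theorem inv_m (x : Heis ν) : (x⁻¹).m = - x.m := rfl
@[simp] theorem inv_c (x : Heis ν) : (x⁻¹).c = - x.c + beta ν x.m x.m := rfl

noncomputable instance : Group (Heis ν) := Group.ofLeftAxioms
  (fun x y z => by
    ext1
    · simp [add_assoc]
    · simp [beta_add_left, beta_add_right]; ring)
  (fun x => by
    ext1
    · simp
    · simp)
  (fun x => by
    ext1
    · simp
    · simp only [mul_c, inv_c, inv_m, one_c, beta_neg_left]; ring)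

theorem comm_eq (x y : Heis ν) : ⁅x, y⁆ = ⟨0, beta ν x.m y.m - beta ν y.m x.m⟩ := by
  rw [commutatorElement_def]
  ext1
  · simp
  · simp only [mul_c, inv_c, mul_m, inv_m, beta_add_left, beta_neg_left, beta_neg_right]
    ring

/-- The action of `Γ` on `H_ν`. -/
noncomputable def actH (ν : Γ → ZMod 2) (g : Γ) (x : Heis ν) : Heis ν := ⟨act g x.m, x.c⟩

@[simp] theorem actH_m (g : Γ) (x : Heis ν) : (actH ν g x).m = act g x.m := rfl
@[simp] theorem actH_c (g : Γ) (x : Heis ν) : (actH ν g x).c = x.c := rfl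

theorem actH_one (x : Heis ν) : actH ν 1 x = x := by
  ext1
  · simp [act_one]
  · rfl

theorem actH_mul (g h : Γ) (x : Heis ν) : actH ν (g * h) x = actH ν g (actH ν h x) := by
  ext1
  · simp [act_mul]
  · rfl

theorem actH_map_mul (g : Γ) (x y : Heis ν) : actH ν g (x * y) = actH ν g x * actH ν g y := by
  ext1
  · simp [act_add]
  · simp [beta_act]

/-- Conjugating does not change commutators in the class two group `H_ν`. -/
theorem comm_conj (b x y : Heis ν) : ⁅b * y * b⁻¹, x⁆ = ⁅y, x⁆ := by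
  have h : (b * y * b⁻¹).m = y.m := by simp
  rw [comm_eq, comm_eq, h]

/-- The commutator of `g • x` and `x` in terms of the diagonal. -/
theorem comm_actH (g : Γ) (x : Heis ν)
    (hg : ∀ x y : Γ, nuS ν (x * g⁻¹ * y⁻¹) = nuS ν (x * g * y⁻¹)) :
    ⁅actH ν g x, x⁆ = ⟨0, ∑ y ∈ x.m.support, x.m y * nuS ν (y * g⁻¹ * y⁻¹)⟩ := by
  rw [comm_eq, actH_m, beta_comm_act ν g x.m hg]

end Heis

end Pool.Agent.Helper95
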