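import Mathlib
import Pool.Agent.Helper95.Heis

set_option autoImplicit false

open scoped commutatorElement

namespace Pool.Agent.Helper95

/-- finitely supported sequences with values in `ZMod 4` -/
abbrev LampE := ℤ →₀ ZMod 4

/-- the shift by `n` -/
noncomputable def shift (n : ℤ) (e : LampE) : LampE := Finsupp.equivMapDomain (Equiv.addRight n) e

@[simp] theorem shift_apply (n : ℤ) (e : LampE) (i : ℤ) : shift n e i = e (i - n) := by
  simp [shift, Finsupp.equivMapDomain_apply, sub_eq_add_neg]

@[simp] theorem shift_zero (e : LampE) : shift 0 e = e := by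
  ext i; simp

theorem shift_shift (n m : ℤ) (e : LampE) : shift n (shift m e) = shift (n + m) e := by
  ext i
  simp only [shift_apply]
  congr 1
  ring

@[simp] theorem shift_add (n : ℤ) (e f : LampE) : shift n (e + f) = shift n e + shift n f := by
  ext i; simp

@[simp] theorem shift_neg (n : ℤ) (e : LampE) : shift n (-e) = - shift n e := by
  ext i; simp

@[simp] theorem shift_zero_right (n : ℤ) : shift n (0 : LampE) = 0 := by
  ext i; simp

/-- The wreath product of `Z/4` by `Z`. -/
@[ext] structure LQ where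
  e : LampE
  n : ℤ

namespace LQ

noncomputable instance : Mul LQ := ⟨fun x y => ⟨x.e + shift x.n y.e, x.n + y.n⟩⟩
noncomputable instance : One LQ := ⟨⟨0, 0⟩⟩
noncomputable instance : Inv LQ := ⟨fun x => ⟨-shift (-x.n) x.e, -x.n⟩⟩

@[simp] theorem mul_e (x y : LQ) : (x * y).e = x.e + shift x.n y.e := rfl
@[simp] theorem mul_n (x y : LQ) : (x * y).n = x.n + y.n := rfl
@[simp] theorem one_e : (1 : LQ).e = 0 := rfl
@[simp] theorem one_n : (1 : LQ).n = 0 := rfl
@[simp] theorem inv_e (x : LQ) : (x⁻¹).e = -shift (-x.n) x.e := rfl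
@[simp] theorem inv_n (x : LQ) : (x⁻¹).n = -x.n := rfl

noncomputable instance : Group LQ := Group.ofLeftAxioms
  (fun x y z => by
    ext1
    · simp [shift_shift, add_assoc]
    · simp [add_assoc])
  (fun x => by
    ext1
    · simp
    · simp)
  (fun x => by
    ext1
    · simp
    · simp)

theorem pow_n (x : LQ) (k : ℕ) : (x ^ k).n = k * x.n := by
  induction k with
  | zero => simp
  | succ k ih => rw [pow_succ, mul_n, ih]; push_cast; ring

/-- the projection to `ℤ` -/
noncomputable def toInt : LQ →* Multiplicative ℤ where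
  toFun x := Multiplicative.ofAdd x.n
  map_one' := rfl
  map_mul' x y := by simp

theorem comm_n (x y : LQ) : (⁅x, y⁆ : LQ).n = 0 := by
  simp [commutatorElement_def]

theorem comm_e (x y : LQ) (hx : x.n = 0) : (⁅x, y⁆ : LQ).e = x.e - shift y.n x.e := by
  simp only [commutatorElement_def, mul_e, mul_n, inv_e, inv_n, hx, shift_neg, shift_shift, shift_zero,
    neg_zero, zero_add, add_zero, add_neg_cancel]
  abel

end LQ

/-- odd elements of `ZMod 4` -/
def od (a : ZMod 4) : Prop := a = 1 ∨ a = 3

instance : DecidablePred od := fun a => by unfold od; infer_instance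

theorem od_neg (a : ZMod 4) : od (-a) ↔ od a := by revert a; decide
theorem od_add_two (a b : ZMod 4) : od (a + 2 * b) ↔ od a := by revert a b; decide
theorem od_sub (a b : ZMod 4) : od (a - b) ↔ ¬ (od a ↔ od b) := by revert a b; decide
theorem od_zero : ¬ od 0 := by decide

/-- The parity pattern `{0, 2}`. -/
def pat (e : LampE) : Prop := ∀ i, od (e i) ↔ (i = 0 ∨ i = 2)

theorem pat_neg (e : LampE) : pat (-e) ↔ pat e := by
  unfold pat; simp [od_neg]

theorem pat_sub_neg (e f : LampE) : pat (e - f) ↔ pat (e + f) := by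
  unfold pat
  refine forall_congr' fun i => ?_
  have : (e + f) i = (e - f) i + 2 * f i := by
    simp only [Finsupp.coe_add, Finsupp.coe_sub, Pi.add_apply, Pi.sub_apply]; ring
  rw [this, od_add_two]

open Classical in
/-- The function `ν`. -/
noncomputable def nu (x : LQ) : ZMod 2 := if x.n = 0 ∧ pat x.e ∧ x.e 0 = 1 then 1 else 0

open Classical in
theorem nuS_nu (x : LQ) : nuS nu x = if x.n = 0 ∧ pat x.e then 1 else 0 := by
  unfold nuS nu
  by_cases hn : x.n = 0
  · by_cases hp : pat x.e
    · have h0 : od (x.e 0) := (hp 0).2 (Or.inl rfl)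
      have hp' : pat (-x.e) := (pat_neg _).2 hp
      rcases h0 with h0 | h0
      · have h1 : ¬ (-x.e) 0 = 1 := by
          rw [Finsupp.neg_apply, h0]; decide
        simp only [hn, hp, h0, LQ.inv_n, LQ.inv_e, neg_zero, shift_zero, hp', h1]
        simp
      · have h1 : (-x.e) 0 = 1 := by
          rw [Finsupp.neg_apply, h0]; decide
        have h2 : ¬ (x.e 0 = 1) := by rw [h0]; decide
        simp only [hn, hp, h2, LQ.inv_n, LQ.inv_e, neg_zero, shift_zero, hp', h1]
        simp
    · have hp' : ¬ pat (-x.e) := by rw [pat_neg]; exact hp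
      simp [hn, hp, hp']
  · simp [hn]

/-- The invariance condition for `g` in the base group. -/
theorem nuS_inv_cond (g : LQ) (hg : g.n = 0) (x y : LQ) :
    nuS nu (x * g⁻¹ * y⁻¹) = nuS nu (x * g * y⁻¹) := by
  rw [nuS_nu, nuS_nu]
  have hn : (x * g⁻¹ * y⁻¹).n = (x * g * y⁻¹).n := by simp [hg]
  have he : pat (x * g⁻¹ * y⁻¹).e ↔ pat (x * g * y⁻¹).e := by
    simp only [LQ.mul_e, LQ.mul_n, LQ.inv_e, LQ.inv_n, hg, neg_zero, shift_zero, shift_neg, add_zero]
    rw [show x.e + -shift x.n g.e + -shift x.n (shift (-y.n) y.e)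
        = (x.e - shift x.n (shift (-y.n) y.e)) - shift x.n g.e by abel,
      show x.e + shift x.n g.e + -shift x.n (shift (-y.n) y.e)
        = (x.e - shift x.n (shift (-y.n) y.e)) + shift x.n g.e by abel]
    exact pat_sub_neg _ _
  have hAB := and_congr (show (x * g⁻¹ * y⁻¹).n = 0 ↔ (x * g * y⁻¹).n = 0 by rw [hn]) he
  by_cases h : (x * g * y⁻¹).n = 0 ∧ pat (x * g * y⁻¹).e
  · rw [if_pos h, if_pos (hAB.2 h)]
  · rw [if_neg h, if_neg (fun h' => h (hAB.1 h'))]

/-- Width argument: `e - shift N e` never has the parity pattern `{j, j + 2}` when `N = 0` or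
`|N| ≥ 3`. -/
theorem width (e : LampE) (N j : ℤ) (hN : N = 0 ∨ 3 ≤ |N|)
    (h : ∀ i, od (e i - e (i - N)) ↔ (i = j ∨ i = j + 2)) : False := by
  classical
  rcases hN with rfl | hN
  · have := (h j).2 (Or.inl rfl)
    simp [od_zero] at this
  · set O : Finset ℤ := e.support.filter fun i => od (e i) with hO
    have memO : ∀ i, i ∈ O ↔ od (e i) := by
      intro i
      rw [hO, Finset.mem_filter, Finsupp.mem_support_iff]
      constructor
      · exact fun h => h.2
      · intro h
        refine ⟨?_, h⟩
        intro h0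
        rw [h0] at h
        exact od_zero h
    have hne : O.Nonempty := by
      by_contra hemp
      rw [Finset.not_nonempty_iff_eq_empty] at hemp
      have hall : ∀ i, ¬ od (e i) := by
        intro i hi
        have := (memO i).2 hi
        rw [hemp] at this
        exact absurd this (Finset.notMem_empty i)
      have := (h j).2 (Or.inl rfl)
      rw [od_sub] at this
      exact this (iff_of_false (hall _) (hall _))
    have hdiff : ∀ i, (¬ (i ∈ O ↔ (i - N) ∈ O)) ↔ (i = j ∨ i = j + 2) := by
      intro i
      rw [← h i, od_sub, memO, memO]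
    have hmin : ∀ i ∈ O, O.min' hne ≤ i := fun i hi => Finset.min'_le _ _ hi
    have hmax : ∀ i ∈ O, i ≤ O.max' hne := fun i hi => Finset.le_max' _ _ hi
    have hminmem := Finset.min'_mem O hne
    have hmaxmem := Finset.max'_mem O hne
    set a := O.min' hne
    set b := O.max' hne
    have hab : a ≤ b := hmin b hmaxmem
    rcases le_or_gt 0 N with hpos | hneg
    · rw [abs_of_nonneg hpos] at hN
      have h1 : a = j ∨ a = j + 2 := by
        rw [← hdiff]
        intro hc
        have := hmin _ (hc.1 hminmem)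
        omega
      have h2 : b + N = j ∨ b + N = j + 2 := by
        rw [← hdiff]
        intro hc
        have h3 : b + N - N ∈ O := by simpa using hmaxmem
        have := hmax _ (hc.2 h3)
        omega
      omega
    · rw [abs_of_neg hneg] at hN
      have h1 : b = j ∨ b = j + 2 := by
        rw [← hdiff]
        intro hc
        have := hmax _ (hc.1 hmaxmem)
        omega
      have h2 : a + N = j ∨ a + N = j + 2 := by
        rw [← hdiff]
        intro hc
        have h3 : a + N - N ∈ O := by simpa using hminmem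
        have := hmin _ (hc.2 h3)
        omega
      omega

/-- Value set condition: conjugates of `[t, s]` with `t` in the base and `s` moving by `0` or at
least `3` never have the pattern. -/
theorem nuS_comm (t s y : LQ) (ht : t.n = 0) (hs : s.n = 0 ∨ 3 ≤ |s.n|) :
    nuS nu (y * (⁅t, s⁆ : LQ)⁻¹ * y⁻¹) = 0 := by
  rw [nuS_nu, if_neg]
  rintro ⟨-, hp⟩
  have hg : (⁅t, s⁆ : LQ).n = 0 := LQ.comm_n t s
  simp only [LQ.mul_e, LQ.mul_n, LQ.inv_e, LQ.inv_n, hg, LQ.comm_e t s ht, neg_zero, shift_zero,
    shift_neg, shift_shift, add_zero, add_neg_cancel] at hp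
  refine width t.e s.n (-y.n) hs ?_
  intro i
  have := hp (i + y.n)
  simp only [Finsupp.coe_add, Finsupp.coe_neg, Finsupp.coe_sub, Pi.add_apply, Pi.neg_apply,
    Pi.sub_apply, shift_apply] at this
  rw [show y.e (i + y.n) + -(t.e (i + y.n - y.n) - t.e (i + y.n - y.n - s.n)) + -y.e (i + y.n)
      = -(t.e i - t.e (i - s.n)) by
        rw [show i + y.n - y.n = i by ring]; ring, od_neg] at this
  rw [this]
  omega

end Pool.Agent.Helper95
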