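import Mathlib
import Pool.Agent.Helper95.Lamp

set_option autoImplicit false

open scoped commutatorElement

namespace Pool.Agent.Helper95

/-- If commutators commute then the second derived subgroup is trivial. -/
theorem derivedSeries_two_eq_bot {K : Type*} [Group K]
    (h : ∀ a b c d : K, ⁅(⁅a, b⁆ : K), (⁅c, d⁆ : K)⁆ = 1) : derivedSeries K 2 = ⊥ := by
  change ⁅derivedSeries K 1, derivedSeries K 1⁆ = ⊥
  rw [derivedSeries_one, commutator_eq_closure, Subgroup.commutator_eq_bot_iff_le_centralizer,
    Subgroup.centralizer_closure, Subgroup.closure_le]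
  rintro x ⟨a, b, rfl⟩
  rw [SetLike.mem_coe, Subgroup.mem_centralizer_iff]
  rintro y ⟨c, d, rfl⟩
  exact (commutatorElement_eq_one_iff_mul_comm.1 (h c d a b))

section BigG

variable (R : Type) [Group R]

/-- The action of `R × LQ` on the functions from `R` to `H_ν`. -/
noncomputable def actHom : R × LQ →* MulAut (R → Heis nu) where
  toFun γ :=
    { toFun := fun f r => Heis.actH nu γ.2 (f (γ.1⁻¹ * r))
      invFun := fun f r => Heis.actH nu γ.2⁻¹ (f (γ.1 * r))
      left_inv := fun f => by
        funext r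
        simp only [inv_mul_cancel_left]
        rw [← Heis.actH_mul, inv_mul_cancel, Heis.actH_one]
      right_inv := fun f => by
        funext r
        simp only [mul_inv_cancel_left]
        rw [← Heis.actH_mul, mul_inv_cancel, Heis.actH_one]
      map_mul' := fun f f' => by
        funext r
        simp only [Pi.mul_apply]
        rw [Heis.actH_map_mul] }
  map_one' := by
    apply MulEquiv.ext
    intro f
    funext r
    change Heis.actH nu (1 : LQ) (f ((1 : R)⁻¹ * r)) = f r
    rw [Heis.actH_one, inv_one, one_mul]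
  map_mul' γ γ' := by
    apply MulEquiv.ext
    intro f
    funext r
    change Heis.actH nu (γ.2 * γ'.2) (f ((γ.1 * γ'.1)⁻¹ * r)) =
      Heis.actH nu γ.2 (Heis.actH nu γ'.2 (f (γ'.1⁻¹ * (γ.1⁻¹ * r))))
    rw [Heis.actH_mul, mul_inv_rev, mul_assoc]

theorem actHom_apply (γ : R × LQ) (f : R → Heis nu) (r : R) :
    actHom R γ f r = Heis.actH nu γ.2 (f (γ.1⁻¹ * r)) := rfl

/-- The witness group. -/
abbrev BigG := (R → Heis nu) ⋊[actHom R] (R × LQ)

variable {R}

theorem conj_right (g h : BigG R) (hh : h.right = 1) : (g * h * g⁻¹).right = 1 := by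
  simp [hh]

theorem conj_left (g h : BigG R) (hh : h.right = 1) (r : R) :
    (g * h * g⁻¹).left r =
      g.left r * Heis.actH nu g.right.2 (h.left (g.right.1⁻¹ * r)) * (g.left r)⁻¹ := by
  have h1 : (g * h * g⁻¹).left =
      g.left * actHom R g.right h.left * actHom R g.right (actHom R g.right⁻¹ g.left⁻¹) := by
    simp only [SemidirectProduct.mul_left, SemidirectProduct.mul_right, hh, mul_one,
      SemidirectProduct.inv_left]
  have h2 : actHom R g.right (actHom R g.right⁻¹ g.left⁻¹) = g.left⁻¹ := by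
    rw [← MulAut.mul_apply, ← map_mul, mul_inv_cancel, map_one, MulAut.one_apply]
  rw [h1, h2]
  rfl

theorem comm_right (g h : BigG R) (hg : g.right = 1) (hh : h.right = 1) :
    (⁅g, h⁆ : BigG R).right = 1 := by
  simp [commutatorElement_def, hg, hh]

theorem comm_left (g h : BigG R) (hg : g.right = 1) (hh : h.right = 1) (r : R) :
    (⁅g, h⁆ : BigG R).left r = ⁅g.left r, h.left r⁆ := by
  have hg' : g = SemidirectProduct.inl g.left := by
    ext1
    · simp
    · simp [hg]
  have hh' : h = SemidirectProduct.inl h.left := by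
    ext1
    · simp
    · simp [hh]
  rw [hg', hh', ← map_commutatorElement]
  rfl

/-- The projections. -/
noncomputable def toR : BigG R →* R := (MonoidHom.fst R LQ).comp SemidirectProduct.rightHom
noncomputable def toLQ : BigG R →* LQ := (MonoidHom.snd R LQ).comp SemidirectProduct.rightHom

theorem toR_apply (x : BigG R) : toR x = x.right.1 := rfl
theorem toLQ_apply (x : BigG R) : toLQ x = x.right.2 := rfl

theorem derivedSeries_LQ_one (x : LQ) (hx : x ∈ derivedSeries LQ 1) : x.n = 0 := by
  have h := map_derivedSeries_le_derivedSeries LQ.toInt 1 (Subgroup.mem_map_of_mem _ hx)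
  have h2 : derivedSeries (Multiplicative ℤ) 1 = ⊥ := by
    rw [derivedSeries_one, commutator_eq_bot_iff_center_eq_top, CommGroup.center_eq_top]
  rw [h2, Subgroup.mem_bot] at h
  have : Multiplicative.ofAdd x.n = 1 := h
  simpa using this

theorem derivedSeries_LQ_two : derivedSeries LQ 2 = ⊥ := by
  apply derivedSeries_two_eq_bot
  intro a b c d
  have h1 := LQ.comm_n a b
  have h2 := LQ.comm_n c d
  ext1
  · rw [LQ.comm_e _ _ h1, h2]; simp
  · rw [LQ.comm_n]; rfl

variable (hR : ∀ a b c : R, ⁅(⁅a, b⁆ : R), c⁆ = 1)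

include hR

theorem derivedSeries_R_one (x : R) (hx : x ∈ derivedSeries R 1) (y : R) : ⁅x, y⁆ = 1 := by
  rw [derivedSeries_one, commutator_eq_closure] at hx
  have h2 : Subgroup.closure {g : R | ∃ g₁ g₂ : R, ⁅g₁, g₂⁆ = g} ≤ Subgroup.center R := by
    rw [Subgroup.closure_le]
    rintro _ ⟨a, b, rfl⟩
    rw [SetLike.mem_coe, Subgroup.mem_center_iff]
    intro c
    exact (commutatorElement_eq_one_iff_mul_comm.1 (hR a b c)).symm
  rw [commutatorElement_eq_one_iff_mul_comm]
  exact ((Subgroup.mem_center_iff.1 (h2 hx)) y).symm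

theorem derivedSeries_R_two : derivedSeries R 2 = ⊥ :=
  derivedSeries_two_eq_bot fun a b _ _ => hR a b _

theorem right_of_mem_two (x : BigG R) (hx : x ∈ derivedSeries (BigG R) 2) : x.right = 1 := by
  have h1 := map_derivedSeries_le_derivedSeries (toR (R := R)) 2 (Subgroup.mem_map_of_mem _ hx)
  have h2 := map_derivedSeries_le_derivedSeries (toLQ (R := R)) 2 (Subgroup.mem_map_of_mem _ hx)
  rw [derivedSeries_R_two hR, Subgroup.mem_bot, toR_apply] at h1
  rw [derivedSeries_LQ_two, Subgroup.mem_bot, toLQ_apply] at h2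
  exact Prod.ext h1 h2

/-- The laws of the witness group. -/
theorem law (h t s : BigG R) (hh : h ∈ derivedSeries (BigG R) 2) (ht : t ∈ derivedSeries (BigG R) 1)
    (k : ℕ) (hk : 3 ≤ k) :
    ⁅(⁅t, s ^ k⁆ : BigG R) * h * (⁅t, s ^ k⁆ : BigG R)⁻¹, h⁆ = 1 := by
  have hr := right_of_mem_two hR h hh
  have ht1 : t.right.1 ∈ derivedSeries R 1 :=
    map_derivedSeries_le_derivedSeries (toR (R := R)) 1 (Subgroup.mem_map_of_mem _ ht)
  have ht2 : t.right.2.n = 0 := derivedSeries_LQ_one _
    (map_derivedSeries_le_derivedSeries (toLQ (R := R)) 1 (Subgroup.mem_map_of_mem _ ht))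
  set g : BigG R := ⁅t, s ^ k⁆ with hg
  have hg1 : g.right.1 = 1 := by
    have : toR g = ⁅toR t, toR (s ^ k)⁆ := map_commutatorElement _ _ _
    rw [toR_apply, toR_apply, derivedSeries_R_one hR _ ht1] at this
    exact this
  have hg2 : g.right.2 = ⁅t.right.2, s.right.2 ^ k⁆ := by
    have : toLQ g = ⁅toLQ t, toLQ (s ^ k)⁆ := map_commutatorElement _ _ _
    rw [map_pow] at this
    exact this
  have hgn : g.right.2.n = 0 := by rw [hg2, LQ.comm_n]
  have hkn : (s.right.2 ^ k).n = 0 ∨ 3 ≤ |(s.right.2 ^ k).n| := by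
    rw [LQ.pow_n]
    rcases eq_or_ne s.right.2.n 0 with h0 | h0
    · left; rw [h0, mul_zero]
    · right
      rw [abs_mul]
      have h1 : (1 : ℤ) ≤ |s.right.2.n| := Int.one_le_abs h0
      have h2 : (3 : ℤ) ≤ |(k : ℤ)| := by
        rw [abs_of_nonneg (by positivity)]; exact_mod_cast hk
      nlinarith
  apply SemidirectProduct.ext
  · funext r
    rw [comm_left _ _ (conj_right g h hr) hr, conj_left g h hr, Heis.comm_conj, hg1, inv_one,
      one_mul, Heis.comm_actH _ _ (nuS_inv_cond _ hgn)]
    apply Heis.ext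
    · rfl
    · change ∑ y ∈ (h.left r).m.support, (h.left r).m y * nuS nu (y * g.right.2⁻¹ * y⁻¹) = 0
      refine Finset.sum_eq_zero fun y _ => ?_
      rw [hg2, nuS_comm _ _ _ ht2 hkn, mul_zero]
  · rw [comm_right _ _ (conj_right g h hr) hr]
    rfl

/-- The witness group is soluble of derived length at most four. -/
theorem derivedSeries_four : derivedSeries (BigG R) 4 = ⊥ := by
  have h3 : ∀ x ∈ derivedSeries (BigG R) 3, x.right = 1 ∧ ∀ r, (x.left r).m = 0 := by
    let K : Subgroup (BigG R) :=
      { carrier := {x | x.right = 1 ∧ ∀ r, (x.left r).m = 0}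
        mul_mem' := by
          rintro a b ⟨ha, ha'⟩ ⟨hb, hb'⟩
          refine ⟨by simp [ha, hb], fun r => ?_⟩
          simp [ha, ha', hb']
        one_mem' := ⟨rfl, fun r => rfl⟩
        inv_mem' := by
          rintro a ⟨ha, ha'⟩
          refine ⟨by simp [ha], fun r => ?_⟩
          simp [ha, ha'] }
    have : derivedSeries (BigG R) 3 ≤ K := by
      rw [derivedSeries_succ, Subgroup.commutator_le]
      intro a ha b hb
      have ha := right_of_mem_two hR a ha
      have hb := right_of_mem_two hR b hb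
      refine ⟨comm_right a b ha hb, fun r => ?_⟩
      rw [comm_left a b ha hb, Heis.comm_eq]
    intro x hx
    exact this hx
  rw [derivedSeries_succ, eq_bot_iff, Subgroup.commutator_le]
  intro a ha b hb
  obtain ⟨ha, ha'⟩ := h3 a ha
  obtain ⟨hb, hb'⟩ := h3 b hb
  rw [Subgroup.mem_bot]
  apply SemidirectProduct.ext
  · funext r
    rw [comm_left a b ha hb, Heis.comm_eq, ha', hb']
    simp
    rfl
  · exact comm_right a b ha hb

end BigG

end Pool.Agent.Helper95
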