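import Pool.Agent.Helper95.IotaL

set_option autoImplicit false

namespace Pool.Agent.Helper95.Iota

open Metric Set
open scoped NNReal ENNReal

section

variable {X Y : Type*} [NormedAddCommGroup X] [NormedSpace ℂ X] [CompleteSpace X]
  [NormedAddCommGroup Y] [NormedSpace ℂ Y] [CompleteSpace Y]

variable {x : X} {y : Y} {φ : (X →L[ℂ] X) ≃ (Y →L[ℂ] Y)}

/-- Step 4a -/
theorem Setup.exists_pre (S : Setup x y φ) (A : X →L[ℂ] X) {b : Y} (hb : b ≠ 0) :
    ∃ a : X, a ≠ 0 ∧ ∀ f : X →L[ℂ] ℂ, S.symm.τ (S.L A f b) = f a := by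
  obtain ⟨B, hB1, hB2⟩ := S.symm.exists_good_vector (φ A) hb
  obtain ⟨a, -, h2, -⟩ := S.symm.H4 hB1 hB2
  have h3 : ∀ f : X →L[ℂ] ℂ, S.symm.τ (S.L A f b) = f a := by
    intro f
    rw [← h2, S.L_symm_L]
  refine ⟨a, ?_, h3⟩
  rintro rfl
  obtain ⟨g, hg⟩ := SeparatingDual.exists_eq_one (R := ℂ) hb
  obtain ⟨f, rfl⟩ := S.L_surjective A g
  have := h3 f
  rw [hg, map_one, map_zero] at this
  exact one_ne_zero this

theorem Setup.L_add (S : Setup x y φ) (A : X →L[ℂ] X) (f g : X →L[ℂ] ℂ) :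
    S.L A (f + g) = S.L A f + S.L A g := by
  ext b
  by_cases hb : b = 0
  · rw [hb]; simp
  obtain ⟨a, -, h⟩ := S.exists_pre A hb
  apply S.symm.τ.injective
  rw [h]
  show f a + g a = S.symm.τ (S.L A f b + S.L A g b)
  rw [map_add, h, h]

theorem Setup.τ_symm_τ (S : Setup x y φ) (c : ℂ) : S.symm.τ (S.τ c) = c := by
  obtain ⟨a, ha, h⟩ := S.exists_pre 0 S.hy
  obtain ⟨e, he, hex⟩ := SeparatingDual.exists_eq_one_ne_zero_of_ne_zero_pair (R := ℂ) ha S.hx
  have h1 := h (c • e)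
  rw [S.L_smul_of_ne 0 hex, S.lam_eq_τ] at h1
  have h2 : S.symm.τ (S.τ c * S.L 0 e y) = c * e a := h1
  rw [map_mul, h, he, mul_one, mul_one] at h2
  exact h2

theorem Setup.τ_τ_symm (S : Setup x y φ) (c : ℂ) : S.τ (S.symm.τ c) = c := S.symm.τ_symm_τ c

theorem Setup.L_smul (S : Setup x y φ) (A : X →L[ℂ] X) (c : ℂ) (f : X →L[ℂ] ℂ) :
    S.L A (c • f) = S.τ c • S.L A f := by
  ext b
  by_cases hb : b = 0
  · rw [hb]; simp
  obtain ⟨a, -, h⟩ := S.exists_pre A hb
  apply S.symm.τ.injective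
  rw [h]
  show c * f a = S.symm.τ (S.τ c * S.L A f b)
  rw [map_mul, h, S.τ_symm_τ]

theorem Setup.L_neg (S : Setup x y φ) (A : X →L[ℂ] X) (f : X →L[ℂ] ℂ) :
    S.L A (-f) = - S.L A f := by
  rw [← neg_one_smul ℂ f, S.L_smul, map_neg, map_one, neg_one_smul ℂ (S.L A f)]

theorem Setup.L_sub (S : Setup x y φ) (A : X →L[ℂ] X) (f g : X →L[ℂ] ℂ) :
    S.L A (f - g) = S.L A f - S.L A g := by
  rw [sub_eq_add_neg, S.L_add, S.L_neg, ← sub_eq_add_neg]

/-- Step 4b -/
theorem Setup.exists_pre' (S : Setup x y φ) (A : X →L[ℂ] X) (b : Y) :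
    ∃ a : X, ∀ f : X →L[ℂ] ℂ, S.L A f b = S.τ (f a) := by
  by_cases hb : b = 0
  · exact ⟨0, fun f => by rw [hb]; simp⟩
  obtain ⟨a, -, h⟩ := S.exists_pre A hb
  exact ⟨a, fun f => by rw [← h, S.τ_τ_symm]⟩

theorem Setup.exists_A (S : Setup x y φ) (A : X →L[ℂ] X) (a : X) :
    ∃ b : Y, ∀ f : X →L[ℂ] ℂ, S.L A f b = S.τ (f a) := by
  by_cases ha : a = 0
  · exact ⟨0, fun f => by rw [ha]; simp⟩
  obtain ⟨B, hB1, hB2⟩ := S.exists_good_vector A ha
  obtain ⟨a', -, h, -⟩ := S.H4 hB1 hB2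
  exact ⟨a', h⟩

/-- the map `A_T` -/
noncomputable def Setup.AT (S : Setup x y φ) (A : X →L[ℂ] X) (a : X) : Y :=
  Classical.choose (S.exists_A A a)

theorem Setup.AT_spec (S : Setup x y φ) (A : X →L[ℂ] X) (a : X) (f : X →L[ℂ] ℂ) :
    S.L A f (S.AT A a) = S.τ (f a) :=
  Classical.choose_spec (S.exists_A A a) f

theorem Setup.AT_unique (S : Setup x y φ) {A : X →L[ℂ] X} {a : X} {b : Y}
    (h : ∀ f : X →L[ℂ] ℂ, S.L A f b = S.τ (f a)) : S.AT A a = b := by
  rw [SeparatingDual.eq_iff_forall_dual_eq (R := ℂ)]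
  intro g
  obtain ⟨f, rfl⟩ := S.L_surjective A g
  rw [S.AT_spec, h]

theorem Setup.AT_add (S : Setup x y φ) (A : X →L[ℂ] X) (a b : X) :
    S.AT A (a + b) = S.AT A a + S.AT A b := by
  apply S.AT_unique
  intro f
  rw [map_add, map_add, map_add, S.AT_spec, S.AT_spec]

theorem Setup.AT_smul (S : Setup x y φ) (A : X →L[ℂ] X) (c : ℂ) (a : X) :
    S.AT A (c • a) = S.τ c • S.AT A a := by
  apply S.AT_unique
  intro f
  rw [map_smul, map_smul, smul_eq_mul, smul_eq_mul, map_mul, S.AT_spec]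

theorem Setup.AT_zero (S : Setup x y φ) (A : X →L[ℂ] X) : S.AT A 0 = 0 := by
  apply S.AT_unique
  intro f
  simp

theorem Setup.AT_neg (S : Setup x y φ) (A : X →L[ℂ] X) (a : X) : S.AT A (-a) = - S.AT A a := by
  rw [← neg_one_smul ℂ a, S.AT_smul, map_neg, map_one, neg_one_smul]

theorem Setup.AT_sub (S : Setup x y φ) (A : X →L[ℂ] X) (a b : X) :
    S.AT A (a - b) = S.AT A a - S.AT A b := by
  rw [sub_eq_add_neg, S.AT_add, S.AT_neg, ← sub_eq_add_neg]

theorem Setup.AT_injective (S : Setup x y φ) (A : X →L[ℂ] X) : Function.Injective (S.AT A) := by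
  intro a b h
  rw [SeparatingDual.eq_iff_forall_dual_eq (R := ℂ)]
  intro f
  apply S.τ.injective
  rw [← S.AT_spec A a, ← S.AT_spec A b, h]

theorem Setup.AT_surjective (S : Setup x y φ) (A : X →L[ℂ] X) : Function.Surjective (S.AT A) := by
  intro b
  obtain ⟨a, ha⟩ := S.exists_pre' A b
  exact ⟨a, S.AT_unique ha⟩

/-- Step 5a / 6a for units -/
theorem Setup.unit_case (S : Setup x y φ) {A B : X →L[ℂ] X} (hu : IsUnit (A - B)) {a : X} {c : ℂ}
    (hc : c ≠ 0) (ha : (A - B) a = c • x) :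
    S.AT A a = S.AT B a ∧ (φ A - φ B) (S.AT A a) = S.τ c • y := by
  have h1 : (A - B) (c⁻¹ • a) = x := by
    rw [map_smul, ha, smul_smul, inv_mul_cancel₀ hc, one_smul]
  obtain ⟨a', h2, h3, h4⟩ := S.H4 hu h1
  have h5 := S.AT_unique h3
  have h6 := S.AT_unique h4
  have h7 : a = c • (c⁻¹ • a) := by rw [smul_smul, mul_inv_cancel₀ hc, one_smul]
  constructor
  · rw [h7, S.AT_smul A c (c⁻¹ • a), S.AT_smul B c (c⁻¹ • a), h5, h6]
  · rw [h7, S.AT_smul A c (c⁻¹ • a), h5, map_smul, h2]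

omit [CompleteSpace X] in
theorem exists_two_avoid (c : ℂ) : ∃ c1 : ℂ, c1 ≠ 0 ∧ c1 ≠ c := by
  obtain ⟨t, ht⟩ := Infinite.exists_notMem_finset ({0, c} : Finset ℂ)
  simp only [Finset.mem_insert, Finset.mem_singleton, not_or] at ht
  exact ⟨t, ht⟩

/-- the chain lemma -/
theorem chain (hx : x ≠ 0) (R : X →L[ℂ] X) {a : X} (ha : a ≠ 0) {c : ℂ} (hR : R a = c • x) :
    ∃ (R1 : X →L[ℂ] X) (c1 : ℂ), IsUnit R1 ∧ IsUnit (R - R1) ∧ R1 a = c1 • x ∧ c1 ≠ 0 ∧
      c - c1 ≠ 0 := by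
  obtain ⟨κ, hκ, hκu, -⟩ := exists_scalar R R hx
  obtain ⟨c1, hc1, hc1'⟩ := exists_two_avoid c
  obtain ⟨p, hp⟩ := isUnit_surjective hκu x
  have hp0 : p ≠ 0 := ne_zero_of_apply hx hp
  obtain ⟨e, hea, hex, hep⟩ := exists_three ha hx hp0
  refine ⟨κ • (1 : X →L[ℂ] X) + rk (c1 • x - κ • a) e, c1, ?_, ?_, ?_, hc1, ?_⟩
  · have h1 : κ • (1 : X →L[ℂ] X) + rk (c1 • x - κ • a) e
        = κ • (1 + rk (κ⁻¹ • (c1 • x - κ • a)) e) := by
      rw [smul_add, rk_smul_left, smul_smul, mul_inv_cancel₀ hκ, one_smul]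
    rw [h1]
    have h2 : IsUnit (1 + rk (κ⁻¹ • (c1 • x - κ • a)) e) := by
      apply isUnit_one_add_rk
      rw [map_smul, map_sub, map_smul, map_smul, hea]
      simp only [smul_eq_mul, mul_one]
      have : 1 + κ⁻¹ * (c1 * e x - κ) = κ⁻¹ * (c1 * e x) := by field_simp; ring
      rw [this]
      exact mul_ne_zero (inv_ne_zero hκ) (mul_ne_zero hc1 hex)
    exact (Units.mk0 κ hκ • h2.unit).isUnit
  · -- `R - R1 = (R - κ) (1 - (R-κ)⁻¹ (c1 x - κ a) ⊗ e)`
    have h3 : (R - κ • (1 : X →L[ℂ] X)) (a + (c1 - c) • p) = c1 • x - κ • a := by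
      rw [map_add, map_smul, hp, sub_apply, hR]
      show c • x - κ • a + (c1 - c) • x = _
      module
    have h1 : R - (κ • (1 : X →L[ℂ] X) + rk (c1 • x - κ • a) e)
        = (R - κ • (1 : X →L[ℂ] X)) * (1 + rk (-(a + (c1 - c) • p)) e) := by
      ext v
      show R v - (κ • v + e v • (c1 • x - κ • a))
        = (R - κ • (1 : X →L[ℂ] X)) (v + e v • (-(a + (c1 - c) • p)))
      rw [map_add, map_smul, map_neg, h3]
      show R v - (κ • v + e v • (c1 • x - κ • a)) = (R v - κ • v) + e v • (-(c1 • x - κ • a))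
      module
    rw [h1]
    refine hκu.mul (isUnit_one_add_rk ?_)
    rw [map_neg, map_add, map_smul, hea, smul_eq_mul]
    have : 1 + -(1 + (c1 - c) * e p) = -((c1 - c) * e p) := by ring
    rw [this]
    exact neg_ne_zero.mpr (mul_ne_zero (sub_ne_zero.mpr hc1') hep)
  · show κ • a + e a • (c1 • x - κ • a) = c1 • x
    rw [hea]; module
  · intro h
    exact hc1' (sub_eq_zero.mp h).symm

/-- Step 5b / 6b -/
theorem Setup.combined (S : Setup x y φ) {A B : X →L[ℂ] X} {a : X} {c : ℂ}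
    (ha : (A - B) a = c • x) :
    S.AT A a = S.AT B a ∧ (φ A - φ B) (S.AT A a) = S.τ c • y := by
  by_cases ha0 : a = 0
  · subst ha0
    rw [map_zero] at ha
    have hc : c = 0 := by
      rcases smul_eq_zero.mp ha.symm with h | h
      · exact h
      · exact absurd h S.hx
    rw [S.AT_zero, S.AT_zero, hc]
    simp
  obtain ⟨R1, c1, h1, h2, h3, h4, h5⟩ := chain S.hx (A - B) ha0 ha
  obtain ⟨k1, k2⟩ := S.unit_case (A := A) (B := A - R1) (a := a) (by simpa using h1) h4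
    (by simpa using h3)
  have e1 : A - R1 - B = A - B - R1 := by abel
  obtain ⟨k3, k4⟩ := S.unit_case (A := A - R1) (B := B) (a := a) (by rw [e1]; exact h2) h5
    (by rw [e1, sub_apply, ha, h3, sub_smul])
  refine ⟨k1.trans k3, ?_⟩
  have e2 : φ A - φ B = (φ A - φ (A - R1)) + (φ (A - R1) - φ B) := by abel
  rw [e2, add_apply, k2, k1, k4, ← add_smul, ← map_add]
  congr 2
  ring

/-- Step 5c, transversal case -/
theorem Setup.AT_rk_aux (S : Setup x y φ) (B : X →L[ℂ] X) (w : X) {l : X →L[ℂ] ℂ}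
    (hl : l x ≠ 0) (v : X) : S.AT (B + rk w l) v = S.AT B v := by
  by_cases hw : ∃ c : ℂ, w = c • x
  · obtain ⟨c, rfl⟩ := hw
    refine (S.combined (c := l v * c) ?_).1
    rw [add_sub_cancel_left, rk_apply, smul_smul]
  push Not at hw
  by_contra hne
  obtain ⟨A, hA⟩ : ∃ A, A = B + rk w l := ⟨_, rfl⟩
  rw [← hA] at hne
  have hAB : A - B = rk w l := by rw [hA, add_sub_cancel_left]
  have hker : ∀ u, l u = 0 → S.AT A u = S.AT B u := by
    intro u hu
    refine (S.combined (c := 0) ?_).1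
    rw [hAB, rk_apply, hu, zero_smul, zero_smul]
  have hlv : l v ≠ 0 := fun h => hne (hker v h)
  obtain ⟨v0, hv0⟩ : ∃ v0, v0 = (l v)⁻¹ • v := ⟨_, rfl⟩
  have hlv0 : l v0 = 1 := by rw [hv0]; simp [hlv]
  obtain ⟨z, hz⟩ : ∃ z, z = S.AT A v0 - S.AT B v0 := ⟨_, rfl⟩
  have hz0 : z ≠ 0 := by
    rw [hz, hv0, S.AT_smul, S.AT_smul, ← smul_sub]
    refine smul_ne_zero ?_ (sub_ne_zero.mpr hne)
    rw [map_ne_zero]
    exact inv_ne_zero hlv
  have hform : ∀ u, S.AT A u = S.AT B u + S.τ (l u) • z := by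
    intro u
    have h1 := hker (u - l u • v0) (by simp [hlv0])
    rw [S.AT_sub, S.AT_sub, S.AT_smul, S.AT_smul] at h1
    rw [hz, smul_sub, ← sub_eq_zero]
    rw [← sub_eq_zero] at h1
    rw [← h1]
    abel
  -- the function `F`
  have hF : ∀ f g : X →L[ℂ] ℂ, innerRadius (rk w l + rk x (f - g)) x
      = innerRadius (φ A - φ B + rk y (S.L A f - S.L B g)) y := by
    intro f g
    have h1 := S.pres (A + rk x f) (B + rk x g)
    have e1 : A + rk x f - (B + rk x g) = rk w l + rk x (f - g) := by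
      rw [rk_sub, ← hAB]; abel
    have e2 : φ (A + rk x f) - φ (B + rk x g) = φ A - φ B + rk y (S.L A f - S.L B g) := by
      rw [S.L_spec, S.L_spec, rk_sub]; abel
    rw [e1, e2] at h1
    exact h1.symm
  have hF' : ∀ h : X →L[ℂ] ℂ, innerRadius (rk w l + rk x h) x
      = innerRadius (φ A - φ B + rk y (S.L B h)) y := by
    intro h
    have := hF 0 (-h)
    rw [S.L_zero, S.L_neg, zero_sub, zero_sub, neg_neg, neg_neg] at this
    exact this
  have hinv : ∀ (c : ℂ) (h : X →L[ℂ] ℂ),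
      innerRadius (rk w l + rk x (h + c • l)) x = innerRadius (rk w l + rk x h) x := by
    intro c h
    obtain ⟨m0, hm0⟩ := SeparatingDual.exists_eq_one (R := ℂ) hz0
    obtain ⟨f, hf⟩ := S.L_surjective A (-(S.τ c) • m0)
    obtain ⟨k, hk⟩ := S.L_surjective B (-(S.τ c) • m0)
    have hmz : S.L A f z = -(S.τ c) := by
      rw [hf]
      show -(S.τ c) * m0 z = _
      rw [hm0, mul_one]
    have hkf : k = f + c • l := by
      ext u
      apply S.τ.injective
      have h1 : S.L B k (S.AT A u) = S.L A f (S.AT A u) := by rw [hk, hf]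
      rw [S.AT_spec, hform, map_add, S.AT_spec, map_smul, hk, ← hf, hmz, smul_eq_mul] at h1
      show S.τ (k u) = S.τ (f u + c * l u)
      rw [map_add, map_mul]
      linear_combination h1
    have h2 := hF f (f - h)
    have h3 := hF' (k - (f - h))
    rw [S.L_sub, hk, ← hf, ← h2] at h3
    have e1 : k - (f - h) = h + c • l := by rw [hkf]; abel
    have e2 : f - (f - h) = h := by abel
    rw [e1, e2] at h3
    exact h3
  -- explicit contradiction
  obtain ⟨h, hh1, hh2⟩ := exists_pair S.hx hw (-(l w)) ((1 - l w ^ 2) / l x)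
  have k1 : 1 ≤ innerRadius (rk w l + rk x h) x := by
    apply one_le_innerRadius
    show l (l x • w + h x • x) • w + h (l x • w + h x • x) • x = x
    rw [map_add, map_smul, map_smul, map_add, map_smul, map_smul, hh1, hh2]
    simp only [smul_eq_mul]
    have e1 : l x * l w + -l w * l x = 0 := by ring
    have e2 : l x * ((1 - l w ^ 2) / l x) + -l w * -l w = 1 := by field_simp; ring
    rw [e1, e2, zero_smul, one_smul, zero_add]
  have k2 : innerRadius (rk w l + rk x (h + (-(3 / (2 * l x))) • l)) x ≤ ‖(1 / 2 : ℂ)‖₊ := by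
    obtain ⟨h', hh'⟩ : ∃ h', h' = h + (-(3 / (2 * l x))) • l := ⟨_, rfl⟩
    rw [← hh']
    have hp : h' x = -(l w) - 3 / 2 := by
      rw [hh']
      show h x + -(3 / (2 * l x)) * l x = _
      rw [hh1]; field_simp
      try ring
    have hq : h' w = (1 - l w ^ 2) / l x - 3 / (2 * l x) * l w := by
      rw [hh']
      show h w + -(3 / (2 * l x)) * l w = _
      rw [hh2]; ring
    refine innerRadius_le_of_left_eigen ((1 / 2 - h' x) • l + l x • h') (1 / 2) ?_ ?_
    · intro u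
      show (1 / 2 - h' x) * l (l u • w + h' u • x) + l x * h' (l u • w + h' u • x)
        = 1 / 2 * ((1 / 2 - h' x) * l u + l x * h' u)
      rw [map_add, map_smul, map_smul, map_add, map_smul, map_smul, hp, hq]
      simp only [smul_eq_mul]
      field_simp
      ring
    · show (1 / 2 - h' x) * l x + l x * h' x ≠ 0
      have : (1 / 2 - h' x) * l x + l x * h' x = l x / 2 := by ring
      rw [this]
      exact div_ne_zero hl two_ne_zero
  rw [hinv] at k2
  have k3 := k1.trans k2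
  have k4 : (1 : ℝ≥0) ≤ ‖(1 / 2 : ℂ)‖₊ := by exact_mod_cast k3
  have k5 : (1 : ℝ) ≤ ‖(1 / 2 : ℂ)‖ := by exact_mod_cast k4
  norm_num at k5

/-- Step 5c -/
theorem Setup.AT_rk (S : Setup x y φ) (B : X →L[ℂ] X) (w : X) (l : X →L[ℂ] ℂ) (v : X) :
    S.AT (B + rk w l) v = S.AT B v := by
  by_cases hl : l x = 0
  · have e1 : B + rk w l = (B + rk w (l + S.e0)) + rk w (-S.e0) := by
      rw [rk_add, rk_neg]; abel
    rw [e1, S.AT_rk_aux _ _ (by simpa using S.e0_ne), S.AT_rk_aux _ _ (by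
      rw [add_apply, hl, zero_add]; exact S.e0_ne)]
  · exact S.AT_rk_aux B w hl v

/-- Step 5d -/
theorem Setup.AT_const (S : Setup x y φ) (A B : X →L[ℂ] X) (v : X) : S.AT A v = S.AT B v := by
  by_cases hv : v = 0
  · rw [hv, S.AT_zero, S.AT_zero]
  obtain ⟨e, he⟩ := SeparatingDual.exists_eq_one (R := ℂ) hv
  have h1 : S.AT A v = S.AT (B + rk ((A - B) v) e) v := by
    refine (S.combined (c := 0) ?_).1
    show A v - (B v + e v • (A v - B v)) = (0 : ℂ) • x
    rw [he, zero_smul, one_smul]; abel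
  rw [h1, S.AT_rk]

end

end Pool.Agent.Helper95.Iota
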