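import Pool.Agent.Helper95.IotaA

set_option autoImplicit false

namespace Pool.Agent.Helper95.Iota

open Metric Set
open scoped NNReal ENNReal

section

variable {X Y : Type*} [NormedAddCommGroup X] [NormedSpace ℂ X] [CompleteSpace X]
  [NormedAddCommGroup Y] [NormedSpace ℂ Y] [CompleteSpace Y]

variable {x : X} {y : Y} {φ : (X →L[ℂ] X) ≃ (Y →L[ℂ] Y)}

/-- the operator `A` -/
noncomputable def Setup.U (S : Setup x y φ) (a : X) : Y := S.AT 0 a

/-- the map on functionals -/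
noncomputable def Setup.M (S : Setup x y φ) (f : X →L[ℂ] ℂ) : Y →L[ℂ] ℂ := S.L 0 f

theorem Setup.M_U (S : Setup x y φ) (f : X →L[ℂ] ℂ) (a : X) : S.M f (S.U a) = S.τ (f a) :=
  S.AT_spec 0 a f

theorem Setup.M_surjective (S : Setup x y φ) : Function.Surjective S.M := S.L_surjective 0

theorem Setup.U_surjective (S : Setup x y φ) : Function.Surjective S.U := S.AT_surjective 0

theorem Setup.U_injective (S : Setup x y φ) : Function.Injective S.U := S.AT_injective 0

theorem Setup.U_add (S : Setup x y φ) (a b : X) : S.U (a + b) = S.U a + S.U b := S.AT_add 0 a b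

theorem Setup.U_smul (S : Setup x y φ) (c : ℂ) (a : X) : S.U (c • a) = S.τ c • S.U a :=
  S.AT_smul 0 c a

theorem Setup.U_zero (S : Setup x y φ) : S.U 0 = 0 := S.AT_zero 0

theorem Setup.diff (S : Setup x y φ) {A B : X →L[ℂ] X} {a : X} {c : ℂ}
    (ha : (A - B) a = c • x) : φ A (S.U a) - φ B (S.U a) = S.τ c • y := by
  have := (S.combined ha).2
  rw [S.AT_const A 0] at this
  exact this

theorem Setup.eq_of_apply_eq (S : Setup x y φ) {A B : X →L[ℂ] X} {a : X}
    (ha : A a = B a) : φ A (S.U a) = φ B (S.U a) := by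
  have := S.diff (A := A) (B := B) (a := a) (c := 0) (by rw [sub_apply, ha, sub_self, zero_smul])
  rw [map_zero, zero_smul] at this
  exact sub_eq_zero.mp this

theorem Setup.apply_zero (S : Setup x y φ) {A : X →L[ℂ] X} {a : X}
    (ha : A a = 0) : φ A (S.U a) = 0 := by
  rw [S.eq_of_apply_eq (A := A) (B := 0) (by rw [ha]; rfl), S.zero]; rfl

/-- `y` is a multiple of `U x` by a scalar of modulus one -/
theorem Setup.exists_alpha (S : Setup x y φ) : ∃ α : ℂ, ‖α‖ = 1 ∧ y = α • S.U x := by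
  have hUx : S.U x ≠ 0 := by
    intro h
    exact S.hx (S.U_injective (h.trans S.U_zero.symm))
  have key : ∀ g : Y →L[ℂ] ℂ, ‖g y‖ = ‖g (S.U x)‖ := by
    intro g
    obtain ⟨f, rfl⟩ := S.M_surjective g
    rw [S.M_U, S.τ_norm]
    exact S.L_norm 0 f
  have h1 : ∃ α : ℂ, y = α • S.U x := by
    by_contra hc
    push Not at hc
    obtain ⟨g, hg1, hg2⟩ := exists_pair hUx hc 0 1
    have := key g
    rw [hg1, hg2] at this
    simp at this
  obtain ⟨α, hα⟩ := h1
  refine ⟨α, ?_, hα⟩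
  obtain ⟨g, hg⟩ := SeparatingDual.exists_eq_one (R := ℂ) hUx
  have h2 : ‖g y‖ = ‖α * g (S.U x)‖ := by
    rw [← smul_eq_mul, ← map_smul]
    exact congrArg (fun t => ‖g t‖) hα
  rw [key g, hg] at h2
  simpa using h2.symm

/-- the map `B` -/
noncomputable def Setup.V (S : Setup x y φ) (w : X) : Y := φ (rk w S.e0) (S.U x)

theorem Setup.V_eq (S : Setup x y φ) {T : X →L[ℂ] X} {w : X} (h : T x = w) :
    φ T (S.U x) = S.V w := by
  apply S.eq_of_apply_eq
  rw [h, rk_apply, S.e0_apply, one_smul]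

theorem Setup.V_zero (S : Setup x y φ) : S.V 0 = 0 := by
  apply S.apply_zero
  rw [rk_apply, smul_zero]

/-- for `a` independent of `x` -/
theorem Setup.V_eq_of_ind (S : Setup x y φ) {a : X} (ha : ∀ c : ℂ, a ≠ c • x) (T : X →L[ℂ] X) :
    φ T (S.U a) = S.V (T a) := by
  obtain ⟨e1, h1x, h1a⟩ := exists_pair S.hx ha 0 1
  obtain ⟨e2, h2x, h2a⟩ := exists_pair S.hx ha 1 0
  have k1 : φ T (S.U a) = φ (rk (T a) e1) (S.U a) :=
    S.eq_of_apply_eq (by rw [rk_apply, h1a, one_smul])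
  have k2 : φ (rk (T a) e1) (S.U x) = 0 := S.apply_zero (by rw [rk_apply, h1x, zero_smul])
  have k3 : φ (rk (T a) e1) (S.U (a + x)) = φ (rk (T a) e2) (S.U (a + x)) := by
    apply S.eq_of_apply_eq
    rw [rk_apply, rk_apply, map_add, map_add, h1a, h1x, h2a, h2x, add_zero, zero_add]
  have k4 : φ (rk (T a) e2) (S.U a) = 0 := S.apply_zero (by rw [rk_apply, h2a, zero_smul])
  have k5 : φ (rk (T a) e2) (S.U x) = S.V (T a) := S.V_eq (by rw [rk_apply, h2x, one_smul])
  rw [S.U_add, map_add, map_add, k2, k4, k5, add_zero, zero_add] at k3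
  rw [k1, k3]

theorem Setup.V_smul (S : Setup x y φ) (c : ℂ) (w : X) : S.V (c • w) = S.τ c • S.V w := by
  obtain ⟨v, hv⟩ := S.dimX
  by_cases hc : c = 0
  · rw [hc, zero_smul, S.V_zero, map_zero, zero_smul]
  have hcv : ∀ d : ℂ, c • v ≠ d • x := by
    intro d h
    apply hv (c⁻¹ * d)
    rw [mul_smul, ← h, smul_smul, inv_mul_cancel₀ hc, one_smul]
  obtain ⟨e1, -, h1v⟩ := exists_pair S.hx hv 0 1
  have k1 := S.V_eq_of_ind hv (rk w e1)
  have k2 := S.V_eq_of_ind hcv (rk w e1)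
  rw [rk_apply, h1v, one_smul] at k1
  rw [rk_apply, map_smul, h1v, S.U_smul, map_smul, k1, smul_eq_mul, mul_one] at k2
  exact k2.symm

theorem Setup.V_add (S : Setup x y φ) (w1 w2 : X) : S.V (w1 + w2) = S.V w1 + S.V w2 := by
  obtain ⟨v, hv⟩ := S.dimX
  have hvx : ∀ d : ℂ, v + x ≠ d • x := by
    intro d h
    apply hv (d - 1)
    rw [sub_smul, ← h, one_smul, add_sub_cancel_right]
  obtain ⟨e1, h1x, h1v⟩ := exists_pair S.hx hv 0 1
  obtain ⟨e2, h2x, h2v⟩ := exists_pair S.hx hv 1 0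
  have k1 := S.V_eq_of_ind hvx (rk w1 e1 + rk w2 e2)
  have e3 : (rk w1 e1 + rk w2 e2) (v + x) = w1 + w2 := by
    show e1 (v + x) • w1 + e2 (v + x) • w2 = _
    rw [map_add, map_add, h1x, h1v, h2x, h2v]; simp
  rw [e3, S.U_add, map_add, S.V_eq_of_ind hv, S.V_eq (T := rk w1 e1 + rk w2 e2) (w := w2)] at k1
  · rw [← k1]
    congr 2
    show e1 v • w1 + e2 v • w2 = w1
    rw [h1v, h2v]; simp
  · show e1 x • w1 + e2 x • w2 = w2
    rw [h1x, h2x]; simp

theorem Setup.V_apply (S : Setup x y φ) (T : X →L[ℂ] X) (a : X) : φ T (S.U a) = S.V (T a) := by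
  by_cases ha : ∃ c : ℂ, a = c • x
  · obtain ⟨c, rfl⟩ := ha
    rw [S.U_smul, map_smul, S.V_eq rfl, map_smul, S.V_smul]
  · push Not at ha
    exact S.V_eq_of_ind ha T

theorem Setup.V_x (S : Setup x y φ) : S.V x = y := by
  have h := S.diff (A := rk x S.e0) (B := 0) (a := x) (c := 1)
    (by rw [sub_zero, rk_apply, S.e0_apply])
  rw [S.zero, S.V_apply, rk_apply, S.e0_apply, one_smul, map_one, one_smul] at h
  simpa using h

/-- Step 7, main computation -/
theorem Setup.V_key (S : Setup x y φ) {α : ℂ} (hα : y = α • S.U x) (hα1 : ‖α‖ = 1) {v : X}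
    (hv : ∀ c : ℂ, v ≠ c • x) {e : X →L[ℂ] ℂ} (hex : e x = 1) (hev : e v = 0) :
    S.M e (S.V v) = 0 := by
  by_contra hu
  have hα0 : α ≠ 0 := by rintro rfl; simp at hα1
  obtain ⟨e', hex', hev'⟩ := exists_pair S.hx hv 0 1
  obtain ⟨u, hu'⟩ : ∃ u, u = S.M e (S.V v) := ⟨_, rfl⟩
  obtain ⟨u', hu''⟩ : ∃ u', u' = S.M e' (S.V v) := ⟨_, rfl⟩
  rw [← hu'] at hu
  have hMy : S.M e y = α := by
    refine (congrArg (S.M e) hα).trans ?_
    rw [map_smul, S.M_U, hex]; simp
  have hMy' : S.M e' y = 0 := by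
    refine (congrArg (S.M e') hα).trans ?_
    rw [map_smul, S.M_U, hex']; simp
  -- choose the eigenvalue
  obtain ⟨lam, hlam0, hlam1, hlam2⟩ : ∃ lam : ℂ, lam ≠ 0 ∧ ‖lam‖ < 1 ∧ lam ^ 2 - α * u' ≠ 0 := by
    by_cases h : ((1 / 2 : ℂ)) ^ 2 - α * u' = 0
    · refine ⟨1 / 3, by norm_num, by norm_num, ?_⟩
      intro h3
      have : ((1 / 2 : ℂ)) ^ 2 - (1 / 3) ^ 2 = 0 := by linear_combination h - h3
      norm_num at this
    · exact ⟨1 / 2, by norm_num, by norm_num, h⟩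
  -- choose `s`
  obtain ⟨s, hs⟩ : ∃ s, S.τ s = (lam ^ 2 - α * u') / (lam * u) :=
    ⟨S.symm.τ ((lam ^ 2 - α * u') / (lam * u)), S.τ_τ_symm _⟩
  have hs0 : s ≠ 0 := by
    rintro rfl
    rw [map_zero] at hs
    exact div_ne_zero hlam2 (mul_ne_zero hlam0 hu) hs.symm
  have hτs0 : S.τ s ≠ 0 := by rwa [ne_eq, map_eq_zero]
  obtain ⟨T, hT⟩ : ∃ T : X →L[ℂ] X, T = rk (s • v) e + rk (s⁻¹ • x) e' := ⟨_, rfl⟩
  have hTa : ∀ a, T a = e a • s • v + e' a • s⁻¹ • x := by intro a; rw [hT]; rfl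
  have k1 : 1 ≤ innerRadius T x := by
    apply one_le_innerRadius
    have h1 : T x = s • v := by rw [hTa, hex, hex']; simp
    rw [h1, map_smul, hTa, hev, hev']
    simp [smul_smul, hs0]
  have hφT : ∀ b, φ T b = S.M e b • S.τ s • S.V v + S.M e' b • (S.τ s)⁻¹ • y := by
    intro b
    obtain ⟨a, rfl⟩ := S.U_surjective b
    rw [S.V_apply, hTa, S.V_add, S.V_smul, S.V_smul, S.V_smul, S.V_smul, S.V_x, S.M_U, S.M_U,
      map_inv₀]
  have k2 : innerRadius (φ T) y ≤ ‖lam‖₊ := by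
    refine innerRadius_le_of_left_eigen (S.M e + (α / (S.τ s * lam)) • S.M e') lam ?_ ?_
    · intro b
      rw [hφT]
      show S.M e (S.M e b • S.τ s • S.V v + S.M e' b • (S.τ s)⁻¹ • y)
        + α / (S.τ s * lam) * S.M e' (S.M e b • S.τ s • S.V v + S.M e' b • (S.τ s)⁻¹ • y)
        = lam * (S.M e b + α / (S.τ s * lam) * S.M e' b)
      rw [map_add, map_add, map_smul, map_smul, map_smul, map_smul, map_smul, map_smul, map_smul,
        map_smul, hMy, hMy', ← hu', ← hu'']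
      simp only [smul_eq_mul]
      have hkey : S.τ s * (lam * u) = lam ^ 2 - α * u' := by
        rw [hs, div_mul_cancel₀ _ (mul_ne_zero hlam0 hu)]
      have hu2 : u = (lam ^ 2 - α * u') / (S.τ s * lam) := by
        rw [eq_div_iff (mul_ne_zero hτs0 hlam0)]
        linear_combination hkey
      rw [hu2]
      generalize S.τ s = t at hτs0
      field_simp
      ring
    · show S.M e y + α / (S.τ s * lam) * S.M e' y ≠ 0
      rw [hMy, hMy']; simpa using hα0
  have k3 := S.pres T 0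
  rw [S.zero, sub_zero, sub_zero] at k3
  rw [k3] at k2
  have k4 := k1.trans k2
  have k5 : (1 : ℝ≥0) ≤ ‖lam‖₊ := by exact_mod_cast k4
  have k6 : (1 : ℝ) ≤ ‖lam‖ := by exact_mod_cast k5
  linarith

theorem Setup.V_eq_U (S : Setup x y φ) {α : ℂ} (hα : y = α • S.U x) (hα1 : ‖α‖ = 1) (w : X) :
    S.V w = α • S.U w := by
  have hUx : S.U x ≠ 0 := by
    intro h
    exact S.hx (S.U_injective (h.trans S.U_zero.symm))
  -- `U` preserves independence of `x`
  have hUind : ∀ v : X, (∀ c : ℂ, v ≠ c • x) → ∀ c : ℂ, S.U v ≠ c • S.U x := by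
    intro v hv c h
    apply hv (S.symm.τ c)
    apply S.U_injective
    rw [h, S.U_smul, S.τ_τ_symm]
  have hmul : ∀ v : X, (∀ c : ℂ, v ≠ c • x) → ∃ β : ℂ, S.V v = β • S.U v := by
    intro v hv
    have hv0 : v ≠ 0 := by
      intro h; exact hv 0 (by rw [h, zero_smul])
    have hUv : S.U v ≠ 0 := by
      intro h
      exact hv0 (S.U_injective (h.trans S.U_zero.symm))
    have key : ∀ g : Y →L[ℂ] ℂ, g (S.U x) = 1 → g (S.U v) = 0 → g (S.V v) = 0 := by
      intro g hg1 hg2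
      obtain ⟨e, rfl⟩ := S.M_surjective g
      rw [S.M_U] at hg1 hg2
      refine S.V_key hα hα1 hv (S.τ.injective (by rw [hg1, map_one]))
        (S.τ.injective (by rw [hg2, map_zero]))
    by_contra hc
    push Not at hc
    obtain ⟨g1, hg1, hg1'⟩ := exists_pair hUv hc 0 1
    obtain ⟨g0, hg0, hg0'⟩ := exists_pair hUx (hUind v hv) 1 0
    by_cases h : g1 (S.U x) = 0
    · have h1 := key g0 hg0 hg0'
      have h2 := key (g0 + g1) (by rw [add_apply, hg0, h, add_zero])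
        (by rw [add_apply, hg0', hg1, add_zero])
      rw [add_apply, h1, hg1', zero_add] at h2
      exact one_ne_zero h2
    · have h1 := key ((g1 (S.U x))⁻¹ • g1)
        (by show (g1 (S.U x))⁻¹ * g1 (S.U x) = 1; exact inv_mul_cancel₀ h)
        (by show (g1 (S.U x))⁻¹ * g1 (S.U v) = 0; rw [hg1, mul_zero])
      have h2 : (g1 (S.U x))⁻¹ * g1 (S.V v) = 0 := h1
      rw [hg1', mul_one] at h2
      exact inv_ne_zero h h2
  have hVx : S.V x = α • S.U x := S.V_x.trans hα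
  by_cases hw : ∃ c : ℂ, w = c • x
  · obtain ⟨c, rfl⟩ := hw
    rw [S.V_smul, hVx, S.U_smul, smul_comm]
  · push Not at hw
    obtain ⟨β, hβ⟩ := hmul w hw
    have hwx : ∀ d : ℂ, w + x ≠ d • x := by
      intro d h
      apply hw (d - 1)
      rw [sub_smul, ← h, one_smul, add_sub_cancel_right]
    obtain ⟨γ, hγ⟩ := hmul _ hwx
    rw [S.V_add, hVx, S.U_add, hβ] at hγ
    obtain ⟨g, hg, hg'⟩ := exists_pair hUx (hUind w hw) 0 1
    obtain ⟨g', hg1, hg1'⟩ := exists_pair hUx (hUind w hw) 1 0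
    have h1 : β = γ := by
      have := congrArg g hγ
      rw [map_add, map_smul, map_smul, map_smul, map_add, hg, hg'] at this
      simpa using this
    have h2 : α = γ := by
      have := congrArg g' hγ
      rw [map_add, map_smul, map_smul, map_smul, map_add, hg1, hg1'] at this
      simpa using this
    rw [hβ, h1, h2]

/-- The conclusion in dimensions at least two. -/
theorem Setup.main (S : Setup x y φ) :
    ∃ (τ : ℂ →+* ℂ) (A : X → Y) (α : ℂ), Continuous τ ∧ Function.Bijective A ∧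
      (∀ a b, A (a + b) = A a + A b) ∧ (∀ (c : ℂ) a, A (c • a) = τ c • A a) ∧
      (∀ g : Y →L[ℂ] ℂ, ∃ f : X →L[ℂ] ℂ, ∀ a, g (A a) = τ (f a)) ∧
      ‖α‖ = 1 ∧ A x = y ∧ ∀ T a, φ T (A a) = α • A (T a) := by
  obtain ⟨α, hα1, hα⟩ := S.exists_alpha
  have hα0 : α ≠ 0 := by rintro rfl; simp at hα1
  refine ⟨S.τ, fun a => α • S.U a, α, S.τ_continuous, ⟨?_, ?_⟩, ?_, ?_, ?_, hα1, hα.symm, ?_⟩
  · intro a b h
    exact S.U_injective (smul_right_injective Y hα0 h)
  · intro b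
    obtain ⟨a, ha⟩ := S.U_surjective (α⁻¹ • b)
    refine ⟨a, ?_⟩
    show α • S.U a = b
    rw [ha, smul_smul, mul_inv_cancel₀ hα0, one_smul]
  · intro a b
    show α • S.U (a + b) = α • S.U a + α • S.U b
    rw [S.U_add, smul_add]
  · intro c a
    show α • S.U (c • a) = S.τ c • α • S.U a
    rw [S.U_smul, smul_comm]
  · intro g
    obtain ⟨f, hf⟩ := S.M_surjective (α • g)
    refine ⟨f, fun a => ?_⟩
    rw [← S.M_U, hf, map_smul]; rfl
  · intro T a
    show φ T (α • S.U a) = α • α • S.U (T a)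
    rw [map_smul, S.V_apply, S.V_eq_U hα hα1]

end

end Pool.Agent.Helper95.Iota
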