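import Pool.Agent.Helper95.IotaDefs

set_option autoImplicit false

namespace Pool.Agent.Helper95.Iota

open Metric Set
open scoped NNReal ENNReal

section Basic

variable {X : Type*} [NormedAddCommGroup X] [NormedSpace ℂ X]

theorem le_innerRadius {T : X →L[ℂ] X} {x : X} {r : ℝ≥0}
    (h : x ∈ glocal T (ball (0 : ℂ) r)ᶜ) : (r : ℝ≥0∞) ≤ innerRadius T x :=
  le_iSup₂_of_le r h le_rfl

theorem innerRadius_le {T : X →L[ℂ] X} {x : X} {c : ℝ≥0}
    (h : ∀ r : ℝ≥0, c < r → x ∉ glocal T (ball (0 : ℂ) r)ᶜ) : innerRadius T x ≤ c := by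
  refine iSup₂_le fun r hr => ?_
  by_contra hc
  push Not at hc
  exact h r (by exact_mod_cast hc) hr

/-- a local solution of `(T - z) f(z) = x` on the disc of radius `r` about `0` -/
def LocSol (T : X →L[ℂ] X) (x : X) (r : ℝ) (f : ℂ → X) : Prop :=
  AnalyticOnNhd ℂ f (ball (0 : ℂ) r) ∧ ∀ z ∈ ball (0 : ℂ) r, T (f z) - z • f z = x

theorem mem_glocal_iff {T : X →L[ℂ] X} {x : X} {r : ℝ} :
    x ∈ glocal T (ball (0 : ℂ) r)ᶜ ↔ ∃ f, LocSol T x r f := by
  simp only [glocal, LocSol, compl_compl, Set.mem_ofPred_eq]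

theorem good_iff {T : X →L[ℂ] X} {x : X} :
    innerRadius T x ≠ 0 ↔ ∃ r : ℝ, 0 < r ∧ ∃ f, LocSol T x r f := by
  constructor
  · intro h
    by_contra hc
    push Not at hc
    apply h
    have : innerRadius T x ≤ (0 : ℝ≥0) := by
      refine innerRadius_le fun r hr hx => ?_
      obtain ⟨f, hf⟩ := mem_glocal_iff.mp hx
      exact hc r (by exact_mod_cast hr) f hf
    simpa using this
  · rintro ⟨r, hr, f, hf⟩ h
    lift r to ℝ≥0 using hr.le
    have h1 : (r : ℝ≥0∞) ≤ innerRadius T x :=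
      le_innerRadius (mem_glocal_iff.mpr ⟨f, hf⟩)
    rw [h] at h1
    have h2 : r ≤ 0 := by
      have := le_antisymm h1 bot_le
      simpa using this.le
    have h3 : (r : ℝ) ≤ 0 := by exact_mod_cast h2
    linarith

/-- if `x` is not in the range of `T`, then `ι_T(x) = 0` -/
theorem bad_of_not_range {T : X →L[ℂ] X} {x : X} (h : ∀ v, T v ≠ x) : innerRadius T x = 0 := by
  by_contra hc
  obtain ⟨r, hr, f, -, hf⟩ := good_iff.mp hc
  have := hf 0 (by simpa using hr)
  simp at this
  exact h _ this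

/-- left eigenvectors bound `ι` from above -/
theorem innerRadius_le_of_left_eigen {T : X →L[ℂ] X} {x : X} (l : X →L[ℂ] ℂ) (c : ℂ)
    (hl : ∀ v, l (T v) = c * l v) (hx : l x ≠ 0) : innerRadius T x ≤ ‖c‖₊ := by
  refine innerRadius_le fun r hr hg => ?_
  obtain ⟨f, -, hf⟩ := mem_glocal_iff.mp hg
  have := hf c (by
    rw [mem_ball_zero_iff]
    exact_mod_cast hr)
  apply hx
  rw [← this]
  simp [hl]

/-- `T² x = t T x - d x` and no root of `z² - t z + d` in the disc -/
theorem le_innerRadius_of_quadratic {T : X →L[ℂ] X} {x : X} (t d : ℂ) (r : ℝ≥0)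
    (h : T (T x) = t • T x - d • x)
    (hr : ∀ z : ℂ, ‖z‖ < r → z ^ 2 - t * z + d ≠ 0) : (r : ℝ≥0∞) ≤ innerRadius T x := by
  refine le_innerRadius (mem_glocal_iff.mpr
    ⟨fun z => (-(z ^ 2 - t * z + d)⁻¹) • (T x + (z - t) • x), ?_, ?_⟩)
  · intro z hz
    have hz' : z ^ 2 - t * z + d ≠ 0 := hr z (by simpa using hz)
    have h1 : AnalyticAt ℂ (fun z : ℂ => z ^ 2 - t * z + d) z := by fun_prop
    have h2 : AnalyticAt ℂ (fun z : ℂ => -(z ^ 2 - t * z + d)⁻¹) z := (h1.inv hz').neg
    have h3 : AnalyticAt ℂ (fun z : ℂ => T x + (z - t) • x) z := by fun_prop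
    exact h2.smul h3
  · intro z hz
    have hz' : z ^ 2 - t * z + d ≠ 0 := hr z (by simpa using hz)
    have key : T (T x + (z - t) • x) - z • (T x + (z - t) • x) = -(z ^ 2 - t * z + d) • x := by
      rw [map_add, h, map_smul]
      module
    calc T ((-(z ^ 2 - t * z + d)⁻¹) • (T x + (z - t) • x))
          - z • ((-(z ^ 2 - t * z + d)⁻¹) • (T x + (z - t) • x))
        = (-(z ^ 2 - t * z + d)⁻¹) • (T (T x + (z - t) • x) - z • (T x + (z - t) • x)) := by
          rw [map_smul]; module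
      _ = x := by
          rw [key, smul_smul, neg_mul_neg, inv_mul_cancel₀ hz', one_smul]

/-- `T² x = x` gives `ι ≥ 1` -/
theorem one_le_innerRadius {T : X →L[ℂ] X} {x : X} (h : T (T x) = x) : 1 ≤ innerRadius T x := by
  have := le_innerRadius_of_quadratic (T := T) (x := x) 0 (-1) 1 (by rw [h]; simp) (by
    intro z hz h0
    have h1 : z ^ 2 = 1 := by linear_combination h0
    have h2 : ‖z‖ ^ 2 = 1 := by rw [← norm_pow, h1, norm_one]
    have h3 : ‖z‖ < 1 := by simpa using hz
    nlinarith [norm_nonneg z])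
  simpa using this

/-- eigenvectors: `T x = c x` gives `ι ≥ |c|` -/
theorem le_innerRadius_of_eigen {T : X →L[ℂ] X} {x : X} (c : ℂ) (h : T x = c • x) :
    (‖c‖₊ : ℝ≥0∞) ≤ innerRadius T x := by
  refine le_innerRadius (mem_glocal_iff.mpr ⟨fun z => (c - z)⁻¹ • x, ?_, ?_⟩)
  · intro z hz
    have hz' : c - z ≠ 0 := by
      intro h0
      have : c = z := sub_eq_zero.mp h0
      subst this
      simp at hz
    have h1 : AnalyticAt ℂ (fun z : ℂ => c - z) z := by fun_prop
    exact (h1.inv hz').smul analyticAt_const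
  · intro z hz
    have hz' : c - z ≠ 0 := by
      intro h0
      have : c = z := sub_eq_zero.mp h0
      subst this
      simp at hz
    have : (c - z)⁻¹ • c • x - z • (c - z)⁻¹ • x = ((c - z)⁻¹ * (c - z)) • x := by module
    rw [map_smul, h, this, inv_mul_cancel₀ hz', one_smul]

/-- the rank one operator `u ⊗ h` -/
noncomputable def rk (u : X) (h : X →L[ℂ] ℂ) : X →L[ℂ] X := h.smulRight u

@[simp] theorem rk_apply (u : X) (h : X →L[ℂ] ℂ) (v : X) : rk u h v = h v • u := rfl

theorem rk_add (u : X) (h k : X →L[ℂ] ℂ) : rk u (h + k) = rk u h + rk u k := by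
  ext v; simp [add_smul]

theorem rk_sub (u : X) (h k : X →L[ℂ] ℂ) : rk u (h - k) = rk u h - rk u k := by
  ext v; simp [sub_smul]

theorem rk_smul (u : X) (c : ℂ) (h : X →L[ℂ] ℂ) : rk u (c • h) = c • rk u h := by
  ext v; simp [mul_smul]

theorem rk_neg (u : X) (h : X →L[ℂ] ℂ) : rk u (-h) = - rk u h := by
  ext v; simp

theorem rk_smul_left (c : ℂ) (u : X) (h : X →L[ℂ] ℂ) : rk (c • u) h = c • rk u h := by
  ext v
  show h v • c • u = c • h v • u
  rw [smul_comm]

theorem rk_zero (u : X) : rk u (0 : X →L[ℂ] ℂ) = 0 := by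
  ext v; simp

theorem rk_injective {u : X} (hu : u ≠ 0) {h k : X →L[ℂ] ℂ} (e : rk u h = rk u k) : h = k := by
  ext v
  have := congrArg (fun T => T v) e
  simp only [rk_apply] at this
  exact smul_left_injective ℂ hu this

theorem rk_eq_zero_iff {u : X} (hu : u ≠ 0) {h : X →L[ℂ] ℂ} : rk u h = 0 ↔ h = 0 := by
  constructor
  · intro e
    exact rk_injective hu (e.trans (rk_zero u).symm)
  · rintro rfl; exact rk_zero u

/-- `ι_{x ⊗ h}(x) = |h(x)|` -/
theorem innerRadius_rk {x : X} (hx : x ≠ 0) (h : X →L[ℂ] ℂ) :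
    innerRadius (rk x h) x = ‖h x‖₊ := by
  refine le_antisymm ?_ (le_innerRadius_of_eigen (h x) (by simp))
  by_cases h0 : h x = 0
  · by_contra hc
    push Not at hc
    have hc' : innerRadius (rk x h) x ≠ 0 := by
      intro h1
      rw [h1] at hc
      exact absurd hc (not_lt.mpr bot_le)
    obtain ⟨r, hr, f, hf1, hf2⟩ := good_iff.mp hc'
    have hne : ∀ z ∈ ball (0 : ℂ) r, z ≠ 0 → x = -z • f z := by
      intro z hz hz0
      have h1 := hf2 z hz
      have h2 : h (f z) = 0 := by
        have h5 := congrArg h h1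
        rw [rk_apply, map_sub, map_smul, map_smul, h0, smul_zero, zero_sub, smul_eq_mul] at h5
        rcases mul_eq_zero.mp (neg_eq_zero.mp h5) with h6 | h6
        · exact absurd h6 hz0
        · exact h6
      rw [rk_apply, h2, zero_smul, zero_sub] at h1
      rw [← h1, neg_smul]
    have hcont : ContinuousAt (fun z : ℂ => -z • f z) 0 := by
      have : ContinuousAt f 0 := (hf1 0 (by simpa using hr)).continuousAt
      exact continuousAt_id.neg.smul this
    have h3 : Filter.Tendsto (fun z : ℂ => -z • f z) (nhdsWithin 0 {0}ᶜ) (nhds 0) := by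
      have := hcont.tendsto
      simp only [neg_zero, zero_smul] at this
      exact this.mono_left nhdsWithin_le_nhds
    have h4 : Filter.Tendsto (fun _ : ℂ => x) (nhdsWithin 0 {0}ᶜ) (nhds 0) := by
      refine h3.congr' ?_
      have hb : ball (0 : ℂ) r ∈ nhdsWithin (0 : ℂ) {0}ᶜ :=
        mem_nhdsWithin_of_mem_nhds (ball_mem_nhds 0 hr)
      filter_upwards [hb, self_mem_nhdsWithin] with z hz hz0
      exact (hne z hz hz0).symm
    exact hx (tendsto_nhds_unique tendsto_const_nhds h4)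
  · exact innerRadius_le_of_left_eigen h (h x) (by intro v; simp [mul_comm]) h0

/-- the line lemma -/
theorem good_add_rk {R : X →L[ℂ] X} {x : X} {r : ℝ} (hr : 0 < r) {g : ℂ → X}
    (hg : LocSol R x r g) (h : X →L[ℂ] ℂ) (hne : 1 + h (g 0) ≠ 0) :
    innerRadius (R + rk x h) x ≠ 0 := by
  have hg0 : AnalyticAt ℂ g 0 := hg.1 0 (by simpa using hr)
  have hk : AnalyticAt ℂ (fun z => 1 + h (g z)) 0 :=
    analyticAt_const.add ((h.analyticAt _).comp hg0)
  have hev : ∀ᶠ z in nhds (0 : ℂ), 1 + h (g z) ≠ 0 := hk.continuousAt.eventually_ne hne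
  obtain ⟨s, hs, hs'⟩ := Metric.eventually_nhds_iff_ball.mp hev
  refine good_iff.mpr ⟨min r s, lt_min hr hs, fun z => (1 + h (g z))⁻¹ • g z, ?_, ?_⟩
  · intro z hz
    have hzr : z ∈ ball (0 : ℂ) r := ball_subset_ball (min_le_left _ _) hz
    have hzs : z ∈ ball (0 : ℂ) s := ball_subset_ball (min_le_right _ _) hz
    have h1 : AnalyticAt ℂ g z := hg.1 z hzr
    have h2 : AnalyticAt ℂ (fun z => 1 + h (g z)) z :=
      analyticAt_const.add ((h.analyticAt _).comp h1)
    exact (h2.inv (hs' z hzs)).smul h1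
  · intro z hz
    have hzr : z ∈ ball (0 : ℂ) r := ball_subset_ball (min_le_left _ _) hz
    have hzs : z ∈ ball (0 : ℂ) s := ball_subset_ball (min_le_right _ _) hz
    have h1 := hg.2 z hzr
    have h2 := hs' z hzs
    have key : (R + rk x h) (g z) - z • g z = (1 + h (g z)) • x := by
      rw [add_apply, rk_apply, add_smul, one_smul, ← h1]
      abel
    calc (R + rk x h) ((1 + h (g z))⁻¹ • g z) - z • ((1 + h (g z))⁻¹ • g z)
        = (1 + h (g z))⁻¹ • ((R + rk x h) (g z) - z • g z) := by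
          rw [map_smul]; module
      _ = x := by rw [key, smul_smul, inv_mul_cancel₀ h2, one_smul]

end Basic

section Complete

variable {X : Type*} [NormedAddCommGroup X] [NormedSpace ℂ X] [CompleteSpace X]

/-- invertible operators are good -/
theorem good_of_isUnit {R : X →L[ℂ] X} (hR : IsUnit R) (x : X) : innerRadius R x ≠ 0 := by
  rcases subsingleton_or_nontrivial X with hs | hn
  · refine good_iff.mpr ⟨1, one_pos, fun _ => 0, analyticOnNhd_const, fun z _ => Subsingleton.elim _ _⟩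
  have hop : IsOpen (resolventSet ℂ R) := spectrum.isOpen_resolventSet R
  have h0 : (0 : ℂ) ∈ resolventSet ℂ R := by
    rw [spectrum.mem_resolventSet_iff]
    simpa using hR.neg
  obtain ⟨r, hr, hsub⟩ := Metric.isOpen_iff.mp hop 0 h0
  refine good_iff.mpr ⟨r, hr, fun z => -(resolvent R z x), ?_, ?_⟩
  · have hd : DifferentiableOn ℂ (fun z => -(resolvent R z x)) (ball (0 : ℂ) r) := by
      intro z hz
      have h1 : HasDerivAt (resolvent R) (-resolvent R z ^ 2) z :=
        spectrum.hasDerivAt_resolvent_const_left (hsub hz)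
      have h2 : HasDerivAt (fun z => resolvent R z x) ((-resolvent R z ^ 2) x) z := by
        exact (ContinuousLinearMap.apply ℂ X x).hasFDerivAt.comp_hasDerivAt z h1
      exact h2.neg.differentiableAt.differentiableWithinAt
    exact hd.analyticOnNhd isOpen_ball
  · intro z hz
    have h1 : IsUnit (algebraMap ℂ (X →L[ℂ] X) z - R) := hsub hz
    have h2 : (algebraMap ℂ (X →L[ℂ] X) z - R) * resolvent R z = 1 :=
      Ring.mul_inverse_cancel _ h1
    have h3 : z • resolvent R z x - R (resolvent R z x) = x := by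
      have h4 := congrArg (fun T => T x) h2
      rw [Algebra.algebraMap_eq_smul_one] at h4
      exact h4
    rw [map_neg, smul_neg, sub_neg_eq_add, neg_add_eq_sub]
    exact h3

end Complete

end Pool.Agent.Helper95.Iota
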