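import Mathlib

set_option autoImplicit false

/-!
# Glocal spectral subspaces and the inner local spectral radius

Definitions used in the statement about nonlinear preservers of the inner local spectral radius.
-/

namespace Pool.Agent.Helper95.Iota

open scoped NNReal ENNReal

variable {X : Type*} [NormedAddCommGroup X] [NormedSpace ℂ X]

/-- The glocal spectral subspace `𝒳_T(F)`: the vectors `x` for which there is an analytic
`f : ℂ ∖ F → X` with `(T - z) f(z) = x` for all `z ∈ ℂ ∖ F`. -/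
def glocal (T : X →L[ℂ] X) (F : Set ℂ) : Set X :=
  {x | ∃ f : ℂ → X, AnalyticOnNhd ℂ f Fᶜ ∧ ∀ z ∈ Fᶜ, T (f z) - z • f z = x}

/-- The inner local spectral radius `ι_T(x) = sup {r ≥ 0 : x ∈ 𝒳_T(ℂ ∖ D(0,r))}`, as an extended
nonnegative real number (`D(0,r)` is the open disc). -/
noncomputable def innerRadius (T : X →L[ℂ] X) (x : X) : ℝ≥0∞ :=
  ⨆ (r : ℝ≥0) (_ : x ∈ glocal T (Metric.ball (0 : ℂ) r)ᶜ), (r : ℝ≥0∞)

end Pool.Agent.Helper95.Iota
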