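import Pool.Agent.Helper95.IotaB

set_option autoImplicit false

namespace Pool.Agent.Helper95.Iota

open Metric Set Filter
open scoped NNReal ENNReal Topology

section

variable {X Y : Type*} [NormedAddCommGroup X] [NormedSpace ℂ X] [CompleteSpace X]
  [NormedAddCommGroup Y] [NormedSpace ℂ Y] [CompleteSpace Y]

variable {x : X} {y : Y} {φ : (X →L[ℂ] X) ≃ (Y →L[ℂ] Y)}

/-- the raw conclusion -/
def Concl (x : X) (y : Y) (φ : (X →L[ℂ] X) → (Y →L[ℂ] Y)) : Prop :=
    ∃ (τ : ℂ →+* ℂ) (A : X → Y) (α : ℂ), Continuous τ ∧ Function.Bijective A ∧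
      (∀ a b, A (a + b) = A a + A b) ∧ (∀ (c : ℂ) a, A (c • a) = τ c • A a) ∧
      (∀ g : Y →L[ℂ] ℂ, ∃ f : X →L[ℂ] ℂ, ∀ a, g (A a) = τ (f a)) ∧
      ‖α‖ = 1 ∧ A x = y ∧ ∀ T a, φ T (A a) = α • A (T a)

omit [CompleteSpace X] in
/-- an operator `T ≠ 0` on a one dimensional space is good -/
theorem good_of_dim_one (hdim : ∀ w : X, ∃ c : ℂ, w = c • x) {T : X →L[ℂ] X}
    (hT : T ≠ 0) : innerRadius T x ≠ 0 := by
  obtain ⟨c, hc⟩ := hdim (T x)
  have hc0 : c ≠ 0 := by
    rintro rfl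
    apply hT
    ext w
    obtain ⟨d, rfl⟩ := hdim w
    rw [map_smul, hc]; simp
  intro h
  have h1 := le_innerRadius_of_eigen c hc
  rw [h] at h1
  have h2 : ‖c‖₊ ≤ 0 := by
    have := le_antisymm h1 bot_le
    simpa using this.le
  have h3 : ‖c‖ ≤ 0 := by exact_mod_cast h2
  exact hc0 (norm_le_zero_iff.mp h3)

omit [CompleteSpace X] in
/-- the dimensions cannot be `1` and at least `2` -/
theorem dim_mismatch (hy : y ≠ 0)
    (pres : ∀ A B, innerRadius (φ A - φ B) y = innerRadius (A - B) x)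
    (hX : ∀ w : X, ∃ c : ℂ, w = c • x) (hY : ∃ w : Y, ∀ c : ℂ, w ≠ c • y) : False := by
  obtain ⟨w, hw⟩ := hY
  have hw0 : w ≠ 0 := by
    intro h; exact hw 0 (by rw [h, zero_smul])
  have h01 : φ.symm 0 ≠ φ.symm 1 := by
    apply φ.symm.injective.ne
    intro h
    apply hw0
    have := congrArg (fun T => T w) h
    exact this.symm
  have h02 : φ.symm 0 ≠ φ.symm ((2 : ℂ) • 1) := by
    apply φ.symm.injective.ne
    intro h
    have := congrArg (fun T => T w) h
    have h2 : (0 : Y) = (2 : ℂ) • w := this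
    rcases smul_eq_zero.mp h2.symm with h3 | h3
    · norm_num at h3
    · exact hw0 h3
  have h12 : φ.symm 1 ≠ φ.symm ((2 : ℂ) • 1) := by
    apply φ.symm.injective.ne
    intro h
    have := congrArg (fun T => T w) h
    have h2 : w = (2 : ℂ) • w := this
    have h3 : (1 : ℂ) • w = 0 := by
      have h4 : (2 : ℂ) • w - w = 0 := by rw [← h2, sub_self]
      have h5 : (2 : ℂ) • w - w = (1 : ℂ) • w := by module
      rw [← h5, h4]
    rw [one_smul] at h3
    exact hw0 h3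
  have hQ : Q x (φ.symm 0) (φ.symm 1) (φ.symm ((2 : ℂ) • 1)) := by
    refine ⟨h01, h02, h12, good_of_dim_one hX (sub_ne_zero.mpr h01), ?_⟩
    intro U hA hB
    exfalso
    have hA' : φ.symm 0 - U = 0 := by
      by_contra hne
      exact good_of_dim_one hX hne hA
    have hB' : φ.symm 1 - U = 0 := by
      by_contra hne
      exact good_of_dim_one hX hne hB
    exact h01 ((sub_eq_zero.mp hA').trans (sub_eq_zero.mp hB').symm)
  have hQ' := Q_map pres hQ
  rw [Equiv.apply_symm_apply, Equiv.apply_symm_apply, Equiv.apply_symm_apply] at hQ'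
  obtain ⟨f, c, -, h1, -⟩ := of_Q hy ⟨w, hw⟩ hQ'
  apply hw (f w)
  have := congrArg (fun T => T w) h1
  rw [zero_add] at this
  exact this

omit [CompleteSpace X] [CompleteSpace Y] in
/-- the case of dimension one -/
theorem dim_one (hx : x ≠ 0) (hy : y ≠ 0) (h0 : φ 0 = 0)
    (pres : ∀ A B, innerRadius (φ A - φ B) y = innerRadius (A - B) x)
    (hX : ∀ w : X, ∃ c : ℂ, w = c • x) (hY : ∀ w : Y, ∃ c : ℂ, w = c • y) :
    Concl x y φ := by
  obtain ⟨e, he⟩ := SeparatingDual.exists_eq_one (R := ℂ) hx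
  obtain ⟨e', he'⟩ := SeparatingDual.exists_eq_one (R := ℂ) hy
  have hXe : ∀ w : X, w = e w • x := by
    intro w
    obtain ⟨c, hc⟩ := hX w
    rw [hc, map_smul, he]; simp
  have hYe : ∀ w : Y, w = e' w • y := by
    intro w
    obtain ⟨c, hc⟩ := hY w
    rw [hc, map_smul, he']; simp
  -- `ι` in dimension one
  have hιX : ∀ T : X →L[ℂ] X, innerRadius T x = ‖e (T x)‖₊ := by
    intro T
    have hT : T = rk x (e (T x) • e) := by
      ext w
      rw [rk_apply]
      show T w = (e (T x) * e w) • x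
      rw [mul_comm, mul_smul, ← hXe (T x), ← map_smul, ← hXe w]
    rw [hT, innerRadius_rk hx]
    congr 2
    rw [rk_apply]; simp [he]
  have hιY : ∀ T : Y →L[ℂ] Y, innerRadius T y = ‖e' (T y)‖₊ := by
    intro T
    have hT : T = rk y (e' (T y) • e') := by
      ext w
      rw [rk_apply]
      show T w = (e' (T y) * e' w) • y
      rw [mul_comm, mul_smul, ← hYe (T y), ← map_smul, ← hYe w]
    rw [hT, innerRadius_rk hy]
    congr 2
    rw [rk_apply]; simp [he']
  have hdetX : ∀ T : X →L[ℂ] X, T = e (T x) • (1 : X →L[ℂ] X) := by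
    intro T
    ext w
    show T w = e (T x) • w
    conv_lhs => rw [hXe w, map_smul, hXe (T x), smul_smul, mul_comm, mul_smul, ← hXe w]
  have hdetY : ∀ T : Y →L[ℂ] Y, T = e' (T y) • (1 : Y →L[ℂ] Y) := by
    intro T
    ext w
    show T w = e' (T y) • w
    conv_lhs => rw [hYe w, map_smul, hYe (T y), smul_smul, mul_comm, mul_smul, ← hYe w]
  let θ : ℂ → ℂ := fun c => e' (φ (c • (1 : X →L[ℂ] X)) y)
  have hθ : ∀ c d, ‖θ c - θ d‖ = ‖c - d‖ := by
    intro c d
    have h1 := pres (c • (1 : X →L[ℂ] X)) (d • (1 : X →L[ℂ] X))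
    rw [hιX, hιY] at h1
    have h2 : ‖e' ((φ (c • (1 : X →L[ℂ] X)) - φ (d • (1 : X →L[ℂ] X))) y)‖₊
        = ‖e ((c • (1 : X →L[ℂ] X) - d • (1 : X →L[ℂ] X)) x)‖₊ := by exact_mod_cast h1
    have h3 : e' ((φ (c • (1 : X →L[ℂ] X)) - φ (d • (1 : X →L[ℂ] X))) y) = θ c - θ d := by
      rw [sub_apply, map_sub]
    have h4 : e ((c • (1 : X →L[ℂ] X) - d • (1 : X →L[ℂ] X)) x) = c - d := by
      show e (c • x - d • x) = c - d
      rw [map_sub, map_smul, map_smul, he]; simp
    rw [h3, h4] at h2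
    exact congrArg NNReal.toReal h2
  have hθ0 : θ 0 = 0 := by
    show e' (φ ((0 : ℂ) • (1 : X →L[ℂ] X)) y) = 0
    rw [zero_smul ℂ (1 : X →L[ℂ] X), h0]; simp
  have hiso : Isometry θ := by
    apply Isometry.of_dist_eq
    intro c d
    rw [dist_eq_norm, dist_eq_norm, hθ]
  have hsurj : Function.Surjective θ := by
    intro d
    refine ⟨e (φ.symm (d • (1 : Y →L[ℂ] Y)) x), ?_⟩
    show e' (φ (e (φ.symm (d • (1 : Y →L[ℂ] Y)) x) • (1 : X →L[ℂ] X)) y) = d
    rw [← hdetX, Equiv.apply_symm_apply]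
    show e' (d • y) = d
    rw [map_smul, he']; simp
  let F : ℂ ≃ᵢ ℂ := IsometryEquiv.mk (Equiv.ofBijective θ ⟨hiso.injective, hsurj⟩) hiso
  have hF : ∀ c, F.toRealLinearIsometryEquivOfMapZero hθ0 c = θ c := fun c => rfl
  -- a common finish
  have finish : ∀ (τ : ℂ →+* ℂ) (τi : ℂ →+* ℂ) (α : ℂ), Continuous τ → (∀ c, τ (τi c) = c) →
      ‖α‖ = 1 → (∀ c, θ c = α * τ c) → Concl x y φ := by
    intro τ τi α hτ hτi hα hθα
    refine ⟨τ, fun a => τ (e a) • y, α, hτ, ⟨?_, ?_⟩, ?_, ?_, ?_, hα, ?_, ?_⟩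
    · intro a b h
      have h1 : τ (e a) = τ (e b) := smul_left_injective ℂ hy h
      rw [hXe a, hXe b, τ.injective h1]
    · intro b
      refine ⟨τi (e' b) • x, ?_⟩
      show τ (e (τi (e' b) • x)) • y = b
      rw [map_smul, he, smul_eq_mul, mul_one, hτi, ← hYe]
    · intro a b
      show τ (e (a + b)) • y = τ (e a) • y + τ (e b) • y
      rw [map_add, map_add, add_smul]
    · intro c a
      show τ (e (c • a)) • y = τ c • τ (e a) • y
      rw [map_smul, smul_eq_mul, map_mul, mul_smul]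
    · intro g
      refine ⟨τi (g y) • e, fun a => ?_⟩
      show g (τ (e a) • y) = τ (τi (g y) * e a)
      rw [map_smul, map_mul, hτi, smul_eq_mul, mul_comm]
    · show τ (e x) • y = y
      rw [he, map_one, one_smul]
    · intro T a
      show φ T (τ (e a) • y) = α • τ (e (T a)) • y
      have h1 : φ T y = θ (e (T x)) • y := by
        conv_lhs => rw [hYe (φ T y)]
        congr 2
        show φ T y = φ (e (T x) • (1 : X →L[ℂ] X)) y
        rw [← hdetX]
      have h2 : e (T a) = e a * e (T x) := by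
        conv_lhs => rw [hXe a, map_smul, map_smul, smul_eq_mul]
      rw [map_smul, h1, hθα, h2, map_mul, smul_smul, smul_smul]
      congr 1; ring
  obtain ⟨a, ha⟩ := linear_isometry_complex (F.toRealLinearIsometryEquivOfMapZero hθ0)
  rcases ha with ha | ha
  · refine finish (RingHom.id ℂ) (RingHom.id ℂ) a continuous_id (fun c => rfl)
      (Circle.norm_coe a) fun c => ?_
    rw [← hF, ha]; rfl
  · refine finish (starRingEnd ℂ) (starRingEnd ℂ) a Complex.continuous_conj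
      (fun c => Complex.conj_conj c) (Circle.norm_coe a) fun c => ?_
    rw [← hF, ha]; rfl

theorem concl (hx : x ≠ 0) (hy : y ≠ 0) (h0 : φ 0 = 0)
    (pres : ∀ A B, innerRadius (φ A - φ B) y = innerRadius (A - B) x) : Concl x y φ := by
  have pres' : ∀ A B, innerRadius (φ.symm A - φ.symm B) x = innerRadius (A - B) y := by
    intro A B
    have := pres (φ.symm A) (φ.symm B)
    simpa using this.symm
  by_cases hX : ∃ w : X, ∀ c : ℂ, w ≠ c • x
  · by_cases hY : ∃ w : Y, ∀ c : ℂ, w ≠ c • y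
    · exact Setup.main ⟨hx, hy, h0, pres, hX, hY⟩
    · push Not at hY
      exact (dim_mismatch (φ := φ.symm) hx pres' hY hX).elim
  · push Not at hX
    by_cases hY : ∃ w : Y, ∀ c : ℂ, w ≠ c • y
    · exact (dim_mismatch hy pres hX hY).elim
    · push Not at hY
      exact dim_one hx hy h0 pres hX hY

/-- automatic continuity -/
theorem continuous_of_concl {τ : ℂ →+* ℂ} (hτ : Continuous τ) {A : X → Y}
    (hadd : ∀ a b, A (a + b) = A a + A b) (hsmul : ∀ (c : ℂ) a, A (c • a) = τ c • A a)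
    (hg : ∀ g : Y →L[ℂ] ℂ, ∃ f : X →L[ℂ] ℂ, ∀ a, g (A a) = τ (f a)) : Continuous A := by
  have hreal : ∀ r : ℝ, τ (r : ℂ) = r := by
    intro r
    rcases Complex.ringHom_eq_id_or_conj_of_continuous hτ with h | h
    · rw [h]; rfl
    · rw [h]; exact Complex.conj_ofReal r
  let G : X →ₗ[ℝ] Y :=
    { toFun := A
      map_add' := hadd
      map_smul' := by
        intro r a
        show A (r • a) = r • A a
        have h1 : r • a = (r : ℂ) • a := (Complex.coe_smul r a).symm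
        have h2 : r • A a = (r : ℂ) • A a := (Complex.coe_smul r (A a)).symm
        rw [h1, hsmul, hreal, h2] }
  have : Continuous G := by
    apply LinearMap.continuous_of_seq_closed_graph
    intro u a b hu hGu
    rw [SeparatingDual.eq_iff_forall_dual_eq (R := ℂ)]
    intro g
    obtain ⟨f, hf⟩ := hg g
    have h1 : Tendsto (fun n => g (A (u n))) atTop (𝓝 (g b)) :=
      (g.continuous.tendsto b).comp hGu
    have h2 : Tendsto (fun n => g (A (u n))) atTop (𝓝 (τ (f a))) := by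
      simp only [hf]
      exact (hτ.tendsto _).comp ((f.continuous.tendsto a).comp hu)
    have h3 := tendsto_nhds_unique h1 h2
    rw [h3, ← hf]; rfl
  exact this

end

/-- **Main theorem.** -/
theorem main {X Y : Type*}
    [NormedAddCommGroup X] [NormedSpace ℂ X] [CompleteSpace X]
    [NormedAddCommGroup Y] [NormedSpace ℂ Y] [CompleteSpace Y]
    {x₀ : X} {y₀ : Y} (hx₀ : x₀ ≠ 0) (hy₀ : y₀ ≠ 0)
    (φ : (X →L[ℂ] X) → (Y →L[ℂ] Y)) (hφ : Function.Bijective φ) (h0 : φ 0 = 0)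
    (h : ∀ T S : X →L[ℂ] X, innerRadius (φ T - φ S) y₀ = innerRadius (T - S) x₀) :
    ∃ α : ℂ, ‖α‖ = 1 ∧
      ((∃ A : X ≃L[ℂ] Y, A x₀ = y₀ ∧
          ∀ (T : X →L[ℂ] X) (y : Y), φ T y = α • A (T (A.symm y))) ∨
       (∃ A : X ≃SL[starRingEnd ℂ] Y, A x₀ = y₀ ∧
          ∀ (T : X →L[ℂ] X) (y : Y), φ T y = α • A (T (A.symm y)))) := by
  obtain ⟨τ, A, α, hτ, hA, hadd, hsmul, hg, hα, hAx, hAT⟩ :=
    concl (φ := Equiv.ofBijective φ hφ) hx₀ hy₀ h0 h
  refine ⟨α, hα, ?_⟩
  have hcont := continuous_of_concl hτ hadd hsmul hg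
  rcases Complex.ringHom_eq_id_or_conj_of_continuous hτ with h1 | h1
  · left
    subst h1
    let B : X →ₗ[ℂ] Y := { toFun := A, map_add' := hadd, map_smul' := hsmul }
    let E : X ≃ₗ[ℂ] Y := LinearEquiv.ofBijective B hA
    refine ⟨E.toContinuousLinearEquivOfContinuous hcont, hAx, ?_⟩
    intro T y
    obtain ⟨a, rfl⟩ := (E.toContinuousLinearEquivOfContinuous hcont).surjective y
    rw [ContinuousLinearEquiv.symm_apply_apply]
    exact hAT T a
  · right
    subst h1
    let B : X →ₛₗ[starRingEnd ℂ] Y := { toFun := A, map_add' := hadd, map_smul' := hsmul }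
    let E : X ≃ₛₗ[starRingEnd ℂ] Y := LinearEquiv.ofBijective B hA
    refine ⟨E.toContinuousLinearEquivOfContinuous hcont, hAx, ?_⟩
    intro T y
    obtain ⟨a, rfl⟩ := (E.toContinuousLinearEquivOfContinuous hcont).surjective y
    rw [ContinuousLinearEquiv.symm_apply_apply]
    exact hAT T a

/-- injectivity is automatic -/
theorem injective_of_pres {X Y : Type*}
    [NormedAddCommGroup X] [NormedSpace ℂ X] [CompleteSpace X]
    [NormedAddCommGroup Y] [NormedSpace ℂ Y]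
    {x₀ : X} {y₀ : Y} (hx₀ : x₀ ≠ 0) (φ : (X →L[ℂ] X) → (Y →L[ℂ] Y))
    (h : ∀ T S : X →L[ℂ] X, innerRadius (φ T - φ S) y₀ = innerRadius (T - S) x₀) :
    Function.Injective φ := by
  intro T S hTS
  by_contra hne
  obtain ⟨v, hv⟩ : ∃ v, (S - T) v ≠ 0 := by
    by_contra hc
    push Not at hc
    exact hne (by
      ext v
      have := hc v
      rw [sub_apply, sub_eq_zero] at this
      exact this.symm)
  obtain ⟨l, hl, hlv⟩ := SeparatingDual.exists_eq_one_ne_zero_of_ne_zero_pair (R := ℂ) hx₀ hv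
  have hlx : l x₀ ≠ 0 := by rw [hl]; exact one_ne_zero
  obtain ⟨R, hR, hR1, -⟩ := exists_unit_move (l1 := l) (m1 := -(l.comp (S - T))) (l2 := 0)
    ⟨x₀, rfl, hlx⟩ ⟨v, rfl, by
      show -(l ((S - T) v)) ≠ 0
      exact neg_ne_zero.mpr hlv⟩
  have h1 : innerRadius (S - (T - R)) x₀ = 0 := by
    refine bad_of_not_range fun u hu => hlx ?_
    rw [← hu]
    have e1 : (S - (T - R)) u = (S - T) u + R u := by
      show S u - (T u - R u) = (S u - T u) + R u
      abel
    rw [e1, map_add, hR1]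
    show l ((S - T) u) + -(l ((S - T) u)) = 0
    rw [add_neg_cancel]
  have h2 : innerRadius (T - (T - R)) x₀ ≠ 0 := by
    rw [sub_sub_cancel]
    exact good_of_isUnit hR x₀
  apply h2
  rw [← h T (T - R), hTS, h S (T - R), h1]

/-- **Main theorem**, general form. -/
theorem main_general {X Y : Type*}
    [NormedAddCommGroup X] [NormedSpace ℂ X] [CompleteSpace X]
    [NormedAddCommGroup Y] [NormedSpace ℂ Y] [CompleteSpace Y]
    {x₀ : X} {y₀ : Y} (hx₀ : x₀ ≠ 0) (hy₀ : y₀ ≠ 0)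
    (φ : (X →L[ℂ] X) → (Y →L[ℂ] Y)) (hφ : Function.Surjective φ)
    (h : ∀ T S : X →L[ℂ] X, innerRadius (φ T - φ S) y₀ = innerRadius (T - S) x₀) :
    ∃ α : ℂ, ‖α‖ = 1 ∧
      ((∃ A : X ≃L[ℂ] Y, A x₀ = y₀ ∧
          ∀ (T : X →L[ℂ] X) (y : Y), φ T y = φ 0 y + α • A (T (A.symm y))) ∨
       (∃ A : X ≃SL[starRingEnd ℂ] Y, A x₀ = y₀ ∧
          ∀ (T : X →L[ℂ] X) (y : Y), φ T y = φ 0 y + α • A (T (A.symm y)))) := by
  have hinj := injective_of_pres hx₀ φ h
  obtain ⟨α, hα, hA⟩ := main hx₀ hy₀ (fun T => φ T - φ 0)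
    ⟨fun T S hTS => hinj (sub_left_injective hTS), fun T => by
      obtain ⟨S, hS⟩ := hφ (T + φ 0)
      exact ⟨S, by simp [hS]⟩⟩ (sub_self _)
    (fun T S => by rw [← h T S]; congr 1; abel)
  refine ⟨α, hα, ?_⟩
  rcases hA with ⟨A, hA1, hA2⟩ | ⟨A, hA1, hA2⟩
  · left
    refine ⟨A, hA1, fun T y => ?_⟩
    rw [← hA2]
    show φ T y = φ 0 y + (φ T y - φ 0 y)
    abel
  · right
    refine ⟨A, hA1, fun T y => ?_⟩
    rw [← hA2]
    show φ T y = φ 0 y + (φ T y - φ 0 y)
    abel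

end Pool.Agent.Helper95.Iota
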