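import Pool.Agent.Helper95.IotaQ

set_option autoImplicit false

namespace Pool.Agent.Helper95.Iota

open Metric Set
open scoped NNReal ENNReal

section

variable {X Y : Type*} [NormedAddCommGroup X] [NormedSpace ℂ X] [CompleteSpace X]
  [NormedAddCommGroup Y] [NormedSpace ℂ Y] [CompleteSpace Y]

/-- the hypotheses, in dimensions at least two -/
structure Setup (x : X) (y : Y) (φ : (X →L[ℂ] X) ≃ (Y →L[ℂ] Y)) : Prop where
  hx : x ≠ 0
  hy : y ≠ 0
  zero : φ 0 = 0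
  pres : ∀ A B, innerRadius (φ A - φ B) y = innerRadius (A - B) x
  dimX : ∃ w : X, ∀ c : ℂ, w ≠ c • x
  dimY : ∃ w : Y, ∀ c : ℂ, w ≠ c • y

variable {x : X} {y : Y} {φ : (X →L[ℂ] X) ≃ (Y →L[ℂ] Y)}

omit [CompleteSpace X] [CompleteSpace Y] in
theorem Setup.symm (S : Setup x y φ) : Setup y x φ.symm where
  hx := S.hy
  hy := S.hx
  zero := by rw [Equiv.symm_apply_eq]; exact S.zero.symm
  pres := fun A B => by
    have := S.pres (φ.symm A) (φ.symm B)
    simpa using this.symm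
  dimX := S.dimY
  dimY := S.dimX

omit [CompleteSpace X] [CompleteSpace Y] in
theorem Q_map (pres : ∀ A B, innerRadius (φ A - φ B) y = innerRadius (A - B) x)
    {A B C : X →L[ℂ] X} (h : Q x A B C) : Q y (φ A) (φ B) (φ C) := by
  obtain ⟨h1, h2, h3, h4, h5⟩ := h
  refine ⟨φ.injective.ne h1, φ.injective.ne h2, φ.injective.ne h3, by rw [pres]; exact h4, ?_⟩
  intro U hA hB
  obtain ⟨U, rfl⟩ := φ.surjective U
  rw [pres] at hA hB ⊢
  exact h5 U hA hB

omit [CompleteSpace X] in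
theorem Setup.exists_L_aux (S : Setup x y φ) (A : X →L[ℂ] X) {f : X →L[ℂ] ℂ} (hf : f x ≠ 0) :
    ∃ g : Y →L[ℂ] ℂ, g y ≠ 0 ∧ φ (A + rk x f) = φ A + rk y g ∧
      ∀ c : ℂ, c ≠ 0 → c ≠ 1 → ∃ c' : ℂ, φ (A + rk x (c • f)) = φ A + rk y (c' • g) := by
  obtain ⟨g, -, hg, h1, -⟩ := of_Q S.hy S.dimY
    (Q_map S.pres (Q_of S.hx (A := A) hf (c := 2) two_ne_zero (by norm_num)))
  refine ⟨g, hg, h1, ?_⟩
  intro c h0 hc1
  obtain ⟨g', c', hg', h1', h2'⟩ := of_Q S.hy S.dimY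
    (Q_map S.pres (Q_of S.hx (A := A) hf (c := c) h0 hc1))
  refine ⟨c', ?_⟩
  have : g' = g := by
    apply rk_injective S.hy
    rw [h1] at h1'
    exact (add_left_cancel h1').symm
  rw [rk_smul, rk_smul, h2', this]

omit [CompleteSpace X] in
theorem Setup.exists_L (S : Setup x y φ) (A : X →L[ℂ] X) (f : X →L[ℂ] ℂ) :
    ∃ g : Y →L[ℂ] ℂ, φ (A + rk x f) = φ A + rk y g := by
  by_cases hf : f x = 0
  · obtain ⟨e, he⟩ := SeparatingDual.exists_eq_one (R := ℂ) S.hx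
    obtain ⟨g1, -, h1, -⟩ := S.exists_L_aux A (f := f + e) (by simp [hf, he])
    obtain ⟨g2, -, h2, -⟩ := S.exists_L_aux (A + rk x (f + e)) (f := -e) (by simp [he])
    refine ⟨g1 + g2, ?_⟩
    rw [rk_add, ← add_assoc, ← h1, ← h2, rk_add, rk_neg]
    congr 1
    abel
  · obtain ⟨g, -, h, -⟩ := S.exists_L_aux A hf
    exact ⟨g, h⟩

/-- the map `L_A` on functionals -/
noncomputable def Setup.L (S : Setup x y φ) (A : X →L[ℂ] X) (f : X →L[ℂ] ℂ) : Y →L[ℂ] ℂ :=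
  Classical.choose (S.exists_L A f)

omit [CompleteSpace X] in
theorem Setup.L_spec (S : Setup x y φ) (A : X →L[ℂ] X) (f : X →L[ℂ] ℂ) :
    φ (A + rk x f) = φ A + rk y (S.L A f) :=
  Classical.choose_spec (S.exists_L A f)

omit [CompleteSpace X] in
theorem Setup.L_unique (S : Setup x y φ) {A : X →L[ℂ] X} {f : X →L[ℂ] ℂ} {g : Y →L[ℂ] ℂ}
    (h : φ (A + rk x f) = φ A + rk y g) : S.L A f = g := by
  apply rk_injective S.hy
  rw [S.L_spec] at h
  exact add_left_cancel h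

theorem Setup.L_symm_L (S : Setup x y φ) (A : X →L[ℂ] X) (f : X →L[ℂ] ℂ) :
    S.symm.L (φ A) (S.L A f) = f := by
  apply S.symm.L_unique
  rw [← S.L_spec]
  simp

theorem Setup.L_L_symm (S : Setup x y φ) (A : X →L[ℂ] X) (g : Y →L[ℂ] ℂ) :
    S.L A (S.symm.L (φ A) g) = g := by
  apply S.L_unique
  have := S.symm.L_spec (φ A) g
  rw [Equiv.symm_apply_eq] at this
  rw [this]
  simp

theorem Setup.L_injective (S : Setup x y φ) (A : X →L[ℂ] X) : Function.Injective (S.L A) :=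
  Function.LeftInverse.injective (S.L_symm_L A)

theorem Setup.L_surjective (S : Setup x y φ) (A : X →L[ℂ] X) : Function.Surjective (S.L A) :=
  Function.RightInverse.surjective (S.L_L_symm A)

omit [CompleteSpace X] in
theorem Setup.L_zero (S : Setup x y φ) (A : X →L[ℂ] X) : S.L A 0 = 0 := by
  apply S.L_unique
  rw [rk_zero, rk_zero, add_zero, add_zero]

omit [CompleteSpace X] in
theorem Setup.L_norm (S : Setup x y φ) (A : X →L[ℂ] X) (f : X →L[ℂ] ℂ) :
    ‖S.L A f y‖ = ‖f x‖ := by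
  have h1 := S.pres (A + rk x f) A
  rw [S.L_spec, add_sub_cancel_left, add_sub_cancel_left, innerRadius_rk S.hy,
    innerRadius_rk S.hx] at h1
  have h2 : ‖S.L A f y‖₊ = ‖f x‖₊ := by exact_mod_cast h1
  exact congrArg NNReal.toReal h2

omit [CompleteSpace X] in
theorem Setup.L_ne (S : Setup x y φ) (A : X →L[ℂ] X) {f : X →L[ℂ] ℂ} (hf : f x ≠ 0) :
    S.L A f y ≠ 0 := by
  rw [← norm_ne_zero_iff, S.L_norm]
  simpa using hf

/-- the scalar `λ_{A,f}(c)` -/
noncomputable def Setup.lamf (S : Setup x y φ) (A : X →L[ℂ] X) (f : X →L[ℂ] ℂ) (c : ℂ) : ℂ :=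
  S.L A (c • f) y / S.L A f y

omit [CompleteSpace X] in
theorem Setup.L_smul_aux (S : Setup x y φ) (A : X →L[ℂ] X) {f : X →L[ℂ] ℂ} (hf : f x ≠ 0)
    (c : ℂ) : S.L A (c • f) = S.lamf A f c • S.L A f := by
  have key : ∃ c' : ℂ, S.L A (c • f) = c' • S.L A f := by
    by_cases h0 : c = 0
    · exact ⟨0, by rw [h0, zero_smul ℂ f, S.L_zero, zero_smul ℂ (S.L A f)]⟩
    by_cases h1 : c = 1
    · exact ⟨1, by rw [h1, one_smul, one_smul]⟩
    obtain ⟨g, -, hg, h⟩ := S.exists_L_aux A hf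
    obtain ⟨c', hc'⟩ := h c h0 h1
    refine ⟨c', ?_⟩
    rw [S.L_unique hg, S.L_unique hc']
  obtain ⟨c', hc'⟩ := key
  have : S.lamf A f c = c' := by
    rw [Setup.lamf, hc']
    show c' * S.L A f y / S.L A f y = c'
    rw [mul_div_assoc, div_self (S.L_ne A hf), mul_one]
  rw [this, hc']

omit [CompleteSpace X] in
theorem isUnit_injective {R : X →L[ℂ] X} (hR : IsUnit R) {v w : X} (h : R v = R w) : v = w := by
  obtain ⟨u, rfl⟩ := hR
  have h1 : ∀ t : X, (↑u⁻¹ : X →L[ℂ] X) ((u : X →L[ℂ] X) t) = t := by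
    intro t
    have := congrArg (fun T => T t) u.inv_mul
    exact this
  rw [← h1 v, ← h1 w, h]

omit [CompleteSpace X] in
theorem isUnit_surjective {R : X →L[ℂ] X} (hR : IsUnit R) (w : X) : ∃ v, R v = w := by
  obtain ⟨u, rfl⟩ := hR
  refine ⟨(↑u⁻¹ : X →L[ℂ] X) w, ?_⟩
  have := congrArg (fun T => T w) u.mul_inv
  exact this

omit [CompleteSpace X] in
theorem bad_of_unit {R : X →L[ℂ] X} (hR : IsUnit R) {a : X} (ha : R a = x)
    {h : X →L[ℂ] ℂ} (hh : h a = -1) : innerRadius (R + rk x h) x = 0 := by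
  refine bad_of_not_range fun v hv => ?_
  have h1 : R v + h v • x = x := hv
  have h2 : R v = R ((1 - h v) • a) := by
    rw [map_smul, ha, sub_smul, one_smul]
    exact eq_sub_of_add_eq h1
  have h3 := isUnit_injective hR h2
  have h4 := congrArg h h3
  rw [map_smul, hh, smul_eq_mul] at h4
  have h5 : (1 : ℂ) = 0 := by linear_combination h4
  exact one_ne_zero h5

/-- Step 3, the basic relation (H) -/
theorem Setup.H (S : Setup x y φ) {A B : X →L[ℂ] X} (hu : IsUnit (A - B)) {a : X}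
    (ha : (A - B) a = x) :
    ∃ a' : Y, (φ A - φ B) a' = y ∧
      ∀ f g : X →L[ℂ] ℂ, f a - g a = -1 → S.L A f a' - S.L B g a' = -1 := by
  have hgood : innerRadius (φ A - φ B) y ≠ 0 := by
    rw [S.pres]; exact good_of_isUnit hu x
  obtain ⟨r, hr, s, hs⟩ := good_iff.mp hgood
  refine ⟨s 0, ?_, ?_⟩
  · have := hs.2 0 (by simpa using hr)
    simpa using this
  · intro f g hfg
    have h1 : innerRadius (A - B + rk x (f - g)) x = 0 := bad_of_unit hu ha (by simpa using hfg)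
    have h2 := S.pres (A + rk x f) (B + rk x g)
    have e1 : A + rk x f - (B + rk x g) = A - B + rk x (f - g) := by rw [rk_sub]; abel
    have e2 : φ (A + rk x f) - φ (B + rk x g) = φ A - φ B + rk y (S.L A f - S.L B g) := by
      rw [S.L_spec, S.L_spec, rk_sub]; abel
    rw [e1, e2, h1] at h2
    by_contra hne
    refine good_add_rk hr hs (S.L A f - S.L B g) ?_ h2
    intro h3
    apply hne
    have : S.L A f (s 0) - S.L B g (s 0) = (S.L A f - S.L B g) (s 0) := rfl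
    rw [this]
    linear_combination h3

omit [CompleteSpace X] in
theorem ne_zero_of_apply {R : X →L[ℂ] X} {a : X} (hx : x ≠ 0) (ha : R a = x) : a ≠ 0 := by
  rintro rfl
  exact hx (by rw [← ha, map_zero])

/-- consequences of (H): well-definedness -/
theorem Setup.H2 (S : Setup x y φ) {A B : X →L[ℂ] X} (hu : IsUnit (A - B)) {a : X}
    (ha : (A - B) a = x) :
    ∃ a' : Y, (φ A - φ B) a' = y ∧
      (∀ f g : X →L[ℂ] ℂ, f a - g a = -1 → S.L A f a' - S.L B g a' = -1) ∧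
      (∀ f1 f2 : X →L[ℂ] ℂ, f1 a = f2 a → S.L A f1 a' = S.L A f2 a') ∧
      (∀ f1 f2 : X →L[ℂ] ℂ, f1 a = f2 a → S.L B f1 a' = S.L B f2 a') := by
  obtain ⟨a', h1, h2⟩ := S.H hu ha
  have ha0 : a ≠ 0 := ne_zero_of_apply S.hx ha
  obtain ⟨e, he⟩ := SeparatingDual.exists_eq_one (R := ℂ) ha0
  refine ⟨a', h1, h2, ?_, ?_⟩
  · intro f1 f2 h
    have k1 := h2 f1 ((f1 a + 1) • e) (by simp [he])
    have k2 := h2 f2 ((f1 a + 1) • e) (by simp [he, h])
    linear_combination k1 - k2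
  · intro f1 f2 h
    have k1 := h2 ((f1 a - 1) • e) f1 (by simp [he])
    have k2 := h2 ((f1 a - 1) • e) f2 (by simp [he, h])
    linear_combination k2 - k1

omit [CompleteSpace X] [CompleteSpace Y] in
theorem Setup.exists_good_vector (S : Setup x y φ) (A : X →L[ℂ] X) {a : X} (ha : a ≠ 0) :
    ∃ B : X →L[ℂ] X, IsUnit (A - B) ∧ (A - B) a = x := by
  obtain ⟨R, hR⟩ := SeparatingDual.exists_continuousLinearEquiv_apply_eq (R := ℂ) ha S.hx
  refine ⟨A - (R : X →L[ℂ] X), ?_, ?_⟩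
  · rw [sub_sub_cancel]
    exact ⟨ContinuousLinearEquiv.toUnit R, rfl⟩
  · rw [sub_sub_cancel]; exact hR

theorem Setup.lamf_eq_of_ind (S : Setup x y φ) (A : X →L[ℂ] X) {f e : X →L[ℂ] ℂ}
    (hf : f x ≠ 0) (he : e x ≠ 0) (h : Ind f e) : S.lamf A f = S.lamf A e := by
  obtain ⟨⟨u, hu1, hu2⟩, ⟨w, hw1, hw2⟩⟩ := h
  have hfa : f ((f u)⁻¹ • u + (e w)⁻¹ • w) = 1 := by simp [hw1, hu2]
  have hea : e ((f u)⁻¹ • u + (e w)⁻¹ • w) = 1 := by simp [hu1, hw2]
  generalize (f u)⁻¹ • u + (e w)⁻¹ • w = a at hfa hea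
  have ha0 : a ≠ 0 := by rintro rfl; simp at hfa
  obtain ⟨B, hB1, hB2⟩ := S.exists_good_vector A ha0
  obtain ⟨a', -, h2, h3, -⟩ := S.H2 hB1 hB2
  funext c
  have k1 : S.L A (c • f) a' = S.L A (c • e) a' := h3 _ _ (by simp [hfa, hea])
  have k2 : S.L A f a' = S.L A e a' := h3 _ _ (by rw [hfa, hea])
  have k3 : S.lamf A e (-1) * S.L A e a' = -1 := by
    have k4 := h2 ((-1 : ℂ) • e) 0 (by simp [hea])
    rw [S.L_zero, S.L_smul_aux A he] at k4
    simpa using k4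
  have k5 : S.L A e a' ≠ 0 := by
    intro h0; rw [h0] at k3; simp at k3
  rw [S.L_smul_aux A he, S.L_smul_aux A hf] at k1
  have k6 : S.lamf A f c * S.L A f a' = S.lamf A e c * S.L A e a' := k1
  rw [k2] at k6
  exact mul_right_cancel₀ k5 k6

theorem Setup.lamf_eq (S : Setup x y φ) (A : X →L[ℂ] X) {f e : X →L[ℂ] ℂ}
    (hf : f x ≠ 0) (he : e x ≠ 0) : S.lamf A f = S.lamf A e := by
  by_cases h : Ind f e
  · exact S.lamf_eq_of_ind A hf he h
  · obtain ⟨w, hw⟩ := S.dimX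
    have hz : w - (e w / e x) • x ≠ 0 := sub_ne_zero.mpr (hw _)
    have hze : e (w - (e w / e x) • x) = 0 := by simp [he]
    generalize w - (e w / e x) • x = z at hz hze
    have hzf : f z = 0 := by
      by_contra hzf
      apply h
      refine ⟨⟨z, hze, hzf⟩, ⟨x - (f x / f z) • z, by simp [hzf], by simp [hze, he]⟩⟩
    obtain ⟨g, hg1, hg2⟩ := SeparatingDual.exists_eq_one_ne_zero_of_ne_zero_pair (R := ℂ) S.hx hz
    have hgx : g x ≠ 0 := by rw [hg1]; exact one_ne_zero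
    rw [S.lamf_eq_of_ind A hf hgx, S.lamf_eq_of_ind A hgx he]
    · exact ⟨⟨z, hze, hg2⟩, ⟨x - (g x / g z) • z, by simp [hg2], by simp [hze, he]⟩⟩
    · exact ⟨⟨x - (g x / g z) • z, by simp [hg2], by simp [hzf, hf]⟩, ⟨z, hzf, hg2⟩⟩

/-- a fixed functional with value one at `x` -/
noncomputable def Setup.e0 (S : Setup x y φ) : X →L[ℂ] ℂ :=
  Classical.choose (SeparatingDual.exists_eq_one (R := ℂ) S.hx)

omit [CompleteSpace X] [CompleteSpace Y] in
theorem Setup.e0_apply (S : Setup x y φ) : S.e0 x = 1 :=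
  Classical.choose_spec (SeparatingDual.exists_eq_one (R := ℂ) S.hx)

omit [CompleteSpace X] [CompleteSpace Y] in
theorem Setup.e0_ne (S : Setup x y φ) : S.e0 x ≠ 0 := by rw [S.e0_apply]; exact one_ne_zero

noncomputable def Setup.lam (S : Setup x y φ) (A : X →L[ℂ] X) (c : ℂ) : ℂ := S.lamf A S.e0 c

theorem Setup.L_smul_of_ne (S : Setup x y φ) (A : X →L[ℂ] X) {f : X →L[ℂ] ℂ} (hf : f x ≠ 0)
    (c : ℂ) : S.L A (c • f) = S.lam A c • S.L A f := by
  rw [S.L_smul_aux A hf, S.lamf_eq A hf S.e0_ne]; rfl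

theorem smul_cancel_apply {Z : Type*} [NormedAddCommGroup Z] [NormedSpace ℂ Z]
    {g : Z →L[ℂ] ℂ} {z : Z} (hg : g z ≠ 0) {c d : ℂ} (h : c • g = d • g) : c = d := by
  have := congrArg (fun k => k z) h
  exact mul_right_cancel₀ hg this

theorem Setup.lam_zero (S : Setup x y φ) (A : X →L[ℂ] X) : S.lam A 0 = 0 := by
  apply smul_cancel_apply (S.L_ne A S.e0_ne)
  rw [← S.L_smul_of_ne A S.e0_ne, zero_smul ℂ S.e0, S.L_zero, zero_smul ℂ (S.L A S.e0)]

theorem Setup.lam_one (S : Setup x y φ) (A : X →L[ℂ] X) : S.lam A 1 = 1 := by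
  apply smul_cancel_apply (S.L_ne A S.e0_ne)
  rw [← S.L_smul_of_ne A S.e0_ne, one_smul, one_smul]

theorem Setup.lam_mul (S : Setup x y φ) (A : X →L[ℂ] X) (c d : ℂ) :
    S.lam A (c * d) = S.lam A c * S.lam A d := by
  by_cases hd : d = 0
  · rw [hd, mul_zero, S.lam_zero, mul_zero]
  · apply smul_cancel_apply (S.L_ne A S.e0_ne)
    have h1 : (d • S.e0) x ≠ 0 := by simpa [S.e0_apply] using hd
    rw [← S.L_smul_of_ne A S.e0_ne, mul_smul, S.L_smul_of_ne A h1, S.L_smul_of_ne A S.e0_ne,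
      smul_smul]

theorem Setup.lam_injective (S : Setup x y φ) (A : X →L[ℂ] X) : Function.Injective (S.lam A) := by
  intro c d h
  have h1 : S.L A (c • S.e0) = S.L A (d • S.e0) := by
    rw [S.L_smul_of_ne A S.e0_ne, S.L_smul_of_ne A S.e0_ne, h]
  exact smul_cancel_apply S.e0_ne (S.L_injective A h1)

theorem Setup.lam_neg_one (S : Setup x y φ) (A : X →L[ℂ] X) : S.lam A (-1) = -1 := by
  have h1 : S.lam A (-1) * S.lam A (-1) = 1 := by
    rw [← S.lam_mul, neg_mul_neg, one_mul, S.lam_one]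
  rcases mul_self_eq_one_iff.mp h1 with h2 | h2
  · exfalso
    have h3 : (-1 : ℂ) = 1 := S.lam_injective A (h2.trans (S.lam_one A).symm)
    norm_num at h3
  · exact h2

theorem Setup.lam_norm (S : Setup x y φ) (A : X →L[ℂ] X) (c : ℂ) : ‖S.lam A c‖ = ‖c‖ := by
  have h1 := S.L_norm A (c • S.e0)
  rw [S.L_smul_of_ne A S.e0_ne] at h1
  have h2 : ‖S.lam A c * S.L A S.e0 y‖ = ‖c * S.e0 x‖ := h1
  rw [norm_mul, norm_mul, S.L_norm, S.e0_apply, norm_one, mul_one, mul_one] at h2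
  exact h2

/-- Step 3: the values of `L_A f` and `L_B g` at `a'` -/
theorem Setup.H3 (S : Setup x y φ) {A B : X →L[ℂ] X} (hu : IsUnit (A - B)) {a : X}
    (ha : (A - B) a = x) :
    ∃ a' : Y, (φ A - φ B) a' = y ∧
      (∀ f g : X →L[ℂ] ℂ, f a - g a = -1 → S.L A f a' - S.L B g a' = -1) ∧
      (∀ f : X →L[ℂ] ℂ, S.L A f a' = S.lam A (f a)) ∧
      (∀ g : X →L[ℂ] ℂ, S.L B g a' = S.lam B (g a)) := by
  obtain ⟨a', h1, h2, h3, h4⟩ := S.H2 hu ha
  have ha0 : a ≠ 0 := ne_zero_of_apply S.hx ha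
  obtain ⟨e, he, hex⟩ := SeparatingDual.exists_eq_one_ne_zero_of_ne_zero_pair (R := ℂ) ha0 S.hx
  have k1 : S.L A e a' = 1 := by
    have k := h2 ((-1 : ℂ) • e) 0 (by simp [he])
    rw [S.L_zero, S.L_smul_of_ne A hex, S.lam_neg_one] at k
    simpa using k
  have k2 : S.L B e a' = 1 := by
    have k := h2 0 e (by simp [he])
    rw [S.L_zero] at k
    simpa using k
  refine ⟨a', h1, h2, ?_, ?_⟩
  · intro f
    rw [h3 f (f a • e) (by simp [he]), S.L_smul_of_ne A hex]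
    show S.lam A (f a) * S.L A e a' = _
    rw [k1, mul_one]
  · intro f
    rw [h4 f (f a • e) (by simp [he]), S.L_smul_of_ne B hex]
    show S.lam B (f a) * S.L B e a' = _
    rw [k2, mul_one]

theorem Setup.lam_add_one_aux (S : Setup x y φ) {A B : X →L[ℂ] X} (hu : IsUnit (A - B)) (s : ℂ) :
    S.lam B (s + 1) = S.lam A s + 1 := by
  obtain ⟨a, ha⟩ := isUnit_surjective hu x
  obtain ⟨a', -, h2, h3, h4⟩ := S.H3 hu ha
  have ha0 : a ≠ 0 := ne_zero_of_apply S.hx ha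
  obtain ⟨e, he⟩ := SeparatingDual.exists_eq_one (R := ℂ) ha0
  have k := h2 (s • e) ((s + 1) • e) (by simp [he])
  rw [h3, h4] at k
  simp only [_root_.smul_apply, smul_eq_mul, he, mul_one] at k
  linear_combination -k

/-- large scalars -/
theorem exists_scalar (A C : X →L[ℂ] X) (hx : x ≠ 0) :
    ∃ κ : ℂ, κ ≠ 0 ∧ IsUnit (A - κ • (1 : X →L[ℂ] X)) ∧ IsUnit (C - κ • (1 : X →L[ℂ] X)) := by
  have : Nontrivial X := ⟨x, 0, hx⟩
  refine ⟨((‖A‖ + ‖C‖ + 1 : ℝ) : ℂ), ?_, ?_, ?_⟩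
  · have h1 : (0 : ℝ) < ‖A‖ + ‖C‖ + 1 := by positivity
    exact_mod_cast h1.ne'
  · have h : ((‖A‖ + ‖C‖ + 1 : ℝ) : ℂ) ∈ resolventSet ℂ A := by
      apply spectrum.mem_resolventSet_of_norm_lt
      rw [Complex.norm_real, Real.norm_of_nonneg (by positivity)]
      linarith [norm_nonneg C]
    rw [spectrum.mem_resolventSet_iff, Algebra.algebraMap_eq_smul_one] at h
    have := h.neg
    rwa [neg_sub] at this
  · have h : ((‖A‖ + ‖C‖ + 1 : ℝ) : ℂ) ∈ resolventSet ℂ C := by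
      apply spectrum.mem_resolventSet_of_norm_lt
      rw [Complex.norm_real, Real.norm_of_nonneg (by positivity)]
      linarith [norm_nonneg A]
    rw [spectrum.mem_resolventSet_iff, Algebra.algebraMap_eq_smul_one] at h
    have := h.neg
    rwa [neg_sub] at this

theorem Setup.lam_const (S : Setup x y φ) (A C : X →L[ℂ] X) : S.lam A = S.lam C := by
  obtain ⟨κ, -, h1, h2⟩ := exists_scalar A C S.hx
  have h1' : IsUnit (κ • (1 : X →L[ℂ] X) - A) := by
    have := h1.neg; rwa [neg_sub] at this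
  have h2' : IsUnit (κ • (1 : X →L[ℂ] X) - C) := by
    have := h2.neg; rwa [neg_sub] at this
  funext s
  have k1 := S.lam_add_one_aux h1' (s - 1)
  have k2 := S.lam_add_one_aux h2' (s - 1)
  rw [sub_add_cancel] at k1 k2
  rw [k1, k2]

theorem Setup.lam_add_one (S : Setup x y φ) (A : X →L[ℂ] X) (s : ℂ) :
    S.lam A (s + 1) = S.lam A s + 1 := by
  obtain ⟨κ, -, h1, -⟩ := exists_scalar A A S.hx
  rw [S.lam_const A (κ • (1 : X →L[ℂ] X))]
  have := S.lam_add_one_aux h1 s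
  rw [this, S.lam_const A (κ • (1 : X →L[ℂ] X))]

/-- the field endomorphism `τ` -/
noncomputable def Setup.τ (S : Setup x y φ) : ℂ →+* ℂ where
  toFun := S.lam 0
  map_one' := S.lam_one 0
  map_mul' := S.lam_mul 0
  map_zero' := S.lam_zero 0
  map_add' := by
    intro p q
    by_cases hq : q = 0
    · rw [hq, add_zero, S.lam_zero, add_zero]
    · have h1 : p + q = (p / q + 1) * q := by field_simp
      have h2 : p = (p / q) * q := by field_simp
      rw [h1, S.lam_mul, S.lam_add_one, add_mul, one_mul, ← S.lam_mul, ← h2]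

theorem Setup.lam_eq_τ (S : Setup x y φ) (A : X →L[ℂ] X) (c : ℂ) : S.lam A c = S.τ c := by
  rw [S.lam_const A 0]; rfl

theorem Setup.τ_norm (S : Setup x y φ) (c : ℂ) : ‖S.τ c‖ = ‖c‖ := S.lam_norm 0 c

theorem Setup.τ_continuous (S : Setup x y φ) : Continuous S.τ :=
  (AddMonoidHomClass.isometry_of_norm S.τ S.τ_norm).continuous

/-- Step 3, final form -/
theorem Setup.H4 (S : Setup x y φ) {A B : X →L[ℂ] X} (hu : IsUnit (A - B)) {a : X}
    (ha : (A - B) a = x) :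
    ∃ a' : Y, (φ A - φ B) a' = y ∧
      (∀ f : X →L[ℂ] ℂ, S.L A f a' = S.τ (f a)) ∧
      (∀ g : X →L[ℂ] ℂ, S.L B g a' = S.τ (g a)) := by
  obtain ⟨a', h1, -, h3, h4⟩ := S.H3 hu ha
  exact ⟨a', h1, fun f => by rw [h3, S.lam_eq_τ], fun f => by rw [h4, S.lam_eq_τ]⟩

end

end Pool.Agent.Helper95.Iota
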