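import Pool.Agent.Helper95.IotaBasic

set_option autoImplicit false

namespace Pool.Agent.Helper95.Iota

open Metric Set
open scoped NNReal ENNReal

section Functionals

variable {X : Type*} [NormedAddCommGroup X] [NormedSpace ℂ X]

theorem exists_three {x y z : X} (hx : x ≠ 0) (hy : y ≠ 0) (hz : z ≠ 0) :
    ∃ e : X →L[ℂ] ℂ, e x = 1 ∧ e y ≠ 0 ∧ e z ≠ 0 := by
  suffices h : ∃ e : X →L[ℂ] ℂ, e x ≠ 0 ∧ e y ≠ 0 ∧ e z ≠ 0 by
    obtain ⟨e, h1, h2, h3⟩ := h
    exact ⟨(e x)⁻¹ • e, by simp [h1], by simp [h1, h2], by simp [h1, h3]⟩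
  obtain ⟨f, hf1, hf2⟩ := SeparatingDual.exists_eq_one_ne_zero_of_ne_zero_pair (R := ℂ) hx hy
  by_cases hf3 : f z = 0
  · obtain ⟨g, hg⟩ := SeparatingDual.exists_eq_one (R := ℂ) hz
    obtain ⟨t, ht⟩ := Infinite.exists_notMem_finset
      ({0, -(1 / g x), -(f y / g y)} : Finset ℂ)
    simp only [Finset.mem_insert, Finset.mem_singleton, not_or] at ht
    obtain ⟨t0, t1, t2⟩ := ht
    refine ⟨f + t • g, ?_, ?_, ?_⟩
    · show f x + t * g x ≠ 0
      rw [hf1]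
      intro h
      by_cases hgx : g x = 0
      · rw [hgx] at h; simp at h
      · apply t1
        field_simp
        linear_combination h
    · show f y + t * g y ≠ 0
      intro h
      by_cases hgy : g y = 0
      · rw [hgy] at h; simp at h; exact hf2 h
      · apply t2
        field_simp
        linear_combination h
    · show f z + t * g z ≠ 0
      rw [hf3, hg]
      simpa using t0
  · exact ⟨f, by rw [hf1]; exact one_ne_zero, hf2, hf3⟩

theorem exists_pair {x y : X} (hx : x ≠ 0) (h : ∀ c : ℂ, y ≠ c • x) (a b : ℂ) :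
    ∃ e : X →L[ℂ] ℂ, e x = a ∧ e y = b := by
  let L : (ℂ × ℂ) →ₗ[ℂ] X :=
    (LinearMap.toSpanSingleton ℂ X x).coprod (LinearMap.toSpanSingleton ℂ X y)
  have hL : ∀ p q : ℂ, L (p, q) = p • x + q • y := by
    intro p q; simp [L]
  have hinj : Function.Injective L := by
    rw [← LinearMap.ker_eq_bot, LinearMap.ker_eq_bot']
    rintro ⟨p, q⟩ h0
    rw [hL] at h0
    have hq : q = 0 := by
      by_contra hq
      apply h (-(q⁻¹ * p))
      have : y = q⁻¹ • (q • y) := by rw [smul_smul, inv_mul_cancel₀ hq, one_smul]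
      rw [this, eq_neg_of_add_eq_zero_right h0]
      module
    subst hq
    simp only [zero_smul, add_zero] at h0
    rcases smul_eq_zero.mp h0 with h1 | h1
    · simp [h1]
    · exact absurd h1 hx
  obtain ⟨e, he⟩ := (SeparatingDual.dualMap_surjective_iff (R := ℂ) (f := L)).mpr hinj
    ((LinearMap.toSpanSingleton ℂ ℂ a).coprod (LinearMap.toSpanSingleton ℂ ℂ b))
  refine ⟨e, ?_, ?_⟩
  · have := congrArg (fun k => k (1, 0)) he
    simpa [hL] using this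
  · have := congrArg (fun k => k (0, 1)) he
    simpa [hL] using this

theorem exists_smul_of_ker {f g : X →L[ℂ] ℂ} (h : ∀ v, g v = 0 → f v = 0) :
    ∃ c : ℂ, f = c • g := by
  by_cases hg : g = 0
  · refine ⟨0, ?_⟩
    ext v
    simp [h v (by simp [hg])]
  · obtain ⟨w, hw⟩ : ∃ w, g w ≠ 0 := by
      by_contra hc
      push Not at hc
      exact hg (by ext v; simpa using hc v)
    refine ⟨f w / g w, ?_⟩
    ext v
    have h1 := h (v - (g v / g w) • w) (by simp [hw])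
    simp only [map_sub, map_smul, smul_eq_mul, sub_eq_zero] at h1
    show f v = f w / g w * g v
    rw [h1]; ring

theorem exists_rk_of_ker {M : X →L[ℂ] X} {g : X →L[ℂ] ℂ} (hg : g ≠ 0)
    (h : ∀ v, g v = 0 → M v = 0) : ∃ u : X, M = rk u g := by
  obtain ⟨w, hw⟩ : ∃ w, g w ≠ 0 := by
    by_contra hc
    push Not at hc
    exact hg (by ext v; simpa using hc v)
  refine ⟨(g w)⁻¹ • M w, ?_⟩
  ext v
  have h1 := h (v - (g v / g w) • w) (by simp [hw])
  simp only [map_sub, map_smul, sub_eq_zero] at h1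
  rw [rk_apply, h1, smul_smul]
  rfl

/-- a pair of linearly independent functionals -/
def Ind (f g : X →L[ℂ] ℂ) : Prop := (∃ u, g u = 0 ∧ f u ≠ 0) ∧ (∃ u, f u = 0 ∧ g u ≠ 0)

theorem Ind.symm {f g : X →L[ℂ] ℂ} (h : Ind f g) : Ind g f := ⟨h.2, h.1⟩

theorem isUnit_one_add_rk {u : X} {g : X →L[ℂ] ℂ} (h : 1 + g u ≠ 0) :
    IsUnit (1 + rk u g : X →L[ℂ] X) := by
  refine ⟨⟨1 + rk u g, 1 - (1 + g u)⁻¹ • rk u g, ?_, ?_⟩, rfl⟩
  · ext v
    show (v - (1 + g u)⁻¹ • g v • u) + g (v - (1 + g u)⁻¹ • g v • u) • u = v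
    rw [map_sub, map_smul, map_smul, smul_eq_mul, smul_eq_mul]
    have : (v - (1 + g u)⁻¹ • g v • u) + (g v - (1 + g u)⁻¹ * (g v * g u)) • u
      = v + (g v - (1 + g u)⁻¹ * (1 + g u) * g v) • u := by module
    rw [this, inv_mul_cancel₀ h]
    simp
  · ext v
    show (v + g v • u) - (1 + g u)⁻¹ • g (v + g v • u) • u = v
    rw [map_add, map_smul, smul_eq_mul]
    have : (v + g v • u) - (1 + g u)⁻¹ • (g v + g v * g u) • u
      = v + (g v - (1 + g u)⁻¹ * (1 + g u) * g v) • u := by module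
    rw [this, inv_mul_cancel₀ h]
    simp

theorem exists_both {l1 m1 l2 : X →L[ℂ] ℂ} (h1 : ∃ u, l2 u = 0 ∧ l1 u ≠ 0)
    (h2 : ∃ u, l2 u = 0 ∧ m1 u ≠ 0) : ∃ u, l2 u = 0 ∧ l1 u = 1 ∧ m1 u ≠ 0 := by
  suffices h : ∃ u, l2 u = 0 ∧ l1 u ≠ 0 ∧ m1 u ≠ 0 by
    obtain ⟨u, a, b, c⟩ := h
    exact ⟨(l1 u)⁻¹ • u, by simp [a], by simp [b], by simp [b, c]⟩
  obtain ⟨u, a1, a2⟩ := h1
  obtain ⟨w, b1, b2⟩ := h2
  by_cases c1 : m1 u = 0
  · by_cases c2 : l1 w = 0
    · exact ⟨u + w, by simp [a1, b1], by simp [a2, c2], by simp [c1, b2]⟩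
    · exact ⟨w, b1, c2, b2⟩
  · exact ⟨u, a1, a2, c1⟩

/-- move one functional, keep another -/
theorem exists_unit_move {l1 m1 l2 : X →L[ℂ] ℂ} (h1 : ∃ u, l2 u = 0 ∧ l1 u ≠ 0)
    (h2 : ∃ u, l2 u = 0 ∧ m1 u ≠ 0) :
    ∃ R : X →L[ℂ] X, IsUnit R ∧ (∀ v, l1 (R v) = m1 v) ∧ (∀ v, l2 (R v) = l2 v) := by
  obtain ⟨u, a, b, c⟩ := exists_both h1 h2
  refine ⟨1 + rk u (m1 - l1), isUnit_one_add_rk ?_, ?_, ?_⟩
  · show 1 + (m1 u - l1 u) ≠ 0
    rw [b]; simpa using c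
  · intro v
    show l1 (v + (m1 v - l1 v) • u) = m1 v
    rw [map_add, map_smul, b]; simp
  · intro v
    show l2 (v + (m1 v - l1 v) • u) = l2 v
    rw [map_add, map_smul, a]; simp

theorem exists_unit_aux {l1 l2 m1 m2 : X →L[ℂ] ℂ} (hl : Ind l1 l2) (hm : Ind m1 m2)
    (h : Ind m1 l2) :
    ∃ R : X →L[ℂ] X, IsUnit R ∧ (∀ v, l1 (R v) = m1 v) ∧ (∀ v, l2 (R v) = m2 v) := by
  obtain ⟨R1, u1, a1, b1⟩ := exists_unit_move (l1 := l1) (m1 := m1) (l2 := l2) hl.1 h.1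
  obtain ⟨R2, u2, a2, b2⟩ := exists_unit_move (l1 := l2) (m1 := m2) (l2 := m1) h.2 hm.2
  refine ⟨R1 * R2, u1.mul u2, ?_, ?_⟩
  · intro v
    show l1 (R1 (R2 v)) = m1 v
    rw [a1, b2]
  · intro v
    show l2 (R1 (R2 v)) = m2 v
    rw [b1, a2]

theorem exists_unit {l1 l2 m1 m2 : X →L[ℂ] ℂ} (hl : Ind l1 l2) (hm : Ind m1 m2) :
    ∃ R : X →L[ℂ] X, IsUnit R ∧ (∀ v, l1 (R v) = m1 v) ∧ (∀ v, l2 (R v) = m2 v) := by
  by_cases h : Ind m1 l2
  · exact exists_unit_aux hl hm h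
  · -- `m1` is a nonzero multiple of `l2`
    obtain ⟨c, hc⟩ : ∃ c : ℂ, m1 = c • l2 := by
      by_cases h1 : ∃ u, l2 u = 0 ∧ m1 u ≠ 0
      · by_cases h2 : ∃ u, m1 u = 0 ∧ l2 u ≠ 0
        · exact absurd ⟨h1, h2⟩ h
        · push Not at h2
          obtain ⟨c, hc⟩ := exists_smul_of_ker h2
          obtain ⟨u, hu⟩ := hl.2
          have hc0 : c ≠ 0 := by
            rintro rfl
            apply hu.2
            rw [hc]; simp
          refine ⟨c⁻¹, ?_⟩
          rw [hc, smul_smul, inv_mul_cancel₀ hc0, one_smul]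
      · push Not at h1
        exact exists_smul_of_ker h1
    have hc0 : c ≠ 0 := by
      rintro rfl
      obtain ⟨u, hu⟩ := hm.1
      apply hu.2
      rw [hc]; simp
    obtain ⟨p, hp1, hp2⟩ := hl.1
    obtain ⟨q, hq1, hq2⟩ := hl.2
    obtain ⟨R0, u0, a0, b0⟩ := exists_unit_move (l1 := l2) (m1 := l1 + l2) (l2 := l1)
      ⟨q, hq1, hq2⟩ ⟨q, hq1, by simpa [hq1] using hq2⟩
    have hA : Ind l1 (l1 + l2) := by
      refine ⟨⟨l2 q • p - l1 p • q, ?_, ?_⟩, ⟨q, hq1, by simpa [hq1] using hq2⟩⟩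
      · simp [hp1, hq1]; ring
      · simp [hq1, hp2, hq2]
    have hB : Ind m1 (l1 + l2) := by
      subst hc
      refine ⟨⟨l2 q • p - l1 p • q, ?_, ?_⟩, ⟨p, by simp [hp1], by simpa [hp1] using hp2⟩⟩
      · simp [hp1, hq1]; ring
      · simp [hp1, hp2, hq2, hc0]
    obtain ⟨R, u, a, b⟩ := exists_unit_aux hA hm hB
    refine ⟨R0 * R, u0.mul u, ?_, ?_⟩
    · intro v
      show l1 (R0 (R v)) = m1 v
      rw [b0, a]
    · intro v
      show l2 (R0 (R v)) = m2 v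
      rw [a0, b]

end Functionals

section Q

variable {X : Type*} [NormedAddCommGroup X] [NormedSpace ℂ X] [CompleteSpace X]

theorem dep_of_hyp {x : X} {M1 M2 : X →L[ℂ] X}
    (hyp : ∀ R, innerRadius (R - M1) x = 0 → innerRadius (R - M2) x = 0 → innerRadius R x = 0)
    {l1 l2 : X →L[ℂ] ℂ} (hl : Ind l1 l2) (h1 : l1 x ≠ 0) (h2 : l2 x ≠ 0) :
    ¬ Ind (l1.comp M1) (l2.comp M2) := by
  intro hm
  obtain ⟨R, hu, a, b⟩ := exists_unit hl hm
  refine good_of_isUnit hu x (hyp R ?_ ?_)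
  · refine bad_of_not_range fun v hv => h1 ?_
    rw [← hv]
    show l1 (R v - M1 v) = 0
    rw [map_sub, a]; simp
  · refine bad_of_not_range fun v hv => h2 ?_
    rw [← hv]
    show l2 (R v - M2 v) = 0
    rw [map_sub, b]; simp

theorem ker_of_hyp {x : X} (hx : x ≠ 0) (hdim : ∃ w : X, ∀ c : ℂ, w ≠ c • x) {M1 M2 : X →L[ℂ] X}
    (hyp : ∀ R, innerRadius (R - M1) x = 0 → innerRadius (R - M2) x = 0 → innerRadius R x = 0)
    {l2 : X →L[ℂ] ℂ} (h2 : l2 x ≠ 0) (hne : ∃ w, l2 (M2 w) ≠ 0) (v : X) (hv : l2 (M2 v) = 0) :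
    M1 v = 0 := by
  by_contra hM
  obtain ⟨w, hw⟩ := hdim
  have hz : w - (l2 w / l2 x) • x ≠ 0 := sub_ne_zero.mpr (hw _)
  have hz2 : l2 (w - (l2 w / l2 x) • x) = 0 := by simp [h2]
  generalize w - (l2 w / l2 x) • x = z at hz hz2
  obtain ⟨l1, a, b, c⟩ := exists_three hx hM hz
  have hind : Ind l1 l2 := by
    refine ⟨⟨z, hz2, c⟩, ⟨x - (l1 x / l1 z) • z, by simp [c], by simp [hz2, h2]⟩⟩
  apply dep_of_hyp hyp hind (by rw [a]; exact one_ne_zero) h2
  refine ⟨⟨v, hv, b⟩, ?_⟩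
  obtain ⟨p, hp⟩ := hne
  refine ⟨p - (l1 (M1 p) / l1 (M1 v)) • v, ?_, ?_⟩
  · simp [b]
  · simp [hv, hp]

theorem structure_of_hyp {x : X} (hx : x ≠ 0) (hdim : ∃ w : X, ∀ c : ℂ, w ≠ c • x)
    {M1 M2 : X →L[ℂ] X} (hM1 : M1 ≠ 0) (hM2 : M2 ≠ 0)
    (hyp : ∀ R, innerRadius (R - M1) x = 0 → innerRadius (R - M2) x = 0 → innerRadius R x = 0)
    (hgood : innerRadius (M2 - M1) x ≠ 0) :
    ∃ (f : X →L[ℂ] ℂ) (c1 c2 : ℂ), f x ≠ 0 ∧ M1 = c1 • rk x f ∧ M2 = c2 • rk x f := by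
  obtain ⟨v, hv⟩ : ∃ v, M2 v ≠ 0 := by
    by_contra hc; push Not at hc; exact hM2 (by ext v; simpa using hc v)
  obtain ⟨l2, hl2, hl2v⟩ := SeparatingDual.exists_eq_one_ne_zero_of_ne_zero_pair (R := ℂ) hx hv
  have hl2' : l2 x ≠ 0 := by rw [hl2]; exact one_ne_zero
  have k1 := ker_of_hyp hx hdim hyp hl2' ⟨v, hl2v⟩
  have hf0 : l2.comp M2 ≠ 0 := fun h => hl2v (by
    have := congrArg (fun k => k v) h
    simpa using this)
  obtain ⟨u1, hu1⟩ := exists_rk_of_ker (M := M1) (g := l2.comp M2) hf0 (fun w hw => k1 w hw)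
  have hu1' : u1 ≠ 0 := by
    rintro rfl
    apply hM1
    rw [hu1]
    ext w; simp
  obtain ⟨l1, hl1, hl1v⟩ := SeparatingDual.exists_eq_one_ne_zero_of_ne_zero_pair (R := ℂ) hx hu1'
  have hl1' : l1 x ≠ 0 := by rw [hl1]; exact one_ne_zero
  have hyp' : ∀ R, innerRadius (R - M2) x = 0 → innerRadius (R - M1) x = 0 →
      innerRadius R x = 0 := fun R a b => hyp R b a
  have k2 := ker_of_hyp hx hdim hyp' hl1' ⟨v, by
    rw [hu1]
    simp only [rk_apply, map_smul, smul_eq_mul]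
    exact mul_ne_zero hl2v hl1v⟩
  have k3 : ∀ w, (l2.comp M2) w = 0 → M2 w = 0 := by
    intro w hw
    apply k2
    rw [hu1, rk_apply, hw, zero_smul, map_zero]
  obtain ⟨u2, hu2⟩ := exists_rk_of_ker (M := M2) (g := l2.comp M2) hf0 k3
  generalize l2.comp M2 = f at hf0 hu1 hu2
  -- now `M1 = u1 ⊗ f`, `M2 = u2 ⊗ f`
  have hdiff : ∃ κ : ℂ, κ ≠ 0 ∧ u2 - u1 = κ • x := by
    by_contra hc
    push Not at hc
    apply hgood
    refine bad_of_not_range fun w hw => ?_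
    rw [hu1, hu2] at hw
    have h1 : f w • (u2 - u1) = x := by
      rw [← hw]; simp [smul_sub]
    have h2 : f w ≠ 0 := by
      intro h0; rw [h0, zero_smul] at h1; exact hx h1.symm
    apply hc (f w)⁻¹ (inv_ne_zero h2)
    rw [← h1, smul_smul, inv_mul_cancel₀ h2, one_smul]
  obtain ⟨κ, hκ, hκ'⟩ := hdiff
  have hfx : f x ≠ 0 := by
    intro h0
    apply hgood
    have : M2 - M1 = rk x (κ • f) := by
      rw [hu1, hu2]
      ext w
      simp only [sub_apply, rk_apply]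
      rw [← smul_sub, hκ']
      simp [smul_smul, mul_comm]
    rw [this, innerRadius_rk hx]
    simp [h0]
  have hu1x : ∃ c1 : ℂ, u1 = c1 • x := by
    by_contra hc
    push Not at hc
    have hnot : ∀ u : X, (∀ c : ℂ, u ≠ c • x) →
        innerRadius (rk x ((f x)⁻¹ • f) - rk u f) x = 0 := by
      intro u hu
      refine bad_of_not_range fun w hw => ?_
      have h1 : f w • ((f x)⁻¹ • x - u) = x := by
        refine Eq.trans ?_ hw
        show f w • ((f x)⁻¹ • x - u) = ((f x)⁻¹ * f w) • x - f w • u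
        module
      have h2 : f w ≠ 0 := by
        intro h0; rw [h0, zero_smul] at h1; exact hx h1.symm
      apply hu ((f x)⁻¹ - (f w)⁻¹)
      have h3 : (f x)⁻¹ • x - u = (f w)⁻¹ • x := by
        have h4 := congrArg (fun t => (f w)⁻¹ • t) h1
        simp only [smul_smul, inv_mul_cancel₀ h2, one_smul] at h4
        exact h4
      rw [sub_smul, ← h3]; abel
    have hR := hyp (rk x ((f x)⁻¹ • f)) (by rw [hu1]; exact hnot u1 hc)
      (by
        rw [hu2]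
        refine hnot u2 fun c hcc => hc (c - κ) ?_
        rw [sub_smul, ← hκ', ← hcc]; abel)
    rw [innerRadius_rk hx] at hR
    simp [hfx] at hR
  obtain ⟨c1, hc1⟩ := hu1x
  refine ⟨f, c1, c1 + κ, hfx, ?_, ?_⟩
  · rw [hu1, hc1, rk_smul_left]
  · rw [hu2, ← rk_smul_left]
    congr 1
    rw [add_smul, ← hκ', ← hc1]; abel

/-- the ternary relation -/
def Q (x : X) (A B C : X →L[ℂ] X) : Prop :=
  A ≠ B ∧ A ≠ C ∧ B ≠ C ∧ innerRadius (A - B) x ≠ 0 ∧
    ∀ U, innerRadius (A - U) x = 0 → innerRadius (B - U) x = 0 → innerRadius (C - U) x = 0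

omit [CompleteSpace X] in
theorem Q_of {x : X} (hx : x ≠ 0) {A : X →L[ℂ] X} {f : X →L[ℂ] ℂ} (hf : f x ≠ 0) {c : ℂ}
    (h0 : c ≠ 0) (h1 : c ≠ 1) : Q x A (A + rk x f) (A + c • rk x f) := by
  have hf0 : rk x f ≠ 0 := by
    intro h
    rw [rk_eq_zero_iff hx] at h
    rw [h] at hf
    simp at hf
  refine ⟨?_, ?_, ?_, ?_, ?_⟩
  · intro h
    exact hf0 (by simpa using h)
  · intro h
    have : c • rk x f = 0 := by simpa using h
    rcases smul_eq_zero.mp this with h2 | h2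
    · exact h0 h2
    · exact hf0 h2
  · intro h
    have h2 : (1 - c) • rk x f = 0 := by
      rw [sub_smul, one_smul, sub_eq_zero]
      exact add_left_cancel h
    rcases smul_eq_zero.mp h2 with h3 | h3
    · exact h1 (sub_eq_zero.mp h3).symm
    · exact hf0 h3
  · have : A - (A + rk x f) = rk x (-f) := by rw [rk_neg]; abel
    rw [this, innerRadius_rk hx]
    simp [hf]
  · intro U hA hB
    by_contra hC
    obtain ⟨r, hr, g, hg⟩ := good_iff.mp hC
    have e1 : A - U = (A + c • rk x f - U) + rk x (-(c • f)) := by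
      rw [rk_neg, rk_smul]; abel
    have e2 : A + rk x f - U = (A + c • rk x f - U) + rk x ((1 - c) • f) := by
      rw [rk_smul, sub_smul, one_smul]; abel
    have k1 : 1 + (-(c • f)) (g 0) = 0 := by
      by_contra hne
      exact good_add_rk hr hg _ hne (by rw [← e1]; exact hA)
    have k2 : 1 + ((1 - c) • f) (g 0) = 0 := by
      by_contra hne
      exact good_add_rk hr hg _ hne (by rw [← e2]; exact hB)
    simp only [_root_.neg_apply, _root_.smul_apply, smul_eq_mul] at k1 k2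
    have k3 : f (g 0) = 0 - 0 := by linear_combination k2 - k1
    rw [sub_zero] at k3
    rw [k3] at k1
    simp at k1

theorem of_Q {x : X} (hx : x ≠ 0) (hdim : ∃ w : X, ∀ c : ℂ, w ≠ c • x) {A B C : X →L[ℂ] X}
    (h : Q x A B C) :
    ∃ (f : X →L[ℂ] ℂ) (c : ℂ), f x ≠ 0 ∧ B = A + rk x f ∧ C = A + c • rk x f := by
  obtain ⟨hAB, hAC, hBC, hg, hU⟩ := h
  obtain ⟨f, c1, c2, hf, h1, h2⟩ := structure_of_hyp hx hdim (M1 := C - A) (M2 := C - B)
    (sub_ne_zero.mpr hAC.symm) (sub_ne_zero.mpr hBC.symm)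
    (by
      intro R hR1 hR2
      have := hU (C - R) (by
        have e : A - (C - R) = R - (C - A) := by abel
        rw [e]; exact hR1) (by
        have e : B - (C - R) = R - (C - B) := by abel
        rw [e]; exact hR2)
      simpa using this)
    (by
      have e : C - B - (C - A) = A - B := by abel
      rw [e]; exact hg)
  have hBA : B = A + (c1 - c2) • rk x f := by
    rw [sub_smul, ← h1, ← h2]; abel
  have hc : c1 - c2 ≠ 0 := by
    intro h0
    rw [h0, zero_smul, add_zero] at hBA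
    exact hAB hBA.symm
  refine ⟨(c1 - c2) • f, c1 / (c1 - c2), ?_, ?_, ?_⟩
  · show (c1 - c2) * f x ≠ 0
    exact mul_ne_zero hc hf
  · rw [rk_smul]; exact hBA
  · rw [rk_smul, smul_smul, div_mul_cancel₀ _ hc, ← h1]; abel

end Q

end Pool.Agent.Helper95.Iota
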