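import Pool.Agent.Helper95.KoszulCount

set_option autoImplicit false

open scoped TensorProduct

namespace Pool.Agent.Helper95.Koszul

noncomputable section

universe u v

section Complex

variable {k : Type u} [CommRing k] {V : Type v} {M : Type v} {N : Type v} {P : Type v}
  [AddCommGroup V] [Module k V]
  [AddCommGroup M] [Module k M] [AddCommGroup N] [Module k N] [AddCommGroup P] [Module k P]

/-- The bilinear map `(v, w) ↦ (z ↦ z ⊗ β' w (β v s))`. -/
def doubleStep (β : V →ₗ[k] M →ₗ[k] N) (β' : V →ₗ[k] N →ₗ[k] P) (p : ℕ) (s : M) :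
    V →ₗ[k] V →ₗ[k] V [⋀^Fin p]→ₗ[k] (KTerm k p V P) :=
  LinearMap.mk₂ k
    (fun v w => ((kmk k V P p).flip (β' w (β v s))).compAlternatingMap (wedge k p))
    (fun v v' w => by ext z; simp)
    (fun c v w => by ext z; simp)
    (fun v w w' => by ext z; simp)
    (fun c v w => by ext z; simp)

lemma doubleStep_apply (β : V →ₗ[k] M →ₗ[k] N) (β' : V →ₗ[k] N →ₗ[k] P) (p : ℕ) (s : M)
    (v w : V) (z : Fin p → V) :
    doubleStep β β' p s v w z = kmk k V P p (wedge k p z) (β' w (β v s)) := rfl

/-- Two successive Koszul differentials compose to zero. -/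
theorem koszulD_comp (β : V →ₗ[k] M →ₗ[k] N) (β' : V →ₗ[k] N →ₗ[k] P)
    (h : ∀ v w s, β' v (β w s) = β' w (β v s)) (p : ℕ)
    (y : KTerm k (p + 2) V M) :
    koszulD β' p (koszulD β (p + 1) y) = 0 := by
  have key : (koszulD β' p ∘ₗ koszulD β (p + 1)) = 0 := by
    refine KTerm.hom_ext fun x s => ?_
    have hf : ∀ v w, doubleStep β β' p s v w = doubleStep β β' p s w v := by
      intro v w
      ext z
      rw [doubleStep_apply, doubleStep_apply, h]
    have h0 := AlternatingMap.alternatizeUncurryFin_alternatizeUncurryFinLM_comp_of_symmetric hf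
    have h1 := congrArg (fun g => g x) h0
    simp only [AlternatingMap.alternatizeUncurryFin_apply, LinearMap.comp_apply,
      AlternatingMap.alternatizeUncurryFinLM_apply, AlternatingMap.zero_apply] at h1
    simp only [LinearMap.comp_apply, koszulD_apply, map_sum, map_smul, LinearMap.zero_apply]
    rw [← h1]
    have hs : ∀ (i : ℕ) (z : KTerm k p V P), (-1 : k) ^ i • z = (-1 : ℤ) ^ i • z := by
      intro i z
      rcases Nat.even_or_odd i with hi | hi
      · simp [hi.neg_one_pow]
      · simp [hi.neg_one_pow]
    refine Finset.sum_congr rfl fun i _ => ?_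
    rw [hs]
    congr 1
    refine Finset.sum_congr rfl fun j _ => ?_
    rw [hs]
    rfl
  exact LinearMap.congr_fun key y

end Complex

/-- The two differentials of the Koszul complex compose to zero: every boundary is a cycle. -/
theorem boundaries_le_cycles (k : Type u) [Field k] (n b d p q : ℕ) :
    boundaries k n d p (degree_in b d q) ≤ cycles k n d p (degree_out b d q) := by
  rintro x ⟨y, rfl⟩
  cases p with
  | zero => exact Submodule.mem_top
  | succ p =>
    change koszulD (mulForms k n (degree_out b d q)) p
      (koszulD (mulForms k n (degree_in b d q)) (p + 1) y) = 0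
    refine koszulD_comp _ _ ?_ p y
    intro v w s
    apply Sym.ext
    simp only [mulForms_poly]
    ring

end

end Pool.Agent.Helper95.Koszul
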