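import Pool.Agent.Helper95.KoszulCycle

set_option autoImplicit false

namespace Pool.Agent.Helper95.Koszul

noncomputable section

universe u

section Count

variable {n : ℕ}

open Finset

lemma degree_eq_sum (e : Fin (n + 1) →₀ ℕ) : e.degree = ∑ s, e s := by
  rw [Finsupp.degree_eq_sum]

/-- Exponents supported in `S` of degree `d`. -/
abbrev mons (S : Finset (Fin (n + 1))) (d : ℕ) : Finset (Fin (n + 1) →₀ ℕ) :=
  S.finsuppAntidiag d

lemma mem_mons {S : Finset (Fin (n + 1))} {d : ℕ} {e : Fin (n + 1) →₀ ℕ} :
    e ∈ mons S d ↔ e.degree = d ∧ ∀ s, s ∉ S → e s = 0 := by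
  rw [mons, Finset.mem_finsuppAntidiag, degree_eq_sum]
  constructor
  · rintro ⟨h1, h2⟩
    have h3 : ∀ s, s ∉ S → e s = 0 := fun s hs => by
      by_contra h
      exact hs (h2 (Finsupp.mem_support_iff.2 h))
    refine ⟨?_, h3⟩
    rw [← h1]
    exact (Finset.sum_subset (Finset.subset_univ S) fun s _ hs => h3 s hs).symm
  · rintro ⟨h1, h2⟩
    refine ⟨?_, fun s hs => ?_⟩
    · rw [← h1]
      exact Finset.sum_subset (Finset.subset_univ S) fun s _ hs => h2 s hs
    · by_contra h
      exact (Finsupp.mem_support_iff.1 hs) (h2 s h)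

lemma card_mons (S : Finset (Fin (n + 1))) (d : ℕ) :
    (mons S d).card = (S.card + d - 1).choose d :=
  Finset.card_finsuppAntidiag_nat_eq_choose d

lemma card_mons_ge {S : Finset (Fin (n + 1))} {d c : ℕ} {s0 : Fin (n + 1)} (hs : s0 ∈ S)
    (hc : c ≤ d) : ((mons S d).filter fun e => c ≤ e s0).card = (mons S (d - c)).card := by
  classical
  symm
  refine Finset.card_bij (fun e _ => e + Finsupp.single s0 c) ?_ ?_ ?_
  · intro e he
    rw [mem_mons] at he
    rw [Finset.mem_filter, mem_mons]
    refine ⟨⟨?_, fun s hs' => ?_⟩, ?_⟩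
    · rw [map_add, he.1, Finsupp.degree_single]; omega
    · have : s0 ≠ s := fun h => hs' (h ▸ hs)
      rw [Finsupp.add_apply, he.2 s hs', Finsupp.single_eq_of_ne this.symm, add_zero]
    · simp
  · intro e _ e' _ h
    exact add_right_cancel h
  · intro e he
    rw [Finset.mem_filter, mem_mons] at he
    have hle : Finsupp.single s0 c ≤ e := by
      rw [Finsupp.single_le_iff]; exact he.2
    refine ⟨e - Finsupp.single s0 c, ?_, tsub_add_cancel_of_le hle⟩
    rw [mem_mons]
    refine ⟨?_, fun s hs' => ?_⟩
    · have h := congrArg Finsupp.degree (tsub_add_cancel_of_le hle)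
      rw [map_add, Finsupp.degree_single, he.1.1] at h
      omega
    · rw [Finsupp.tsub_apply, he.1.2 s hs', zero_tsub]

variable (n) in
/-- The exponent `(d-1, …, d-1, q+b, 0, …, 0)` (with `q` entries `d - 1`). -/
def expF (q b d : ℕ) : Fin (n + 1) →₀ ℕ :=
  Finsupp.equivFunOnFinite.symm fun s => if (s : ℕ) < q then d - 1 else
    if (s : ℕ) = q then q + b else 0

lemma expF_apply (q b d : ℕ) (s : Fin (n + 1)) : expF n q b d s =
    if (s : ℕ) < q then d - 1 else if (s : ℕ) = q then q + b else 0 := rfl

lemma card_lt {q : ℕ} (hq : q ≤ n) :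
    ((Finset.univ : Finset (Fin (n + 1))).filter fun s : Fin (n + 1) => (s : ℕ) < q).card = q := by
  rw [Fin.card_filter_val_lt]
  omega

lemma card_le {q : ℕ} (hq : q ≤ n) :
    ((Finset.univ : Finset (Fin (n + 1))).filter fun s : Fin (n + 1) => (s : ℕ) ≤ q).card = q + 1 := by
  have := card_lt (n := n) (q := q) hq
  rw [show ((Finset.univ : Finset (Fin (n + 1))).filter fun s : Fin (n + 1) => (s : ℕ) ≤ q) =
    ((Finset.univ : Finset (Fin (n + 1))).filter fun s : Fin (n + 1) => (s : ℕ) < q + 1) from by
      ext s; simp [Nat.lt_succ_iff]]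
  rw [Fin.card_filter_val_lt]
  omega

lemma card_ge {q : ℕ} (hq : q ≤ n) :
    ((Finset.univ : Finset (Fin (n + 1))).filter fun s : Fin (n + 1) => q ≤ (s : ℕ)).card = n - q + 1 := by
  have h := Finset.card_filter_add_card_filter_not (s := (Finset.univ : Finset (Fin (n + 1))))
    (fun s => (s : ℕ) < q)
  rw [card_lt hq, Finset.card_univ, Fintype.card_fin] at h
  have e : ((Finset.univ : Finset (Fin (n + 1))).filter fun s : Fin (n + 1) => q ≤ (s : ℕ)) =
      ((Finset.univ : Finset (Fin (n + 1))).filter fun s : Fin (n + 1) => ¬ (s : ℕ) < q) := by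
    ext s; simp
  rw [e]
  omega

lemma expF_degree {q b d : ℕ} (hq : q ≤ n) (hd : b + q + 1 ≤ d) :
    (expF n q b d).degree = q * d + b := by
  rw [degree_eq_sum]
  simp only [expF_apply]
  rw [Finset.sum_ite, Finset.sum_const, card_lt hq, Finset.sum_ite, Finset.sum_const,
    Finset.sum_const_zero]
  have : ((Finset.univ.filter fun s : Fin (n + 1) => ¬ (s : ℕ) < q).filter
      fun s : Fin (n + 1) => (s : ℕ) = q) = {⟨q, by omega⟩} := by
    ext s
    simp only [Finset.mem_filter, Finset.mem_univ, true_and, Finset.mem_singleton, Fin.ext_iff]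
    omega
  rw [this, Finset.card_singleton]
  obtain ⟨d, rfl⟩ : ∃ d', d = d' + 1 := ⟨d - 1, by omega⟩
  simp only [smul_eq_mul, Nat.add_sub_cancel]
  ring

/-- Monomials of degree `d` dividing `f`. -/
def setQ (n q b d : ℕ) : Finset (Fin (n + 1) →₀ ℕ) := by
  classical
  exact (mons (Finset.univ : Finset (Fin (n + 1))) d).filter fun e => e ≤ expF n q b d

/-- Monomials of degree `d`, not a `d`-th power of a variable, which annihilate `f` modulo the
`d`-th powers of the variables. -/
def setP (n q b d : ℕ) : Finset (Fin (n + 1) →₀ ℕ) := by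
  classical
  exact (mons (Finset.univ : Finset (Fin (n + 1))) d).filter
    fun e => (∀ s, e ≠ Finsupp.single s d) ∧ ∃ s, d ≤ expF n q b d s + e s

lemma setQ_subset_setP {q b d : ℕ} (hq : q ≤ n) (hd : b + q + 1 ≤ d) :
    setQ n q b d ⊆ setP n q b d := by
  classical
  intro e he
  simp only [setQ, setP, Finset.mem_filter, mem_mons, Finset.mem_univ, not_true, false_imp_iff,
    implies_true, and_true] at he ⊢
  obtain ⟨hdeg, hle⟩ := he
  refine ⟨hdeg, ?_, ?_⟩
  · rintro s rfl
    have h1 := hle s
    rw [Finsupp.single_eq_same, expF_apply] at h1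
    split_ifs at h1 <;> omega
  · by_contra hcon
    push Not at hcon
    have h0 : ∀ s : Fin (n + 1), e s ≠ 0 → (s : ℕ) = q := by
      intro s hs
      have h1 := hle s
      have h2 := hcon s
      rw [expF_apply] at h1 h2
      split_ifs at h1 h2 with h3 h4
      · omega
      · exact h4
      · omega
    have h3 : e.degree = e ⟨q, by omega⟩ := by
      rw [degree_eq_sum]
      refine Finset.sum_eq_single _ ?_ ?_
      · intro s _ hs
        by_contra h4
        exact hs (Fin.ext (h0 s h4))
      · intro h; exact absurd (Finset.mem_univ _) h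
    have h4 := hle ⟨q, by omega⟩
    rw [expF_apply] at h4
    simp only [lt_irrefl, if_false, if_true] at h4
    omega

lemma card_setQ_le {q b d : ℕ} (hq : q ≤ n) (hd : b + q + 1 ≤ d) :
    (setQ n q b d).card + (d - b - 1).choose q + q ≤ (d + q).choose q := by
  classical
  set S := (Finset.univ : Finset (Fin (n + 1))).filter fun s : Fin (n + 1) => (s : ℕ) ≤ q with hS
  have hScard : S.card = q + 1 := card_le hq
  have hqS : (⟨q, by omega⟩ : Fin (n + 1)) ∈ S := by simp [hS]
  set A := mons S d with hA
  set C := A.filter fun e => q + b + 1 ≤ e ⟨q, by omega⟩ with hC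
  set D := ((Finset.univ : Finset (Fin (n + 1))).filter fun s : Fin (n + 1) => (s : ℕ) < q).image
    (fun s => Finsupp.single s d) with hD
  have hd0 : d ≠ 0 := by omega
  have hAcard : A.card = (d + q).choose q := by
    rw [hA, card_mons, hScard, show q + 1 + d - 1 = d + q by omega]
    exact Nat.choose_symm_of_eq_add (by omega)
  have hCcard : C.card = (d - b - 1).choose q := by
    rw [hC, hA, card_mons_ge hqS (by omega), card_mons, hScard,
      show q + 1 + (d - (q + b + 1)) - 1 = d - b - 1 by omega]
    exact Nat.choose_symm_of_eq_add (by omega)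
  have hDcard : D.card = q := by
    rw [hD, Finset.card_image_of_injective, card_lt hq]
    intro s s' h
    exact (Finsupp.single_left_inj hd0).1 h
  have hQA : setQ n q b d ⊆ A := by
    intro e he
    simp only [setQ, Finset.mem_filter, mem_mons] at he
    rw [hA, mem_mons]
    refine ⟨he.1.1, fun s hs => ?_⟩
    have h1 := he.2 s
    have hs' : ¬ (s : ℕ) ≤ q := by simpa [hS] using hs
    rw [expF_apply, if_neg (by omega), if_neg (by omega)] at h1
    omega
  have hCA : C ⊆ A := Finset.filter_subset _ _
  have hDA : D ⊆ A := by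
    intro e he
    rw [hD, Finset.mem_image] at he
    obtain ⟨s, hs, rfl⟩ := he
    rw [hA, mem_mons]
    refine ⟨Finsupp.degree_single _ _, fun s' hs' => ?_⟩
    have h1 : (s : ℕ) < q := by simpa using hs
    have h2 : ¬ (s' : ℕ) ≤ q := by simpa [hS] using hs'
    rw [Finsupp.single_eq_of_ne]
    rintro rfl
    omega
  have hQC : Disjoint (setQ n q b d) C := by
    rw [Finset.disjoint_left]
    intro e he he'
    simp only [setQ, Finset.mem_filter, mem_mons] at he
    rw [hC, Finset.mem_filter] at he'
    have h1 := he.2 ⟨q, by omega⟩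
    rw [expF_apply] at h1
    simp only [lt_irrefl, if_false, if_true] at h1
    have h2 := he'.2
    omega
  have hQCD : Disjoint (setQ n q b d ∪ C) D := by
    rw [Finset.disjoint_left]
    intro e he he'
    rw [hD, Finset.mem_image] at he'
    obtain ⟨s, hs, rfl⟩ := he'
    have h1 : (s : ℕ) < q := by simpa using hs
    rw [Finset.mem_union] at he
    rcases he with he | he
    · simp only [setQ, Finset.mem_filter, mem_mons] at he
      have h2 := he.2 s
      rw [Finsupp.single_eq_same, expF_apply, if_pos h1] at h2
      omega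
    · rw [hC, Finset.mem_filter] at he
      have h2 := he.2
      rw [Finsupp.single_eq_of_ne] at h2
      · omega
      · intro h
        have := congrArg Fin.val h
        simp only at this
        omega
  have h1 : (setQ n q b d ∪ C ∪ D).card ≤ A.card :=
    Finset.card_le_card (Finset.union_subset (Finset.union_subset hQA hCA) hDA)
  rw [Finset.card_union_of_disjoint hQCD, Finset.card_union_of_disjoint hQC, hAcard, hCcard,
    hDcard] at h1
  exact h1

lemma le_card_setP {q b d : ℕ} (hq : q ≤ n) (hd : b + q + 1 ≤ d) :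
    (d + n).choose n + (n + b).choose (n - q) ≤
      (setP n q b d).card + (q + 1) + (d + n - q).choose (n - q) := by
  classical
  have hd0 : d ≠ 0 := by omega
  set S := (Finset.univ : Finset (Fin (n + 1))).filter fun s : Fin (n + 1) => q ≤ (s : ℕ) with hS
  have hScard : S.card = n - q + 1 := card_ge hq
  have hqS : (⟨q, by omega⟩ : Fin (n + 1)) ∈ S := by simp [hS]
  set A := mons (Finset.univ : Finset (Fin (n + 1))) d with hA
  have hAcard : A.card = (d + n).choose n := by
    rw [hA, card_mons, Finset.card_univ, Fintype.card_fin, show n + 1 + d - 1 = d + n by omega]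
    exact Nat.choose_symm_of_eq_add (by omega)
  set B := mons S d with hB
  have hBcard : B.card = (d + n - q).choose (n - q) := by
    rw [hB, card_mons, hScard, show n - q + 1 + d - 1 = d + n - q by omega]
    exact Nat.choose_symm_of_eq_add (by omega)
  set N3 := B.filter fun e => d - q - b ≤ e ⟨q, by omega⟩ with hN3
  have hN3card : N3.card = (n + b).choose (n - q) := by
    rw [hN3, hB, card_mons_ge hqS (by omega), card_mons, hScard,
      show n - q + 1 + (d - (d - q - b)) - 1 = n + b by omega]
    exact Nat.choose_symm_of_eq_add (by omega)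
  set N2 := B.filter fun e => ¬ d - q - b ≤ e ⟨q, by omega⟩ with hN2
  have hN23 : N3.card + N2.card = B.card := by
    rw [hN3, hN2]
    exact Finset.card_filter_add_card_filter_not _
  set N1 := ((Finset.univ : Finset (Fin (n + 1))).filter fun s : Fin (n + 1) => (s : ℕ) ≤ q).image
    (fun s => Finsupp.single s d) with hN1
  have hN1card : N1.card ≤ q + 1 := by
    rw [hN1]
    exact Finset.card_image_le.trans (card_le hq).le
  have hcover : A ⊆ setP n q b d ∪ N1 ∪ N2 := by
    intro e he
    by_cases heP : e ∈ setP n q b d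
    · exact Finset.mem_union_left _ (Finset.mem_union_left _ heP)
    by_cases hpow : ∃ s, e = Finsupp.single s d
    · obtain ⟨s, rfl⟩ := hpow
      by_cases hs : (s : ℕ) ≤ q
      · refine Finset.mem_union_left _ (Finset.mem_union_right _ ?_)
        rw [hN1, Finset.mem_image]
        exact ⟨s, by simpa using hs, rfl⟩
      · refine Finset.mem_union_right _ ?_
        rw [hN2, Finset.mem_filter, hB, mem_mons]
        refine ⟨⟨Finsupp.degree_single _ _, fun s' hs' => ?_⟩, ?_⟩
        · have h2 : ¬ q ≤ (s' : ℕ) := by simpa [hS] using hs'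
          rw [Finsupp.single_eq_of_ne]
          rintro rfl
          omega
        · rw [Finsupp.single_eq_of_ne]
          · omega
          · intro h
            have := congrArg Fin.val h
            simp only at this
            omega
    · refine Finset.mem_union_right _ ?_
      push Not at hpow
      have hall : ∀ s, expF n q b d s + e s < d := by
        by_contra hcon
        push Not at hcon
        refine heP ?_
        simp only [setP, Finset.mem_filter]
        exact ⟨he, hpow, hcon⟩
      rw [hA, mem_mons] at he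
      rw [hN2, Finset.mem_filter, hB, mem_mons]
      refine ⟨⟨he.1, fun s hs => ?_⟩, ?_⟩
      · have h2 : ¬ q ≤ (s : ℕ) := by simpa [hS] using hs
        have h3 := hall s
        rw [expF_apply, if_pos (by omega)] at h3
        omega
      · have h3 := hall ⟨q, by omega⟩
        rw [expF_apply] at h3
        simp only [lt_irrefl, if_false, if_true] at h3
        omega
  have h1 := Finset.card_le_card hcover
  have h2 := Finset.card_union_le (setP n q b d ∪ N1) N2
  have h3 := Finset.card_union_le (setP n q b d) N1
  omega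

end Count

section Main

variable (k : Type u) [Field k]

/-- The lower end `λ_q = C(d+q, q) - C(d-b-1, q) - q` of the non-vanishing range
(for `d ≥ b + q + 1`, when `d - b - 1` is a natural number). -/
def lam (b d q : ℕ) : ℤ := ((d + q).choose q : ℤ) - ((d - b - 1).choose q : ℤ) - q

/-- The upper end `μ_q = C(d+n, n) - C(d+n-q, n-q) + C(n+b, n-q) - q - 1` of the non-vanishing
range. -/
def mu (n b d q : ℕ) : ℤ :=
  ((d + n).choose n : ℤ) - ((d + n - q).choose (n - q) : ℤ) + ((n + b).choose (n - q) : ℤ) - q - 1

theorem nontrivial_main {n b d p q : ℕ} (hq : q ≤ n) (hd : b + q + 1 ≤ d)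
    (h1 : lam b d q ≤ p) (h2 : (p : ℤ) ≤ mu n b d q) :
    Nontrivial (KoszulCohomology k n b d p q) := by
  classical
  have hQ := card_setQ_le (n := n) hq hd
  have hP := le_card_setP (n := n) hq hd
  unfold lam at h1
  unfold mu at h2
  obtain ⟨M, hQM, hMP, hM⟩ := Finset.exists_subsuperset_card_eq
    (setQ_subset_setP (n := n) hq hd) (n := p) (by omega) (by omega)
  have e := (Finset.equivFinOfCardEq hM).symm
  have hmem : ∀ i : Fin p, ((e i : M) : Fin (n + 1) →₀ ℕ) ∈ setP n q b d := fun i => hMP (e i).2
  simp only [setP, Finset.mem_filter, mem_mons] at hmem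
  refine nontrivial_of_family k (fun i => ((e i : M) : Fin (n + 1) →₀ ℕ))
    (fun i => (hmem i).1.1) (fun i j h => e.injective (Subtype.ext h))
    (fun i s => (hmem i).2.1 s) (expF n q b d) (expF_degree hq hd)
    (fun i => (hmem i).2.2) ?_
  intro a ha hle
  have h3 : a ∈ M := hQM (by
    simp only [setQ, Finset.mem_filter, mem_mons]
    exact ⟨⟨ha, fun s hs => absurd (Finset.mem_univ s) hs⟩, hle⟩)
  exact ⟨e.symm ⟨a, h3⟩, by simp⟩

end Main

end

end Pool.Agent.Helper95.Koszul
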