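import Pool.Agent.Helper95.KoszulMain

set_option autoImplicit false

open scoped TensorProduct

namespace Pool.Agent.Helper95.Koszul

noncomputable section

universe u

section Cycle

variable (k : Type u) [Field k] (n d : ℕ)

/-- The fraction field of the polynomial ring. -/
abbrev Frac : Type u := FractionRing (MvPolynomial (Fin (n + 1)) k)

/-- The embedding of the polynomial ring. -/
abbrev toFrac : MvPolynomial (Fin (n + 1)) k →+* Frac k n := algebraMap _ _

/-- Multiplication of an element of the fraction field by a form. -/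
def actFrac : Sym k n (d : ℤ) →ₗ[k] Frac k n →ₗ[k] Frac k n :=
  LinearMap.mk₂ k (fun f g => toFrac k n f.poly * g)
    (fun f f' g => by simp [add_mul])
    (fun c f g => by
      simp only [map_smul]
      rw [Algebra.smul_def, map_mul, Algebra.smul_def, mul_assoc]
      rfl)
    (fun f g g' => by simp [mul_add])
    (fun c f g => by simp)

lemma actFrac_apply (f : Sym k n (d : ℤ)) (g : Frac k n) :
    actFrac k n d f g = toFrac k n f.poly * g := rfl

/-- The embedding of forms in the fraction field. -/
def formsToFrac (m0 : ℤ) : Sym k n m0 →ₗ[k] Frac k n where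
  toFun f := toFrac k n f.poly
  map_add' f g := by simp
  map_smul' c f := by
    simp only [map_smul, RingHom.id_apply]
    rw [Algebra.smul_def, map_mul, Algebra.smul_def]
    rfl

lemma formsToFrac_injective (m0 : ℤ) : Function.Injective (formsToFrac k n m0) := by
  intro f g h
  apply Sym.ext
  exact IsFractionRing.injective (MvPolynomial (Fin (n + 1)) k) (Frac k n) h

/-- `z_s^d` as a form of degree `d`. -/
def power (s : Fin (n + 1)) : Sym k n (d : ℤ) :=
  mono k n (Finsupp.single s d) (by rw [Finsupp.degree_single])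

variable {n d} {p : ℕ} (m : Fin p → (Fin (n + 1) →₀ ℕ)) (hm : ∀ i, (m i).degree = d)
  (J : Fin p → Fin (n + 1))

open Classical in
/-- The vectors `z_{J i}^d` for `i ∈ T` and `m i` for `i ∉ T`. -/
def vecs (T : Finset (Fin p)) (i : Fin p) : Sym k n (d : ℤ) :=
  if i ∈ T then power k n d (J i) else mono k n (m i) (by rw [hm i])

variable (f : Fin (n + 1) →₀ ℕ)

/-- `f ∏_{i ∈ T} m i / z_{J i}^d` in the fraction field. -/
def coefFrac (d : ℕ) (T : Finset (Fin p)) : Frac k n :=
  toFrac k n (MvPolynomial.monomial f 1) *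
    ∏ i ∈ T, (toFrac k n (MvPolynomial.monomial (m i) 1) /
      toFrac k n (MvPolynomial.monomial (Finsupp.single (J i) d) 1))

lemma toFrac_monomial_ne_zero (e : Fin (n + 1) →₀ ℕ) :
    toFrac k n (MvPolynomial.monomial e 1) ≠ 0 := by
  intro h
  have h1 := (IsFractionRing.injective (MvPolynomial (Fin (n + 1)) k) (Frac k n))
  have h2 : (MvPolynomial.monomial e (1 : k)) = 0 := h1 (by rw [h, map_zero])
  rw [MvPolynomial.monomial_eq_zero] at h2
  exact one_ne_zero h2

/-- The cycle over the fraction field. -/
def cycleFrac : KTerm k p (Sym k n (d : ℤ)) (Frac k n) :=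
  ∑ T ∈ (Finset.univ : Finset (Fin p)).powerset,
    ((-1 : k) ^ T.card) • (kmk k _ _ p (wedge k p (vecs k m hm J T)) (coefFrac k m J f d T))

end Cycle

section Cycle2

variable (k : Type u) [Field k] {n d p : ℕ} (m : Fin (p + 1) → (Fin (n + 1) →₀ ℕ))
  (hm : ∀ i, (m i).degree = d) (J : Fin (p + 1) → Fin (n + 1)) (f : Fin (n + 1) →₀ ℕ)

lemma koszulD_cycleFrac : koszulD (actFrac k n d) p (cycleFrac k m hm J f) = 0 := by
  classical
  unfold cycleFrac
  simp only [map_sum, map_smul, koszulD_apply, Finset.smul_sum]
  rw [Finset.sum_comm]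
  refine Finset.sum_eq_zero fun i _ => ?_
  have huniv : (Finset.univ : Finset (Fin (p + 1))) = insert i (Finset.univ.erase i) := by
    rw [Finset.insert_erase (Finset.mem_univ i)]
  rw [huniv, Finset.sum_powerset_insert (Finset.notMem_erase i _), ← Finset.sum_add_distrib]
  refine Finset.sum_eq_zero fun T hT => ?_
  have hiT : i ∉ T := fun h => by
    have := Finset.mem_powerset.1 hT h
    exact (Finset.notMem_erase i _) this
  have e1 : i.removeNth (vecs k m hm J (insert i T)) = i.removeNth (vecs k m hm J T) := by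
    ext a
    simp only [Fin.removeNth, vecs]
    have : i.succAbove a ≠ i := Fin.succAbove_ne i a
    simp [Finset.mem_insert, this]
  have e2 : vecs k m hm J (insert i T) i = power k n d (J i) := by simp [vecs]
  have e3 : vecs k m hm J T i = mono k n (m i) (by rw [hm i]) := by simp [vecs, hiT]
  have e4 : actFrac k n d (vecs k m hm J (insert i T) i) (coefFrac k m J f d (insert i T)) =
      actFrac k n d (vecs k m hm J T i) (coefFrac k m J f d T) := by
    rw [e2, e3, actFrac_apply, actFrac_apply]
    simp only [coefFrac, Finset.prod_insert hiT, power, mono_poly]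
    have := toFrac_monomial_ne_zero k (Finsupp.single (J i) d)
    field_simp
  rw [e1, e4, Finset.card_insert_of_notMem hiT, pow_succ]
  module

end Cycle2

section Integral

variable (k : Type u) [Field k] {n d p : ℕ} (m : Fin p → (Fin (n + 1) →₀ ℕ))
  (hm : ∀ i, (m i).degree = d) (J : Fin p → Fin (n + 1)) (f : Fin (n + 1) →₀ ℕ)

lemma single_sum_le (hJ : ∀ i, d ≤ f (J i) + m i (J i)) {T : Finset (Fin p)}
    (hT : Set.InjOn J T) :
    (∑ i ∈ T, Finsupp.single (J i) d) ≤ f + ∑ i ∈ T, m i := by
  classical
  intro s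
  simp only [Finsupp.coe_finsetSum, Finset.sum_apply, Finsupp.coe_add, Pi.add_apply]
  by_cases h : ∃ i ∈ T, J i = s
  · obtain ⟨i, hi, his⟩ := h
    rw [Finset.sum_eq_single i]
    · rw [his, Finsupp.single_eq_same]
      have h1 := hJ i
      rw [his] at h1
      have h2 : m i s ≤ ∑ i ∈ T, m i s := Finset.single_le_sum (f := fun i => m i s)
        (fun _ _ => Nat.zero_le _) hi
      omega
    · intro i' hi' hne
      rw [Finsupp.single_eq_of_ne]
      intro h3
      exact hne (hT hi' hi (by rw [his]; exact h3.symm))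
    · intro h
      exact absurd hi h
  · push Not at h
    rw [Finset.sum_eq_zero]
    · exact Nat.zero_le _
    · intro i hi
      exact Finsupp.single_eq_of_ne (h i hi).symm

/-- The exponent of `f ∏_{i ∈ T} m i / z_{J i}^d`. -/
def expo (d : ℕ) (T : Finset (Fin p)) : Fin (n + 1) →₀ ℕ :=
  (f + ∑ i ∈ T, m i) - ∑ i ∈ T, Finsupp.single (J i) d

lemma expo_add (hJ : ∀ i, d ≤ f (J i) + m i (J i)) {T : Finset (Fin p)}
    (hT : Set.InjOn J T) :
    expo m J f d T + ∑ i ∈ T, Finsupp.single (J i) d = f + ∑ i ∈ T, m i :=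
  tsub_add_cancel_of_le (single_sum_le m J f hJ hT)

include hm in
lemma expo_degree (hJ : ∀ i, d ≤ f (J i) + m i (J i)) {T : Finset (Fin p)}
    (hT : Set.InjOn J T) : (expo m J f d T).degree = f.degree := by
  have h := congrArg Finsupp.degree (expo_add m J f hJ hT)
  rw [map_add, map_add, map_sum, map_sum] at h
  simp only [Finsupp.degree_single, hm] at h
  omega

lemma toFrac_monomial_mul (a b : Fin (n + 1) →₀ ℕ) :
    toFrac k n (MvPolynomial.monomial (a + b) 1) =
      toFrac k n (MvPolynomial.monomial a 1) * toFrac k n (MvPolynomial.monomial b 1) := by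
  rw [← map_mul, MvPolynomial.monomial_mul, one_mul]

lemma toFrac_monomial_sum {ι : Type} (T : Finset ι) (a : ι → (Fin (n + 1) →₀ ℕ)) :
    toFrac k n (MvPolynomial.monomial (∑ i ∈ T, a i) 1) =
      ∏ i ∈ T, toFrac k n (MvPolynomial.monomial (a i) 1) := by
  rw [← map_prod, MvPolynomial.monomial_sum_one]

lemma coefFrac_eq (hJ : ∀ i, d ≤ f (J i) + m i (J i)) {T : Finset (Fin p)}
    (hT : Set.InjOn J T) :
    coefFrac k m J f d T = toFrac k n (MvPolynomial.monomial (expo m J f d T) 1) := by
  have h := congrArg (fun e => toFrac k n (MvPolynomial.monomial e 1)) (expo_add m J f hJ hT)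
  simp only [toFrac_monomial_mul, toFrac_monomial_sum] at h
  unfold coefFrac
  rw [Finset.prod_div_distrib]
  have hne : ∏ i ∈ T, toFrac k n (MvPolynomial.monomial (Finsupp.single (J i) d) 1) ≠ 0 :=
    Finset.prod_ne_zero_iff.2 fun i _ => toFrac_monomial_ne_zero k _
  rw [← mul_div_assoc, div_eq_iff hne, ← h]

open Classical in
/-- The integral cycle. -/
def cycle (hJ : ∀ i, d ≤ f (J i) + m i (J i)) {m0 : ℤ} (hf : (f.degree : ℤ) = m0) :
    Term k n d p m0 :=
  ∑ T ∈ (Finset.univ : Finset (Fin p)).powerset,
    if hT : Set.InjOn J T then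
      ((-1 : k) ^ T.card) • (kmk k _ _ p (wedge k p (vecs k m hm J T))
        (mono k n (expo m J f d T) (by rw [expo_degree m hm J f hJ hT]; exact hf)))
    else 0

lemma kmap_cycle (hJ : ∀ i, d ≤ f (J i) + m i (J i)) {m0 : ℤ} (hf : (f.degree : ℤ) = m0) :
    kmap p (formsToFrac k n m0) (cycle k m hm J f hJ hf) = cycleFrac k m hm J f := by
  classical
  unfold cycle cycleFrac
  rw [map_sum]
  refine Finset.sum_congr rfl fun T _ => ?_
  by_cases hT : Set.InjOn J T
  · rw [dif_pos hT, map_smul, kmap_apply, coefFrac_eq k m J f hJ hT]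
    rfl
  · rw [dif_neg hT, map_zero]
    unfold Set.InjOn at hT
    push Not at hT
    obtain ⟨a, ha, b, hb, hab, hne⟩ := hT
    rw [(wedge k p).map_eq_zero_of_eq (vecs k m hm J T) (i := a) (j := b) ?_ hne,
      map_zero, LinearMap.zero_apply, smul_zero]
    have ha' : a ∈ T := ha
    have hb' : b ∈ T := hb
    simp [vecs, ha', hb', hab]

lemma functional_cycle (hinj : Function.Injective m)
    (hpow : ∀ i s, m i ≠ Finsupp.single s d)
    (hJ : ∀ i, d ≤ f (J i) + m i (J i)) {m0 : ℤ} (hf : (f.degree : ℤ) = m0) :
    functional k n d m f (cycle k m hm J f hJ hf) = 1 := by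
  classical
  unfold cycle
  rw [map_sum, Finset.sum_eq_single ∅]
  · have h0 : Set.InjOn J ((∅ : Finset (Fin p)) : Set (Fin p)) := by simp
    rw [dif_pos h0, map_smul, functional_apply]
    have e1 : (Matrix.of fun i j => MvPolynomial.coeff (m j)
        (vecs k m hm J ∅ i).poly) = 1 := by
      ext i j
      simp only [vecs, Finset.notMem_empty, if_false, mono_poly, Matrix.of_apply,
        MvPolynomial.coeff_monomial, Matrix.one_apply]
      by_cases hij : i = j
      · simp [hij]
      · rw [if_neg (fun h => hij (hinj h)), if_neg hij]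
    rw [e1, Matrix.det_one]
    simp [expo]
  · intro T _ hTne
    by_cases hT : Set.InjOn J T
    · rw [dif_pos hT, map_smul, functional_apply]
      obtain ⟨i, hi⟩ := Finset.nonempty_iff_ne_empty.2 hTne
      rw [Matrix.det_eq_zero_of_row_eq_zero i, zero_mul, smul_zero]
      intro j
      simp only [vecs, hi, if_true, power, mono_poly, Matrix.of_apply, MvPolynomial.coeff_monomial]
      rw [if_neg (hpow j (J i)).symm]
    · rw [dif_neg hT, map_zero]
  · intro h
    exact absurd (Finset.empty_mem_powerset _) h

end Integral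

section Final

variable (k : Type u) [Field k] {n d p : ℕ}

/-- A cycle as an element of the type `Cycles`. -/
def toCycles {b q : ℕ} (α : Term k n d p ((q : ℤ) * d + b))
    (hα : α ∈ cycles k n d p (degree_out b d q)) : Cycles k n b d p q :=
  ⟨α, hα⟩

lemma mem_of_mem_Boundaries {b q : ℕ} (α : Term k n d p ((q : ℤ) * d + b))
    (hα : α ∈ cycles k n d p (degree_out b d q))
    (h : toCycles k α hα ∈ Boundaries k n b d p q) :
    α ∈ boundaries k n d p (degree_in b d q) := h

/-- The general non-vanishing statement for a family of monomials. -/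
theorem nontrivial_of_family {b q : ℕ} (m : Fin p → (Fin (n + 1) →₀ ℕ))
    (hm : ∀ i, (m i).degree = d) (hinj : Function.Injective m)
    (hpow : ∀ i s, m i ≠ Finsupp.single s d) (f : Fin (n + 1) →₀ ℕ)
    (hf : f.degree = q * d + b)
    (hJ : ∀ i, ∃ s, d ≤ f s + m i s)
    (hQ : ∀ e : Fin (n + 1) →₀ ℕ, e.degree = d → e ≤ f → ∃ j, m j = e) :
    Nontrivial (KoszulCohomology k n b d p q) := by
  choose J hJ using hJ
  have hf' : (f.degree : ℤ) = (q : ℤ) * d + b := by rw [hf]; push_cast; ring
  set α := cycle k m hm J f hJ hf' with hα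
  have hcyc : α ∈ cycles k n d p (degree_out b d q) := by
    cases p with
    | zero => exact Submodule.mem_top
    | succ p =>
      change diff k n d p (degree_out b d q) α = 0
      have hinjT : Function.Injective (kmap (V := Sym k n (d : ℤ)) p
          (formsToFrac k n (((q : ℤ) + 1) * d + b))) :=
        Module.Flat.lTensor_preserves_injective_linearMap (M := ExtPow k p (Sym k n (d : ℤ))) _
          (formsToFrac_injective k n _)
      apply hinjT
      rw [map_zero, diff, ← koszulD_natural (mulForms k n (degree_out b d q)) (actFrac k n d)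
        (formsToFrac k n _) (formsToFrac k n _), hα, kmap_cycle, koszulD_cycleFrac]
      intro v s
      simp only [actFrac_apply, formsToFrac, LinearMap.coe_mk, AddHom.coe_mk, mulForms_poly,
        map_mul]
  rw [Submodule.Quotient.nontrivial_iff]
  intro htop
  have h1 : toCycles k α hcyc ∈ Boundaries k n b d p q := by
    rw [htop]; exact Submodule.mem_top
  obtain ⟨y, hy⟩ := mem_of_mem_Boundaries k α hcyc h1
  have h2 := functional_boundary k n d (degree_in b d q) m f hQ y
  rw [hy] at h2
  have h3 := functional_cycle k m hm J f hinj hpow hJ hf'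
  rw [← hα, h2] at h3
  exact zero_ne_one h3

end Final

end

end Pool.Agent.Helper95.Koszul
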