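import Mathlib

set_option autoImplicit false

open scoped TensorProduct

namespace Pool.Agent.Helper95.Koszul

noncomputable section

universe u v w

/-! ### Exterior powers

`ExtPow k p V` is Mathlib's exterior power `⋀[k]^p V`, with `wedge` the canonical alternating map
`(v₁, …, v_p) ↦ v₁ ∧ ⋯ ∧ v_p`. -/

/-- The exterior power `Λ^p V` (a name for the type underlying `⋀[k]^p V`). -/
def ExtPow (k : Type u) [CommRing k] (p : ℕ) (V : Type v) [AddCommGroup V] [Module k V] :
    Type (max u v) :=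
  ↥(⋀[k]^p V)

section ExtPow

variable {k : Type u} [CommRing k] {p : ℕ} {V : Type v} [AddCommGroup V] [Module k V]

instance : AddCommGroup (ExtPow k p V) := Submodule.addCommGroup (⋀[k]^p V)

instance : Module k (ExtPow k p V) := Submodule.module (⋀[k]^p V)

variable (k p) in
/-- The alternating map `(v₁, …, v_p) ↦ v₁ ∧ ⋯ ∧ v_p`. -/
def wedge : V [⋀^Fin p]→ₗ[k] ExtPow k p V := exteriorPower.ιMulti k p

/-- The universal property of the exterior power (existence). -/
lemma exists_extLift {N : Type w} [AddCommGroup N] [Module k N] (f : V [⋀^Fin p]→ₗ[k] N) :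
    ∃ F : ExtPow k p V →ₗ[k] N, ∀ x : Fin p → V, F (wedge k p x) = f x :=
  ⟨exteriorPower.alternatingMapLinearEquiv f, fun x =>
    exteriorPower.alternatingMapLinearEquiv_apply_ιMulti f x⟩

/-- The linear map `Λ^p V → N` with `v₁ ∧ ⋯ ∧ v_p ↦ f (v₁, …, v_p)`, for an alternating map
`f : V^p → N` (it is unique, see `ext_extPow`). -/
def extLift {N : Type w} [AddCommGroup N] [Module k N] (f : V [⋀^Fin p]→ₗ[k] N) :
    ExtPow k p V →ₗ[k] N :=
  Classical.choose (exists_extLift f)

lemma extLift_wedge {N : Type w} [AddCommGroup N] [Module k N] (f : V [⋀^Fin p]→ₗ[k] N)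
    (x : Fin p → V) : extLift f (wedge k p x) = f x :=
  Classical.choose_spec (exists_extLift f) x

lemma ext_extPow {N : Type w} [AddCommGroup N] [Module k N] {f g : ExtPow k p V →ₗ[k] N}
    (h : ∀ x : Fin p → V, f (wedge k p x) = g (wedge k p x)) : f = g := by
  refine exteriorPower.linearMap_ext (R := k) (n := p) (M := V) (N := N) ?_
  ext x
  exact h x

end ExtPow

/-! ### The terms `Λ^p V ⊗ M` -/

/-- The term `Λ^p V ⊗ M` of the Koszul complex. -/
def KTerm (k : Type u) [CommRing k] (p : ℕ) (V M : Type v) [AddCommGroup V] [Module k V]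
    [AddCommGroup M] [Module k M] : Type (max u v) :=
  (ExtPow k p V) ⊗[k] M

section Generic

variable {k : Type u} [CommRing k] {V : Type v} {M : Type v} {N : Type v}
  [AddCommGroup V] [Module k V]
  [AddCommGroup M] [Module k M] [AddCommGroup N] [Module k N]

instance (p : ℕ) : AddCommGroup (KTerm k p V M) := TensorProduct.addCommGroup

instance (p : ℕ) : Module k (KTerm k p V M) := TensorProduct.instModule

variable (k V M) in
/-- The bilinear map `(ω, s) ↦ ω ⊗ s`. -/
def kmk (p : ℕ) : ExtPow k p V →ₗ[k] M →ₗ[k] KTerm k p V M := TensorProduct.mk k _ _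

/-- For a bilinear map `β : V × M → N` and `v : V`, the alternating map
`(v₁, …, v_p) ↦ (s ↦ (v₁ ∧ ⋯ ∧ v_p) ⊗ β v s)`. -/
def koszulStep (β : V →ₗ[k] M →ₗ[k] N) (p : ℕ) (v : V) :
    V [⋀^Fin p]→ₗ[k] (M →ₗ[k] KTerm k p V N) :=
  ((LinearMap.lcomp k (KTerm k p V N) (β v)) ∘ₗ (kmk k V N p)).compAlternatingMap (wedge k p)

lemma koszulStep_apply (β : V →ₗ[k] M →ₗ[k] N) (p : ℕ) (v : V) (x : Fin p → V) (s : M) :
    koszulStep β p v x s = kmk k V N p (wedge k p x) (β v s) := rfl

lemma koszulStep_add (β : V →ₗ[k] M →ₗ[k] N) (p : ℕ) (v w : V) :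
    koszulStep β p (v + w) = koszulStep β p v + koszulStep β p w := by
  ext x s
  simp [koszulStep_apply]

lemma koszulStep_smul (β : V →ₗ[k] M →ₗ[k] N) (p : ℕ) (c : k) (v : V) :
    koszulStep β p (c • v) = (RingHom.id k) c • koszulStep β p v := by
  ext x s
  simp [koszulStep_apply]

/-- `koszulStep` as a linear map of `v`. -/
def koszulAux (β : V →ₗ[k] M →ₗ[k] N) (p : ℕ) :
    V →ₗ[k] V [⋀^Fin p]→ₗ[k] (M →ₗ[k] KTerm k p V N) where
  toFun := koszulStep β p
  map_add' := koszulStep_add β p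
  map_smul' := koszulStep_smul β p

/-- The alternating map `(v₀, …, v_p) ↦ (s ↦ ∑ i, (-1)^i (v₀ ∧ ⋯ v̂_i ⋯ ∧ v_p) ⊗ β v_i s)`. -/
def koszulAlt (β : V →ₗ[k] M →ₗ[k] N) (p : ℕ) :
    V [⋀^Fin (p + 1)]→ₗ[k] (M →ₗ[k] KTerm k p V N) :=
  AlternatingMap.alternatizeUncurryFin (koszulAux β p)

/-- The Koszul differential `Λ^{p+1} V ⊗ M → Λ^p V ⊗ N` of a bilinear map `β : V × M → N`:
`v₀ ∧ ⋯ ∧ v_p ⊗ s ↦ ∑ i, (-1)^i (v₀ ∧ ⋯ v̂_i ⋯ ∧ v_p) ⊗ β v_i s` (see `koszulD_apply`). -/
def koszulD (β : V →ₗ[k] M →ₗ[k] N) (p : ℕ) : KTerm k (p + 1) V M →ₗ[k] KTerm k p V N :=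
  TensorProduct.lift (extLift (koszulAlt β p))

lemma koszulD_apply (β : V →ₗ[k] M →ₗ[k] N) (p : ℕ) (x : Fin (p + 1) → V) (s : M) :
    koszulD β p (kmk k V M (p + 1) (wedge k (p + 1) x) s) =
      ∑ i : Fin (p + 1), (-1 : k) ^ (i : ℕ) •
        (kmk k V N p (wedge k p (i.removeNth x)) (β (x i) s)) := by
  have h : koszulD β p (kmk k V M (p + 1) (wedge k (p + 1) x) s) =
      extLift (koszulAlt β p) (wedge k (p + 1) x) s := rfl
  rw [h, extLift_wedge, koszulAlt]
  simp only [AlternatingMap.alternatizeUncurryFin_apply, LinearMap.sum_apply]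
  refine Finset.sum_congr rfl fun i _ => ?_
  rw [LinearMap.smul_apply]
  change (-1 : ℤ) ^ (i : ℕ) • (kmk k V N p (wedge k p (i.removeNth x)) (β (x i) s)) = _
  rcases Nat.even_or_odd (i : ℕ) with h | h
  · simp [h.neg_one_pow]
  · simp [h.neg_one_pow]

@[elab_as_elim]
lemma KTerm.induction {p : ℕ} {P : KTerm k p V M → Prop} (y : KTerm k p V M) (h0 : P 0)
    (h1 : ∀ ω s, P (kmk k V M p ω s)) (h2 : ∀ y z, P y → P z → P (y + z)) : P y :=
  TensorProduct.induction_on (motive := P) y h0 h1 h2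

/-- Functions on `Λ^p V ⊗ M` vanish if they vanish on `(v₁ ∧ ⋯ ∧ v_p) ⊗ s`. -/
lemma KTerm.hom_ext {p : ℕ} {P : Type w} [AddCommGroup P] [Module k P]
    {F G : KTerm k p V M →ₗ[k] P}
    (h : ∀ (x : Fin p → V) (s : M), F (kmk k V M p (wedge k p x) s) =
      G (kmk k V M p (wedge k p x) s)) : F = G := by
  refine LinearMap.ext fun y => ?_
  induction y using KTerm.induction with
  | h0 => simp
  | h2 y z hy hz => rw [map_add, map_add, hy, hz]
  | h1 ω s =>
    have key : F ∘ₗ (kmk k V M p).flip s = G ∘ₗ (kmk k V M p).flip s := by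
      refine ext_extPow fun x => ?_
      simpa using h x s
    exact LinearMap.congr_fun key ω

end Generic

/-! ### The Koszul cohomology of Veronese embeddings -/

/-- The space of forms of degree `m` in `n + 1` variables; it is zero for `m < 0`. -/
def Forms (k : Type u) [Field k] (n : ℕ) (m : ℤ) : Submodule k (MvPolynomial (Fin (n + 1)) k) :=
  if 0 ≤ m then MvPolynomial.homogeneousSubmodule (Fin (n + 1)) k m.toNat else ⊥

/-- `S^m U`, the space of forms of degree `m` in `n + 1` variables, as a type. -/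
def Sym (k : Type u) [Field k] (n : ℕ) (m : ℤ) : Type u := ↥(Forms k n m)

section Sym

variable {k : Type u} [Field k] {n : ℕ} {d m m' : ℤ}

instance : AddCommGroup (Sym k n m) := Submodule.addCommGroup (Forms k n m)

instance : Module k (Sym k n m) := Submodule.module (Forms k n m)

/-- The polynomial underlying a form. -/
def Sym.poly : Sym k n m →ₗ[k] MvPolynomial (Fin (n + 1)) k := (Forms k n m).subtype

lemma Sym.poly_mem (f : Sym k n m) : f.poly ∈ Forms k n m := Subtype.property f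

lemma Sym.ext {f g : Sym k n m} (h : f.poly = g.poly) : f = g := Subtype.ext h

lemma mul_mem_Forms (h : m + d = m')
    {f g : MvPolynomial (Fin (n + 1)) k} (hf : f ∈ Forms k n d) (hg : g ∈ Forms k n m) :
    f * g ∈ Forms k n m' := by
  unfold Forms at *
  by_cases hd : 0 ≤ d
  · by_cases hm : 0 ≤ m
    · have hm' : 0 ≤ m' := by omega
      rw [if_pos hd] at hf
      rw [if_pos hm] at hg
      rw [if_pos hm']
      rw [MvPolynomial.mem_homogeneousSubmodule] at *
      have := hf.mul hg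
      have e : d.toNat + m.toNat = m'.toNat := by omega
      rwa [e] at this
    · rw [if_neg hm] at hg
      rw [(Submodule.mem_bot k).1 hg, mul_zero]
      exact Submodule.zero_mem _
  · rw [if_neg hd] at hf
    rw [(Submodule.mem_bot k).1 hf, zero_mul]
    exact Submodule.zero_mem _

/-- The product of a form of degree `d` and a form of degree `m`, a form of degree
`m' = m + d`. -/
def Sym.mul (h : m + d = m') (f : Sym k n d) (g : Sym k n m) : Sym k n m' :=
  ⟨f.poly * g.poly, mul_mem_Forms h f.poly_mem g.poly_mem⟩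

lemma Sym.poly_mul (h : m + d = m') (f : Sym k n d) (g : Sym k n m) :
    (Sym.mul h f g).poly = f.poly * g.poly := rfl

lemma Sym.add_mul (h : m + d = m') (f f' : Sym k n d) (g : Sym k n m) :
    Sym.mul h (f + f') g = Sym.mul h f g + Sym.mul h f' g := by
  apply Sym.ext
  rw [map_add]
  simp only [Sym.poly_mul, map_add]
  ring

lemma Sym.smul_mul (h : m + d = m') (c : k) (f : Sym k n d) (g : Sym k n m) :
    Sym.mul h (c • f) g = c • Sym.mul h f g := by
  apply Sym.ext
  rw [map_smul]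
  simp only [Sym.poly_mul, map_smul, smul_mul_assoc]

lemma Sym.mul_add (h : m + d = m') (f : Sym k n d) (g g' : Sym k n m) :
    Sym.mul h f (g + g') = Sym.mul h f g + Sym.mul h f g' := by
  apply Sym.ext
  rw [map_add]
  simp only [Sym.poly_mul, map_add]
  ring

lemma Sym.mul_smul (h : m + d = m') (c : k) (f : Sym k n d) (g : Sym k n m) :
    Sym.mul h f (c • g) = c • Sym.mul h f g := by
  apply Sym.ext
  rw [map_smul]
  simp only [Sym.poly_mul, map_smul, mul_smul_comm]

variable (k n) in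
/-- Multiplication of forms `S^d U × S^m U → S^{m'} U` for `m' = m + d`. -/
def mulForms (h : m + d = m') : Sym k n d →ₗ[k] Sym k n m →ₗ[k] Sym k n m' :=
  LinearMap.mk₂ k (Sym.mul h) (Sym.add_mul h) (Sym.smul_mul h) (Sym.mul_add h) (Sym.mul_smul h)

lemma mulForms_poly (h : m + d = m') (f : Sym k n d) (g : Sym k n m) :
    (mulForms k n h f g).poly = f.poly * g.poly := rfl

end Sym

/-- The term `Λ^p (S^d U) ⊗ S^m U` of the Koszul complex. -/
abbrev Term (k : Type u) [Field k] (n d p : ℕ) (m : ℤ) : Type u :=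
  KTerm k p (Sym k n (d : ℤ)) (Sym k n m)

/-- The Koszul differential `Λ^{p+1} (S^d U) ⊗ S^m U → Λ^p (S^d U) ⊗ S^{m'} U`, `m' = m + d`. -/
def diff (k : Type u) [Field k] (n d p : ℕ) {m m' : ℤ} (h : m + d = m') :
    Term k n d (p + 1) m →ₗ[k] Term k n d p m' :=
  koszulD (mulForms k n h) p

/-- The kernel of the outgoing differential
`Λ^p (S^d U) ⊗ S^m U → Λ^{p-1} (S^d U) ⊗ S^{m'} U`, `m' = m + d` (everything if `p = 0`). -/
def cycles (k : Type u) [Field k] (n d p : ℕ) {m m' : ℤ} (h : m + d = m') :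
    Submodule k (Term k n d p m) :=
  match p with
  | 0 => ⊤
  | p + 1 => LinearMap.ker (diff k n d p h)

/-- The image of the incoming differential
`Λ^{p+1} (S^d U) ⊗ S^{m'} U → Λ^p (S^d U) ⊗ S^m U`, where `m' + d = m`. -/
def boundaries (k : Type u) [Field k] (n d p : ℕ) {m' m : ℤ} (h : m' + d = m) :
    Submodule k (Term k n d p m) :=
  LinearMap.range (diff k n d p h)

lemma degree_in (b d q : ℕ) : (((q : ℤ) - 1) * d + b) + d = (q : ℤ) * d + b := by ring

lemma degree_out (b d q : ℕ) : ((q : ℤ) * d + b) + d = ((q : ℤ) + 1) * d + b := by ring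

/-- The kernel of the differential `Λ^p(S^d U) ⊗ S^{qd+b} U → Λ^{p-1}(S^d U) ⊗ S^{(q+1)d+b} U`
(everything if `p = 0`). -/
def Cycles (k : Type u) [Field k] (n b d p q : ℕ) : Type u :=
  ↥(cycles k n d p (degree_out b d q))

instance (k : Type u) [Field k] (n b d p q : ℕ) : AddCommGroup (Cycles k n b d p q) :=
  Submodule.addCommGroup (cycles k n d p (degree_out b d q))

instance (k : Type u) [Field k] (n b d p q : ℕ) : Module k (Cycles k n b d p q) :=
  Submodule.module (cycles k n d p (degree_out b d q))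

/-- The cycles which lie in the image of the differential
`Λ^{p+1}(S^d U) ⊗ S^{(q-1)d+b} U → Λ^p(S^d U) ⊗ S^{qd+b} U`. -/
def Boundaries (k : Type u) [Field k] (n b d p q : ℕ) : Submodule k (Cycles k n b d p q) :=
  (boundaries k n d p (degree_in b d q)).submoduleOf (cycles k n d p (degree_out b d q))

/-- The Koszul cohomology group `K_{p,q}(P^n, b; d)`, the cohomology at the middle of
`Λ^{p+1}(S^d U) ⊗ S^{(q-1)d+b} U → Λ^p(S^d U) ⊗ S^{qd+b} U → Λ^{p-1}(S^d U) ⊗ S^{(q+1)d+b} U`. -/
abbrev KoszulCohomology (k : Type u) [Field k] (n b d p q : ℕ) : Type u :=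
  Cycles k n b d p q ⧸ Boundaries k n b d p q

end

end Pool.Agent.Helper95.Koszul
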