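import Pool.Agent.Helper95.KoszulDef

set_option autoImplicit false

open scoped TensorProduct

namespace Pool.Agent.Helper95.Koszul

noncomputable section

universe u v

/-! ### Naturality of the Koszul differential -/

section Naturality

variable {k : Type u} [CommRing k] {V M N M' N' : Type v}
  [AddCommGroup V] [Module k V]
  [AddCommGroup M] [Module k M] [AddCommGroup N] [Module k N]
  [AddCommGroup M'] [Module k M'] [AddCommGroup N'] [Module k N']

/-- Functoriality of `Λ^p V ⊗ M` in `M`. -/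
def kmap (p : ℕ) (ι : M →ₗ[k] M') : KTerm k p V M →ₗ[k] KTerm k p V M' :=
  ι.lTensor (ExtPow k p V)

lemma kmap_apply (p : ℕ) (ι : M →ₗ[k] M') (ω : ExtPow k p V) (s : M) :
    kmap p ι (kmk k V M p ω s) = kmk k V M' p ω (ι s) := rfl

lemma koszulD_natural (β : V →ₗ[k] M →ₗ[k] N) (β' : V →ₗ[k] M' →ₗ[k] N')
    (ι : M →ₗ[k] M') (ι' : N →ₗ[k] N') (h : ∀ v s, β' v (ι s) = ι' (β v s)) (p : ℕ)
    (y : KTerm k (p + 1) V M) :
    koszulD β' p (kmap (p + 1) ι y) = kmap p ι' (koszulD β p y) := by
  have key : koszulD β' p ∘ₗ kmap (p + 1) ι = kmap p ι' ∘ₗ koszulD β p := by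
    refine KTerm.hom_ext fun x s => ?_
    simp only [LinearMap.comp_apply, kmap_apply, koszulD_apply, map_sum, map_smul, h]
  exact LinearMap.congr_fun key y

end Naturality

/-! ### Monomials as forms -/

section Forms

variable (k : Type u) [Field k] (n : ℕ)

/-- A monomial of degree `m`, as an element of `S^m U`. -/
def mono {m : ℤ} (e : Fin (n + 1) →₀ ℕ) (he : (e.degree : ℤ) = m) : Sym k n m :=
  ⟨MvPolynomial.monomial e 1, by
    unfold Forms
    have h0 : 0 ≤ m := by omega
    rw [if_pos h0, MvPolynomial.mem_homogeneousSubmodule]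
    refine MvPolynomial.isHomogeneous_monomial _ ?_
    omega⟩

@[simp] lemma mono_poly {m : ℤ} (e : Fin (n + 1) →₀ ℕ) (he : (e.degree : ℤ) = m) :
    (mono k n e he).poly = MvPolynomial.monomial e 1 :=
  rfl

lemma coeff_eq_zero_of_mem {m : ℤ} {g : MvPolynomial (Fin (n + 1)) k} (hg : g ∈ Forms k n m)
    {e : Fin (n + 1) →₀ ℕ} (he : (e.degree : ℤ) ≠ m) : MvPolynomial.coeff e g = 0 := by
  unfold Forms at hg
  by_cases h0 : 0 ≤ m
  · rw [if_pos h0, MvPolynomial.mem_homogeneousSubmodule] at hg
    refine hg.coeff_eq_zero ?_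
    omega
  · rw [if_neg h0] at hg
    rw [(Submodule.mem_bot k).1 hg, MvPolynomial.coeff_zero]

end Forms

/-! ### The functional -/

section Functional

variable (k : Type u) [Field k] (n d : ℕ) {p : ℕ}

/-- Coefficients of a form at the exponents `m j`. -/
def coeffs {m0 : ℤ} (m : Fin p → (Fin (n + 1) →₀ ℕ)) : Sym k n m0 →ₗ[k] (Fin p → k) where
  toFun g j := MvPolynomial.coeff (m j) g.poly
  map_add' f g := by ext j; simp
  map_smul' c g := by ext j; simp

/-- Coefficient of a form at one exponent. -/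
def coeffOne {m0 : ℤ} (f : Fin (n + 1) →₀ ℕ) : Sym k n m0 →ₗ[k] k where
  toFun g := MvPolynomial.coeff f g.poly
  map_add' f g := by simp
  map_smul' c g := by simp

/-- The functional `v₁ ∧ ⋯ ∧ v_p ⊗ s ↦ det (coeff (m j) (v i)) * coeff f s`. -/
def functional {m0 : ℤ} (m : Fin p → (Fin (n + 1) →₀ ℕ)) (f : Fin (n + 1) →₀ ℕ) :
    Term k n d p m0 →ₗ[k] k :=
  (LinearMap.mul' k k) ∘ₗ (TensorProduct.map
    (extLift ((Matrix.detRowAlternating (n := Fin p) (R := k)).compLinearMap
      (coeffs k n (m0 := (d : ℤ)) m)))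
    (coeffOne k n (m0 := m0) f))

lemma functional_apply {m0 : ℤ} (m : Fin p → (Fin (n + 1) →₀ ℕ)) (f : Fin (n + 1) →₀ ℕ)
    (x : Fin p → Sym k n (d : ℤ)) (s : Sym k n m0) :
    functional k n d m f (kmk k _ _ p (wedge k p x) s) =
      Matrix.det (Matrix.of fun i j => MvPolynomial.coeff (m j) (x i).poly) *
      MvPolynomial.coeff f s.poly := by
  have h : functional k n d m f (kmk k _ _ p (wedge k p x) s) =
      extLift ((Matrix.detRowAlternating (n := Fin p) (R := k)).compLinearMap
      (coeffs k n (m0 := (d : ℤ)) m)) (wedge k p x) * coeffOne k n (m0 := m0) f s := rfl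
  rw [h, extLift_wedge]
  rfl

lemma functional_boundary {m0 m1 : ℤ} (h : m1 + (d : ℤ) = m0)
    (m : Fin p → (Fin (n + 1) →₀ ℕ)) (f : Fin (n + 1) →₀ ℕ)
    (hQ : ∀ e : Fin (n + 1) →₀ ℕ, e.degree = d → e ≤ f → ∃ j, m j = e)
    (y : Term k n d (p + 1) m1) :
    functional k n d (m0 := m0) m f (diff k n d p h y) = 0 := by
  have key : functional k n d (m0 := m0) m f ∘ₗ diff k n d p h = 0 := by
    refine KTerm.hom_ext fun x s => ?_
    simp only [diff, LinearMap.comp_apply, koszulD_apply, map_sum, map_smul, functional_apply,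
      mulForms_poly, LinearMap.zero_apply, MvPolynomial.coeff_mul, smul_eq_mul, Finset.mul_sum]
    rw [Finset.sum_comm]
    refine Finset.sum_eq_zero fun ab hab => ?_
    rw [Finset.HasAntidiagonal.mem_antidiagonal] at hab
    -- the determinant with the extra column
    have hdet := Matrix.det_succ_column_zero (R := k) (n := p)
      (Matrix.of fun (i : Fin (p + 1)) (j : Fin (p + 1)) =>
        MvPolynomial.coeff ((Fin.cons ab.1 m : Fin (p + 1) → (Fin (n + 1) →₀ ℕ)) j) (x i).poly)
    have hzero : Matrix.det (Matrix.of fun (i : Fin (p + 1)) (j : Fin (p + 1)) =>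
        MvPolynomial.coeff ((Fin.cons ab.1 m : Fin (p + 1) → (Fin (n + 1) →₀ ℕ)) j)
          (x i).poly) = 0 := by
      by_cases hdeg : ab.1.degree = d
      · obtain ⟨j, hj⟩ := hQ ab.1 hdeg (by rw [← hab]; exact le_self_add)
        refine Matrix.det_zero_of_column_eq (i := 0) (j := j.succ) (Fin.succ_ne_zero j).symm ?_
        intro i
        simp [Fin.cons_succ, hj]
      · refine Matrix.det_eq_zero_of_column_eq_zero 0 fun i => ?_
        simp only [Matrix.of_apply, Fin.cons_zero]
        exact coeff_eq_zero_of_mem k n (x i).poly_mem (by exact_mod_cast hdeg)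
    rw [hzero] at hdet
    have : ∀ i : Fin (p + 1), (-1 : k) ^ (i : ℕ) *
        (Matrix.det (Matrix.of fun a j => MvPolynomial.coeff (m j)
          (i.removeNth x a).poly) *
        (MvPolynomial.coeff ab.1 (x i).poly * MvPolynomial.coeff ab.2 s.poly)) =
        ((-1 : k) ^ (i : ℕ) *
          (Matrix.of fun (i : Fin (p + 1)) (j : Fin (p + 1)) =>
            MvPolynomial.coeff ((Fin.cons ab.1 m : Fin (p + 1) → (Fin (n + 1) →₀ ℕ)) j)
            (x i).poly) i 0 *
          Matrix.det ((Matrix.of fun (i : Fin (p + 1)) (j : Fin (p + 1)) =>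
            MvPolynomial.coeff ((Fin.cons ab.1 m : Fin (p + 1) → (Fin (n + 1) →₀ ℕ)) j)
            (x i).poly).submatrix i.succAbove Fin.succ)) *
          MvPolynomial.coeff ab.2 s.poly := by
      intro i
      have e1 : (Matrix.of fun a j => MvPolynomial.coeff (m j) (i.removeNth x a).poly) =
          ((Matrix.of fun (i : Fin (p + 1)) (j : Fin (p + 1)) =>
            MvPolynomial.coeff ((Fin.cons ab.1 m : Fin (p + 1) → (Fin (n + 1) →₀ ℕ)) j)
            (x i).poly).submatrix i.succAbove Fin.succ) := by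
        ext a j
        simp [Fin.removeNth]
      rw [e1]
      simp only [Matrix.of_apply, Fin.cons_zero]
      ring
    rw [Finset.sum_congr rfl fun i _ => this i, ← Finset.sum_mul, ← hdet, zero_mul]
  exact LinearMap.congr_fun key y

end Functional

end

end Pool.Agent.Helper95.Koszul
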