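import Mathlib
import Pool.Agent.Helper95.BigG

set_option autoImplicit false

open scoped commutatorElement

namespace Pool.Agent.Helper95

theorem dihedral_class_two (a b c : DihedralGroup 4) : ⁅(⁅a, b⁆ : DihedralGroup 4), c⁆ = 1 := by
  revert a b c
  decide

/-- The sum of the coefficients over the slice `n`. -/
noncomputable def sl (n : ℤ) (m : LQ →₀ ZMod 2) : ZMod 2 :=
  m.sum fun y a => if y.n = n then a else 0

theorem sl_add (n : ℤ) (m m' : LQ →₀ ZMod 2) : sl n (m + m') = sl n m + sl n m' := by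
  unfold sl
  rw [Finsupp.sum_add_index']
  · intro y; simp
  · intro y a b; split_ifs <;> simp

theorem sl_zero (n : ℤ) : sl n 0 = 0 := by simp [sl]

theorem sl_neg (n : ℤ) (m : LQ →₀ ZMod 2) : sl n (-m) = - sl n m := by
  have h := sl_add n m (-m)
  rw [add_neg_cancel, sl_zero] at h
  linear_combination -h

theorem sl_act (n : ℤ) (q : LQ) (m : LQ →₀ ZMod 2) : sl n (act q m) = sl (n + q.n) m := by
  unfold sl act
  rw [Finsupp.sum_mapDomain_index]
  · refine Finsupp.sum_congr fun y _ => ?_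
    congr 1
    simp only [LQ.mul_n, LQ.inv_n, eq_iff_iff]
    omega
  · intro y; simp
  · intro y a b; split_ifs <;> simp

theorem sl_single (n : ℤ) (y : LQ) (a : ZMod 2) :
    sl n (Finsupp.single y a) = if y.n = n then a else 0 := by
  unfold sl
  rw [Finsupp.sum_single_index]
  simp

section

variable {R : Type} [Group R]

/-- The crossed homomorphism reading off the slices. -/
noncomputable def tau (x : BigG R) (r : R) (n : ℤ) : ZMod 2 := sl n (x.left r).m

theorem tau_mul (x y : BigG R) (r : R) (n : ℤ) :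
    tau (x * y) r n = tau x r n + tau y (x.right.1⁻¹ * r) (n + x.right.2.n) := by
  unfold tau
  rw [SemidirectProduct.mul_left, Pi.mul_apply, Heis.mul_m, sl_add, actHom_apply, Heis.actH_m,
    sl_act]

theorem tau_inv (x : BigG R) (r : R) (n : ℤ) :
    tau x⁻¹ r n = - tau x (x.right.1 * r) (n - x.right.2.n) := by
  unfold tau
  rw [SemidirectProduct.inv_left, actHom_apply, Heis.actH_m, sl_act]
  simp only [Pi.inv_apply, Heis.inv_m, Prod.fst_inv, Prod.snd_inv, inv_inv, LQ.inv_n]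
  rw [sl_neg, sub_eq_add_neg]

end

open Classical in
/-- first generator -/
noncomputable def genA : BigG (DihedralGroup 4) :=
  ⟨fun r => if r = 1 then ⟨Finsupp.single 1 1, 0⟩ else 1,
    (DihedralGroup.sr 0, ⟨Finsupp.single 0 1, 0⟩)⟩

/-- second generator -/
noncomputable def genB : BigG (DihedralGroup 4) :=
  ⟨1, (DihedralGroup.sr 1, ⟨0, 1⟩)⟩

theorem tau_genA (r : DihedralGroup 4) (n : ℤ) :
    tau genA r n = if r = 1 ∧ n = 0 then 1 else 0 := by
  unfold tau genA
  by_cases hr : r = 1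
  · by_cases hn : n = 0
    · subst hn
      simp [hr, sl_single]
    · have : ¬ ((0 : ℤ) = n) := fun h => hn h.symm
      simp [hr, hn, sl_single, this]
  · simp [hr, sl_zero]

theorem tau_genB (r : DihedralGroup 4) (n : ℤ) : tau genB r n = 0 := by
  unfold tau genB
  simp [sl_zero]

theorem genA_right_fst : genA.right.1 = DihedralGroup.sr 0 := rfl
theorem genA_right_snd_n : genA.right.2.n = 0 := rfl
theorem genB_right_fst : genB.right.1 = DihedralGroup.sr 1 := rfl
theorem genB_right_snd_n : genB.right.2.n = 1 := rfl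

theorem tau_h : tau (⁅(⁅genA, genB⁆ : BigG (DihedralGroup 4)),
    (⁅genA, genB ^ 2⁆ : BigG (DihedralGroup 4))⁆) 1 0 = 1 := by
  simp only [commutatorElement_def, pow_two, tau_mul, tau_inv, tau_genA, tau_genB,
    SemidirectProduct.mul_right, SemidirectProduct.inv_right, Prod.fst_mul, Prod.snd_mul,
    Prod.fst_inv, Prod.snd_inv, LQ.mul_n, LQ.inv_n, genA_right_fst, genA_right_snd_n,
    genB_right_fst, genB_right_snd_n]
  decide

/-- The image in `LQ` of the first generator. -/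
noncomputable def qa : LQ := ⟨Finsupp.single 0 1, 0⟩
/-- The image in `LQ` of the second generator. -/
noncomputable def qb : LQ := ⟨0, 1⟩

theorem od_g (i : ℤ) : od ((⁅(⁅qa, qb⁆ : LQ), qb⁆ : LQ).e i) ↔ (i = 0 ∨ i = 2) := by
  rw [LQ.comm_e _ _ (LQ.comm_n qa qb), LQ.comm_e qa qb rfl]
  simp only [qa, qb, Finsupp.coe_sub, Pi.sub_apply, shift_apply, Finsupp.single_apply]
  rcases eq_or_ne i 0 with h0 | h0
  · subst h0; simp; decide
  rcases eq_or_ne i 1 with h1 | h1
  · subst h1; simp; decide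
  rcases eq_or_ne i 2 with h2 | h2
  · subst h2; simp; decide
  have e1 : ¬ (0 = i) := fun h => h0 h.symm
  have e2 : ¬ (0 = i - 1) := fun h => h1 (by omega)
  have e3 : ¬ (0 = i - 1 - 1) := fun h => h2 (by omega)
  simp only [e1, e2, e3, h0, h2, if_false, or_self, iff_false]
  decide

theorem nuS_g (y : LQ) : nuS nu (y * (⁅(⁅qa, qb⁆ : LQ), qb⁆ : LQ)⁻¹ * y⁻¹) =
    if y.n = 0 then 1 else 0 := by
  classical
  set g : LQ := ⁅(⁅qa, qb⁆ : LQ), qb⁆ with hg
  have hn : g.n = 0 := LQ.comm_n _ _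
  have he : (y * g⁻¹ * y⁻¹).e = - shift y.n g.e := by
    simp only [LQ.mul_e, LQ.mul_n, LQ.inv_e, LQ.inv_n, hn, neg_zero, shift_zero, shift_neg,
      shift_shift, add_zero, add_neg_cancel]
    abel
  have hn' : (y * g⁻¹ * y⁻¹).n = 0 := by simp [hn]
  rw [nuS_nu, he, hn']
  by_cases hy : y.n = 0
  · rw [if_pos hy, if_pos]
    refine ⟨rfl, ?_⟩
    rw [pat_neg, hy, shift_zero]
    exact od_g
  · rw [if_neg hy, if_neg]
    rintro ⟨-, hp⟩
    rw [pat_neg] at hp
    have h1 := (hp 0).2 (Or.inl rfl)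
    have h2 := (hp 2).2 (Or.inr rfl)
    rw [shift_apply, hg, od_g] at h1 h2
    omega

theorem word_ne_one :
    ⁅(⁅(⁅genA, genB⁆ : BigG (DihedralGroup 4)), genB⁆ : BigG (DihedralGroup 4)) *
      ⁅(⁅genA, genB⁆ : BigG (DihedralGroup 4)), (⁅genA, genB ^ 2⁆ : BigG (DihedralGroup 4))⁆ *
      (⁅(⁅genA, genB⁆ : BigG (DihedralGroup 4)), genB⁆ : BigG (DihedralGroup 4))⁻¹,
      ⁅(⁅genA, genB⁆ : BigG (DihedralGroup 4)), (⁅genA, genB ^ 2⁆ : BigG (DihedralGroup 4))⁆⁆ ≠ 1 := by
  intro hw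
  set g : BigG (DihedralGroup 4) := ⁅(⁅genA, genB⁆ : BigG (DihedralGroup 4)), genB⁆ with hg
  set h : BigG (DihedralGroup 4) := ⁅(⁅genA, genB⁆ : BigG (DihedralGroup 4)),
    (⁅genA, genB ^ 2⁆ : BigG (DihedralGroup 4))⁆ with hh
  have hmem1 : ∀ x y : BigG (DihedralGroup 4), ⁅x, y⁆ ∈ derivedSeries (BigG (DihedralGroup 4)) 1 :=
    fun x y => Subgroup.commutator_mem_commutator (Subgroup.mem_top _) (Subgroup.mem_top _)
  have hr : h.right = 1 := right_of_mem_two dihedral_class_two h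
    (Subgroup.commutator_mem_commutator (hmem1 _ _) (hmem1 _ _))
  have hg1 : g.right.1 = 1 := by
    have : toR g = ⁅(⁅toR genA, toR genB⁆ : DihedralGroup 4), toR genB⁆ := by
      rw [hg, map_commutatorElement, map_commutatorElement]
    rw [dihedral_class_two] at this
    exact this
  have hg2 : g.right.2 = ⁅(⁅qa, qb⁆ : LQ), qb⁆ := by
    have : toLQ g = ⁅(⁅toLQ genA, toLQ genB⁆ : LQ), toLQ genB⁆ := by
      rw [hg, map_commutatorElement, map_commutatorElement]
    exact this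
  have hgn : g.right.2.n = 0 := by rw [hg2]; exact LQ.comm_n _ _
  have h1 := congrArg (fun x : BigG (DihedralGroup 4) => (x.left 1).c) hw
  rw [comm_left _ _ (conj_right g h hr) hr, conj_left g h hr, Heis.comm_conj, hg1, inv_one,
    one_mul, Heis.comm_actH _ _ (nuS_inv_cond _ hgn), hg2] at h1
  have h2 : ∑ y ∈ (h.left 1).m.support, (h.left 1).m y *
      nuS nu (y * (⁅(⁅qa, qb⁆ : LQ), qb⁆ : LQ)⁻¹ * y⁻¹) = tau h 1 0 := by
    unfold tau sl
    rw [Finsupp.sum]
    refine Finset.sum_congr rfl fun y _ => ?_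
    rw [nuS_g]
    split_ifs <;> simp
  have h3 : tau h 1 0 = (0 : ZMod 2) := by
    rw [← h2]
    exact h1
  rw [tau_h] at h3
  exact absurd h3 (by decide)

end Pool.Agent.Helper95
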