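import Mathlib
import Pool.Agent.Helper95.Witness

set_option autoImplicit false

open scoped commutatorElement

namespace Pool.Agent.Helper95

/-- `K` satisfies the laws `W`. -/
def Sat (W : Set (FreeGroup ℕ)) (K : Type*) [Group K] : Prop :=
  ∀ w ∈ W, ∀ φ : FreeGroup ℕ →* K, φ w = 1

/-- Elements of the derived series are values of words in the derived series. -/
theorem mem_derivedSeries_value {K : Type*} [Group K] (n : ℕ) (x : K)
    (hx : x ∈ derivedSeries K n) :
    ∃ w ∈ derivedSeries (FreeGroup ℕ) n, ∃ φ : FreeGroup ℕ →* K, φ w = x := by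
  induction n generalizing x with
  | zero =>
    exact ⟨FreeGroup.of 0, Subgroup.mem_top _, FreeGroup.lift fun _ => x, by simp⟩
  | succ n ih =>
    -- merging two substitutions
    have merge : ∀ (w₁ w₂ : FreeGroup ℕ) (φ₁ φ₂ : FreeGroup ℕ →* K),
        ∃ (f₁ f₂ : FreeGroup ℕ →* FreeGroup ℕ) (φ : FreeGroup ℕ →* K),
          φ (f₁ w₁) = φ₁ w₁ ∧ φ (f₂ w₂) = φ₂ w₂ := by
      intro w₁ w₂ φ₁ φ₂
      refine ⟨FreeGroup.lift fun i => FreeGroup.of (2 * i),
        FreeGroup.lift fun i => FreeGroup.of (2 * i + 1),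
        FreeGroup.lift fun i => if i % 2 = 0 then φ₁ (FreeGroup.of (i / 2))
          else φ₂ (FreeGroup.of (i / 2)), ?_, ?_⟩
      · rw [← MonoidHom.comp_apply]
        congr 1
        ext i
        simp
      · rw [← MonoidHom.comp_apply]
        congr 1
        ext i
        have h1 : (2 * i + 1) % 2 = 1 := by omega
        have h2 : (2 * i + 1) / 2 = i := by omega
        simp [h1, h2]
    rw [derivedSeries_succ, Subgroup.commutator_def] at hx
    induction hx using Subgroup.closure_induction with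
    | mem x hx =>
      obtain ⟨a, ha, b, hb, rfl⟩ := hx
      obtain ⟨w₁, hw₁, φ₁, rfl⟩ := ih a ha
      obtain ⟨w₂, hw₂, φ₂, rfl⟩ := ih b hb
      obtain ⟨f₁, f₂, φ, h₁, h₂⟩ := merge w₁ w₂ φ₁ φ₂
      refine ⟨⁅f₁ w₁, f₂ w₂⁆, ?_, φ, ?_⟩
      · rw [derivedSeries_succ]
        exact Subgroup.commutator_mem_commutator
          (map_derivedSeries_le_derivedSeries f₁ n (Subgroup.mem_map_of_mem _ hw₁))
          (map_derivedSeries_le_derivedSeries f₂ n (Subgroup.mem_map_of_mem _ hw₂))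
      · rw [map_commutatorElement, h₁, h₂]
    | one => exact ⟨1, Subgroup.one_mem _, 1, rfl⟩
    | mul x y _ _ hx hy =>
      obtain ⟨w₁, hw₁, φ₁, rfl⟩ := hx
      obtain ⟨w₂, hw₂, φ₂, rfl⟩ := hy
      obtain ⟨f₁, f₂, φ, h₁, h₂⟩ := merge w₁ w₂ φ₁ φ₂
      refine ⟨f₁ w₁ * f₂ w₂, ?_, φ, ?_⟩
      · exact Subgroup.mul_mem _
          (map_derivedSeries_le_derivedSeries f₁ _ (Subgroup.mem_map_of_mem _ hw₁))
          (map_derivedSeries_le_derivedSeries f₂ _ (Subgroup.mem_map_of_mem _ hw₂))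
      · rw [map_mul, h₁, h₂]
    | inv x _ hx =>
      obtain ⟨w₁, hw₁, φ₁, rfl⟩ := hx
      exact ⟨w₁⁻¹, Subgroup.inv_mem _ hw₁, φ₁, by rw [map_inv]⟩

/-- The laws: derived length at most four, and `[[t, s^k] h [t, s^k]⁻¹, h]` for `h` in the second
derived subgroup, `t` in the derived subgroup and `k ≥ 3`. -/
def lawSet : Set (FreeGroup ℕ) :=
  {w | w ∈ derivedSeries (FreeGroup ℕ) 4} ∪
  {w | ∃ h ∈ derivedSeries (FreeGroup ℕ) 2, ∃ t ∈ derivedSeries (FreeGroup ℕ) 1,
    ∃ s : FreeGroup ℕ, ∃ k : ℕ, 3 ≤ k ∧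
      w = ⁅(⁅t, s ^ k⁆ : FreeGroup ℕ) * h * (⁅t, s ^ k⁆ : FreeGroup ℕ)⁻¹, h⁆}

theorem sat_bigG : Sat lawSet (BigG (DihedralGroup 4)) := by
  intro w hw φ
  rcases hw with hw | ⟨h, hh, t, ht, s, k, hk, rfl⟩
  · have := map_derivedSeries_le_derivedSeries φ 4 (Subgroup.mem_map_of_mem _ hw)
    rwa [derivedSeries_four dihedral_class_two, Subgroup.mem_bot] at this
  · rw [map_commutatorElement, map_mul, map_mul, map_inv, map_commutatorElement, map_pow]
    exact law dihedral_class_two (φ h) (φ t) (φ s)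
      (map_derivedSeries_le_derivedSeries φ 2 (Subgroup.mem_map_of_mem _ hh))
      (map_derivedSeries_le_derivedSeries φ 1 (Subgroup.mem_map_of_mem _ ht)) k hk

theorem derivedSeries_four_of_sat {K : Type*} [Group K] (h : Sat lawSet K) :
    derivedSeries K 4 = ⊥ := by
  rw [eq_bot_iff]
  intro x hx
  obtain ⟨w, hw, φ, rfl⟩ := mem_derivedSeries_value 4 x hx
  exact h w (Or.inl hw) φ

/-- The critical word. -/
def crit {K : Type*} [Group K] (a b : K) (k : ℕ) : K :=
  ⁅(⁅(⁅a, b⁆ : K), b ^ k⁆ : K) * ⁅(⁅a, b⁆ : K), (⁅a, b ^ 2⁆ : K)⁆ * (⁅(⁅a, b⁆ : K), b ^ k⁆ : K)⁻¹,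
    ⁅(⁅a, b⁆ : K), (⁅a, b ^ 2⁆ : K)⁆⁆

theorem map_crit {K L : Type*} [Group K] [Group L] (f : K →* L) (a b : K) (k : ℕ) :
    f (crit a b k) = crit (f a) (f b) k := by
  simp only [crit, map_commutatorElement, map_mul, map_inv, map_pow]

theorem crit_eq_one_of_sat {K : Type*} [Group K] (h : Sat lawSet K) (a b : K) (k : ℕ)
    (hk : 3 ≤ k) : crit a b k = 1 := by
  have hmem1 : ∀ x y : FreeGroup ℕ, ⁅x, y⁆ ∈ derivedSeries (FreeGroup ℕ) 1 :=
    fun x y => Subgroup.commutator_mem_commutator (Subgroup.mem_top _) (Subgroup.mem_top _)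
  have := h (crit (FreeGroup.of 0) (FreeGroup.of 1) k)
    (Or.inr ⟨⁅(⁅FreeGroup.of 0, FreeGroup.of 1⁆ : FreeGroup ℕ),
        (⁅FreeGroup.of 0, (FreeGroup.of 1) ^ 2⁆ : FreeGroup ℕ)⁆,
      Subgroup.commutator_mem_commutator (hmem1 _ _) (hmem1 _ _),
      ⁅FreeGroup.of 0, FreeGroup.of 1⁆, hmem1 _ _, FreeGroup.of 1, k, hk, rfl⟩)
    (FreeGroup.lift fun i => if i = 0 then a else b)
  rw [map_crit] at this
  simpa using this

/-- In a group satisfying the laws the critical word lies in every subgroup of finite index. -/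
theorem crit_mem_of_index {K : Type*} [Group K] (h : Sat lawSet K) (a b : K)
    (H : Subgroup K) (hH : H.index ≠ 0) : crit a b 1 ∈ H := by
  have : H.FiniteIndex := ⟨hH⟩
  have hN : H.normalCore.FiniteIndex := inferInstance
  apply H.normalCore_le
  rw [← QuotientGroup.eq_one_iff]
  set n := Nat.card (K ⧸ H.normalCore) with hn
  have hnpos : 0 < n := by
    rw [hn]
    exact Nat.card_pos
  have h1 : ((b : K ⧸ H.normalCore)) ^ (3 * n + 1) = (b : K ⧸ H.normalCore) ^ 1 := by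
    rw [pow_succ, mul_comm 3 n, pow_mul, hn, pow_card_eq_one', one_pow, one_mul, pow_one]
  have h2 : (QuotientGroup.mk' H.normalCore) (crit a b 1) =
      (QuotientGroup.mk' H.normalCore) (crit a b (3 * n + 1)) := by
    rw [map_crit, map_crit]
    unfold crit
    simp only [QuotientGroup.mk'_apply]
    rw [h1]
  have h3 : crit a b (3 * n + 1) = 1 := crit_eq_one_of_sat h a b _ (by omega)
  rw [h3, map_one] at h2
  exact h2

/-- The verbal subgroup. -/
abbrev verb (W : Set (FreeGroup ℕ)) (α : Type*) : Subgroup (FreeGroup α) :=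
  Subgroup.normalClosure {x : FreeGroup α | ∃ w ∈ W, ∃ φ : FreeGroup ℕ →* FreeGroup α, φ w = x}

theorem sat_quot (W : Set (FreeGroup ℕ)) (α : Type*) : Sat W (FreeGroup α ⧸ verb W α) := by
  intro w hw φ
  -- lift the substitution
  choose g hg using fun i : ℕ => QuotientGroup.mk_surjective (φ (FreeGroup.of i))
  have : φ = (QuotientGroup.mk' (verb W α)).comp (FreeGroup.lift g) := by
    ext i
    simp [hg]
  rw [this, MonoidHom.comp_apply, QuotientGroup.mk'_apply, QuotientGroup.eq_one_iff]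
  exact Subgroup.subset_normalClosure ⟨w, hw, _, rfl⟩

theorem crit_one {K : Type*} [Group K] (a b : K) : crit a b 1 =
    ⁅(⁅(⁅a, b⁆ : K), b⁆ : K) * ⁅(⁅a, b⁆ : K), (⁅a, b ^ 2⁆ : K)⁆ * (⁅(⁅a, b⁆ : K), b⁆ : K)⁻¹,
      ⁅(⁅a, b⁆ : K), (⁅a, b ^ 2⁆ : K)⁆⁆ := by
  unfold crit
  rw [pow_one]

theorem crit_gen_ne_one : crit genA genB 1 ≠ 1 := by
  rw [crit_one]
  exact word_ne_one

theorem crit_ne_one (α : Type*) (a b : α) (hab : a ≠ b) :
    crit (QuotientGroup.mk (FreeGroup.of a) : FreeGroup α ⧸ verb lawSet α)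
      (QuotientGroup.mk (FreeGroup.of b)) 1 ≠ 1 := by
  classical
  intro hc
  let Φ : FreeGroup α →* BigG (DihedralGroup 4) :=
    FreeGroup.lift fun i => if i = a then genA else if i = b then genB else 1
  have hker : verb lawSet α ≤ Φ.ker := by
    apply Subgroup.normalClosure_le_normal
    rintro _ ⟨w, hw, φ, rfl⟩
    rw [SetLike.mem_coe, MonoidHom.mem_ker]
    exact sat_bigG w hw (Φ.comp φ)
  have h2 : (QuotientGroup.mk' (verb lawSet α)) (crit (FreeGroup.of a) (FreeGroup.of b) 1) = 1 := by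
    rw [map_crit]
    exact hc
  rw [QuotientGroup.mk'_apply, QuotientGroup.eq_one_iff] at h2
  have h3 : Φ (crit (FreeGroup.of a) (FreeGroup.of b) 1) = 1 := by
    have h4 := hker h2
    rwa [MonoidHom.mem_ker] at h4
  rw [map_crit] at h3
  have ha : Φ (FreeGroup.of a) = genA := by simp [Φ]
  have hb : Φ (FreeGroup.of b) = genB := by simp [Φ, hab.symm]
  rw [ha, hb] at h3
  exact crit_gen_ne_one h3

end Pool.Agent.Helper95
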